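import Pool.Agent.K3h99.Leh.Geo

/-!
The obstacle function `ψ = h (K s - g)` and the area bound for `{g ≥ K s}`.
-/

set_option autoImplicit false

namespace Pool.Agent.K3h99.Leh

open Complex MeasureTheory Metric Set Filter Topology ComplexConjugate

noncomputable section

variable {ι : Type*} [Fintype ι]

lemma Z_norm_le {p : ℝ × ℝ} (hp : 0 ≤ p.1) : ‖Z p‖ ≤ 1 := by
  rw [norm_Z]; exact Real.exp_le_one_iff.2 (by linarith)

lemma hasDerivAt_one_sub (γ z : ℂ) : HasDerivAt (fun z => 1 - γ * z) (-γ) z := by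
  have h := ((hasDerivAt_id z).const_mul γ).const_sub 1
  simpa using h

lemma hasFDerivAt_log_one_sub (γ : ℂ) (p : ℝ × ℝ) (h : 1 - γ * Z p ≠ 0) :
    HasFDerivAt (fun p => Real.log ‖1 - γ * Z p‖) (lin (q γ (Z p))) p := by
  have h1 := hasFDerivAt_log_norm (hasDerivAt_one_sub γ (Z p)) h
  have e : -(Z p * (-γ / (1 - γ * Z p))) = q γ (Z p) := by
    unfold q; ring
  rw [e] at h1
  exact h1

lemma hasFDerivAt_Uf {α : ι → ℂ} (ha : ∀ i, ‖α i‖ ≠ 1) {p : ℝ × ℝ} (hp : 0 ≤ p.1) :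
    HasFDerivAt (fun p => Uf α (Z p)) (lin (∑ i, q (rf (α i)) (Z p))) p := by
  unfold Uf
  rw [lin_sum]
  have h := HasFDerivAt.fun_sum (u := Finset.univ)
    (A := fun i p => Real.log ‖1 - rf (α i) * Z p‖ + Real.posLog ‖α i‖)
    (A' := fun i => lin (q (rf (α i)) (Z p))) (x := p) (by
      intro i _
      exact (hasFDerivAt_log_one_sub (rf (α i)) p
        (one_sub_rf_ne (ha i) (Z_norm_le hp))).add_const _)
  exact h

lemma hasFDerivAt_Vf {α : ι → ℂ} {p : ℝ × ℝ} (hn : NZ α (Z p)) :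
    HasFDerivAt (fun p => Vf α (Z p)) (lin (∑ i, q (α i) (Z p))) p := by
  unfold Vf
  rw [lin_sum]
  have h := HasFDerivAt.fun_sum (u := Finset.univ)
    (A := fun i p => Real.log ‖1 - α i * Z p‖)
    (A' := fun i => lin (q (α i) (Z p))) (x := p) (by
      intro i _
      exact hasFDerivAt_log_one_sub (α i) p (hn i))
  exact h

lemma hasFDerivAt_gf {α : ι → ℂ} (ha : ∀ i, ‖α i‖ ≠ 1) {p : ℝ × ℝ} (hp : 0 ≤ p.1)
    (hn : NZ α (Z p)) : HasFDerivAt (fun p => gf α (Z p)) (lin (bf α (Z p))) p := by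
  have h := (hasFDerivAt_Uf ha hp).sub (hasFDerivAt_Vf hn)
  unfold bf
  rw [Finset.sum_sub_distrib, lin_sub]
  refine h.congr_of_eventuallyEq (Filter.Eventually.of_forall fun p' => ?_)
  simp only [gf_eq, Pi.sub_apply]

lemma eventually_NZ {α : ι → ℂ} {p : ℝ × ℝ} (hn : NZ α (Z p)) : ∀ᶠ p' in 𝓝 p, NZ α (Z p') := by
  unfold NZ
  rw [Filter.eventually_all]
  intro i
  have hc : ContinuousAt (fun p => 1 - α i * Z p) p := by
    have := continuous_Z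
    fun_prop
  exact hc.eventually_ne (hn i)

lemma pole {α : ι → ℂ} (ha : ∀ i, ‖α i‖ ≠ 1) (K : ℝ) {p : ℝ × ℝ} (hp : 0 ≤ p.1)
    (hn : ¬ NZ α (Z p)) : ∀ᶠ p' in 𝓝 p, NZ α (Z p') → K * p'.1 - gf α (Z p') ≤ 0 := by
  unfold NZ at hn
  push Not at hn
  obtain ⟨i, hi⟩ := hn
  have h1 : ‖α i‖ * ‖Z p‖ = 1 := by
    rw [← norm_mul]
    have : α i * Z p = 1 := by linear_combination -hi
    rw [this, norm_one]
  have hz1 := Z_norm_le hp
  have hai : 1 < ‖α i‖ := by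
    rcases lt_trichotomy ‖α i‖ 1 with h | h | h
    · nlinarith [norm_nonneg (α i), norm_nonneg (Z p)]
    · exact absurd h (ha i)
    · exact h
  have hzlt : ‖Z p‖ < 1 := by
    by_contra hcon
    push Not at hcon
    nlinarith
  have hp0 : 0 < p.1 := by
    rw [norm_Z] at hzlt
    have := Real.exp_lt_one_iff.1 hzlt
    linarith
  have hZ := continuous_Z
  have ev1 : ∀ᶠ p' : ℝ × ℝ in 𝓝 p, 0 < p'.1 :=
    continuous_fst.continuousAt.eventually (lt_mem_nhds hp0)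
  have hc1 : ContinuousAt (fun p' : ℝ × ℝ => ‖Z p' - conj (α i)‖ - ‖1 - α i * Z p'‖ * Real.exp (K * p'.1)) p := by
    fun_prop
  have hv : 0 < ‖Z p - conj (α i)‖ - ‖1 - α i * Z p‖ * Real.exp (K * p.1) := by
    rw [hi, norm_zero, zero_mul, sub_zero]
    exact z_sub_ne hai hz1
  have ev2 := hc1.eventually (lt_mem_nhds hv)
  filter_upwards [ev1, ev2] with p' e1 e2 hn'
  have hz' := Z_norm_le e1.le
  have hle : g1 (α i) (Z p') ≤ gf α (Z p') :=
    Finset.single_le_sum (f := fun i => g1 (α i) (Z p')) (fun j _ => g1_nonneg hz' (hn' j))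
      (Finset.mem_univ i)
  have hY : 0 < ‖1 - α i * Z p'‖ := norm_pos_iff.2 (hn' i)
  have hge : K * p'.1 ≤ g1 (α i) (Z p') := by
    rw [g1_of_gt hai hz' (hn' i), Real.le_log_iff_exp_le (div_pos (z_sub_ne hai hz') hY),
      le_div_iff₀ hY, mul_comm]
    linarith
  linarith

open Classical in
def psi (α : ι → ℂ) (K : ℝ) (p : ℝ × ℝ) : ℝ := if NZ α (Z p) then hc (K * p.1 - gf α (Z p)) else 0
open Classical in
def chi (α : ι → ℂ) (K : ℝ) (p : ℝ × ℝ) : ℝ := if NZ α (Z p) then hd (K * p.1 - gf α (Z p)) else 0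

lemma psi_of {α : ι → ℂ} {K : ℝ} {p : ℝ × ℝ} (h : NZ α (Z p)) :
    psi α K p = hc (K * p.1 - gf α (Z p)) := by unfold psi; rw [if_pos h]
lemma chi_of {α : ι → ℂ} {K : ℝ} {p : ℝ × ℝ} (h : NZ α (Z p)) :
    chi α K p = hd (K * p.1 - gf α (Z p)) := by unfold chi; rw [if_pos h]
lemma psi_not {α : ι → ℂ} {K : ℝ} {p : ℝ × ℝ} (h : ¬ NZ α (Z p)) :
    psi α K p = 0 := by unfold psi; rw [if_neg h]
lemma chi_not {α : ι → ℂ} {K : ℝ} {p : ℝ × ℝ} (h : ¬ NZ α (Z p)) :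
    chi α K p = 0 := by unfold chi; rw [if_neg h]

lemma chi_nonneg (α : ι → ℂ) (K : ℝ) (p : ℝ × ℝ) : 0 ≤ chi α K p := by
  unfold chi; split_ifs
  · exact hd_nonneg _
  · exact le_rfl

lemma chi_le_one (α : ι → ℂ) (K : ℝ) (p : ℝ × ℝ) : chi α K p ≤ 1 := by
  unfold chi; split_ifs
  · exact hd_le_one _
  · norm_num

lemma pole_zero {α : ι → ℂ} (ha : ∀ i, ‖α i‖ ≠ 1) (K : ℝ) {p : ℝ × ℝ} (hp : 0 ≤ p.1)
    (hn : ¬ NZ α (Z p)) : ∀ᶠ p' in 𝓝 p, psi α K p' = 0 ∧ chi α K p' = 0 := by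
  filter_upwards [pole ha K hp hn] with p' h
  by_cases h' : NZ α (Z p')
  · rw [psi_of h', chi_of h']
    exact ⟨hc_of_nonpos (h h'), hd_of_nonpos (h h')⟩
  · exact ⟨psi_not h', chi_not h'⟩

lemma hasFDerivAt_psi {α : ι → ℂ} (ha : ∀ i, ‖α i‖ ≠ 1) (K : ℝ) {p : ℝ × ℝ} (hp : 0 ≤ p.1) :
    HasFDerivAt (psi α K) (chi α K p • (K • ContinuousLinearMap.fst ℝ ℝ ℝ - lin (bf α (Z p)))) p := by
  by_cases hn : NZ α (Z p)
  · have h1 : HasFDerivAt (fun p : ℝ × ℝ => K * p.1 - gf α (Z p))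
        (K • ContinuousLinearMap.fst ℝ ℝ ℝ - lin (bf α (Z p))) p :=
      (hasFDerivAt_fst.const_mul K).sub (hasFDerivAt_gf ha hp hn)
    have h2 := (hasDerivAt_hc (K * p.1 - gf α (Z p))).comp_hasFDerivAt p h1
    rw [chi_of hn]
    refine h2.congr_of_eventuallyEq ?_
    filter_upwards [eventually_NZ hn] with p' hp'
    rw [psi_of hp']; rfl
  · rw [chi_not hn, zero_smul]
    have h0 : HasFDerivAt (fun _ : ℝ × ℝ => (0:ℝ)) (0 : ℝ × ℝ →L[ℝ] ℝ) p := hasFDerivAt_const _ _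
    refine h0.congr_of_eventuallyEq ?_
    filter_upwards [pole_zero ha K hp hn] with p' hp'
    exact hp'.1

lemma continuousAt_chi {α : ι → ℂ} (ha : ∀ i, ‖α i‖ ≠ 1) (K : ℝ) {p : ℝ × ℝ} (hp : 0 ≤ p.1) :
    ContinuousAt (chi α K) p := by
  by_cases hn : NZ α (Z p)
  · have h1 : ContinuousAt (fun p : ℝ × ℝ => hd (K * p.1 - gf α (Z p))) p := by
      have h2 := (hasFDerivAt_gf ha hp hn).continuousAt
      have h3 : ContinuousAt (fun p : ℝ × ℝ => K * p.1 - gf α (Z p)) p := by fun_prop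
      exact continuous_hd.continuousAt.comp h3
    refine h1.congr ?_
    filter_upwards [eventually_NZ hn] with p' hp'
    rw [chi_of hp']
  · have h0 : ContinuousAt (fun _ : ℝ × ℝ => (0:ℝ)) p := continuousAt_const
    refine h0.congr ?_
    filter_upwards [pole_zero ha K hp hn] with p' hp'
    exact hp'.2.symm

lemma continuousAt_chi_mul {α : ι → ℂ} (ha : ∀ i, ‖α i‖ ≠ 1) (K : ℝ) {p : ℝ × ℝ} (hp : 0 ≤ p.1)
    (F : ℝ × ℝ → ℝ) (hF : NZ α (Z p) → ContinuousAt F p) :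
    ContinuousAt (fun p => chi α K p * F p) p := by
  by_cases hn : NZ α (Z p)
  · exact (continuousAt_chi ha K hp).mul (hF hn)
  · have h0 : ContinuousAt (fun _ : ℝ × ℝ => (0:ℝ)) p := continuousAt_const
    refine h0.congr ?_
    filter_upwards [pole_zero ha K hp hn] with p' hp'
    rw [hp'.2, zero_mul]

/-- the derivative of `b` -/
def bd (α : ι → ℂ) (z : ℂ) : ℂ :=
  ∑ i, (rf (α i) / (1 - rf (α i) * z) ^ 2 - α i / (1 - α i * z) ^ 2)

lemma hasDerivAt_q {γ z : ℂ} (h : 1 - γ * z ≠ 0) : HasDerivAt (q γ) (γ / (1 - γ * z) ^ 2) z := by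
  have h1 : HasDerivAt (fun z => γ * z) γ z := by
    simpa using (hasDerivAt_id z).const_mul γ
  have h2 := h1.div (hasDerivAt_one_sub γ z) h
  have e : (γ * (1 - γ * z) - γ * z * -γ) / (1 - γ * z) ^ 2 = γ / (1 - γ * z) ^ 2 := by
    congr 1; ring
  rw [e] at h2
  exact h2

lemma hasDerivAt_bf {α : ι → ℂ} (ha : ∀ i, ‖α i‖ ≠ 1) {z : ℂ} (hz : ‖z‖ ≤ 1) (hn : NZ α z) :
    HasDerivAt (bf α) (bd α z) z := by
  unfold bf bd
  apply HasDerivAt.fun_sum
  intro i _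
  exact (hasDerivAt_q (one_sub_rf_ne (ha i) hz)).sub (hasDerivAt_q (hn i))

lemma continuousAt_bf {α : ι → ℂ} (ha : ∀ i, ‖α i‖ ≠ 1) {p : ℝ × ℝ} (hp : 0 ≤ p.1)
    (hn : NZ α (Z p)) : ContinuousAt (fun p => bf α (Z p)) p :=
  (hasFDerivAt_comp_Z (hasDerivAt_bf ha (Z_norm_le hp) hn)).continuousAt

lemma hasFDerivAt_psi_re {α : ι → ℂ} (ha : ∀ i, ‖α i‖ ≠ 1) (K : ℝ) {p : ℝ × ℝ} (hp : 0 ≤ p.1) :
    HasFDerivAt (fun p => psi α K p * (bf α (Z p)).re)
      (psi α K p • lin (-(Z p * bd α (Z p))) + (bf α (Z p)).re •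
        (chi α K p • (K • ContinuousLinearMap.fst ℝ ℝ ℝ - lin (bf α (Z p))))) p := by
  by_cases hn : NZ α (Z p)
  · exact (hasFDerivAt_psi ha K hp).mul (hasFDerivAt_re (hasDerivAt_bf ha (Z_norm_le hp) hn))
  · rw [chi_not hn, psi_not hn, zero_smul, zero_smul, smul_zero, add_zero]
    have h0 : HasFDerivAt (fun _ : ℝ × ℝ => (0:ℝ)) (0 : ℝ × ℝ →L[ℝ] ℝ) p := hasFDerivAt_const _ _
    refine h0.congr_of_eventuallyEq ?_
    filter_upwards [pole_zero ha K hp hn] with p' hp'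
    rw [hp'.1, zero_mul]

lemma hasFDerivAt_psi_im {α : ι → ℂ} (ha : ∀ i, ‖α i‖ ≠ 1) (K : ℝ) {p : ℝ × ℝ} (hp : 0 ≤ p.1) :
    HasFDerivAt (fun p => psi α K p * (bf α (Z p)).im)
      (psi α K p • lin (Complex.I * (Z p * bd α (Z p))) + (bf α (Z p)).im •
        (chi α K p • (K • ContinuousLinearMap.fst ℝ ℝ ℝ - lin (bf α (Z p))))) p := by
  by_cases hn : NZ α (Z p)
  · exact (hasFDerivAt_psi ha K hp).mul (hasFDerivAt_im (hasDerivAt_bf ha (Z_norm_le hp) hn))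
  · rw [chi_not hn, psi_not hn, zero_smul, zero_smul, smul_zero, add_zero]
    have h0 : HasFDerivAt (fun _ : ℝ × ℝ => (0:ℝ)) (0 : ℝ × ℝ →L[ℝ] ℝ) p := hasFDerivAt_const _ _
    refine h0.congr_of_eventuallyEq ?_
    filter_upwards [pole_zero ha K hp hn] with p' hp'
    rw [hp'.1, zero_mul]

lemma psi_zero {α : ι → ℂ} (ha : ∀ i, ‖α i‖ ≠ 1) (K θ : ℝ) : psi α K (0, θ) = 0 := by
  by_cases hn : NZ α (Z (0, θ))
  · rw [psi_of hn, gf_circle ha (by rw [norm_Z]; simp)]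
    apply hc_of_nonpos
    simp
  · exact psi_not hn

lemma psi_periodic (α : ι → ℂ) (K s : ℝ) : psi α K (s, 2 * Real.pi) = psi α K (s, 0) := by
  unfold psi
  rw [Z_two_pi]

/-- the identity `∫∫ χ (K g_s - |∇g|²) = ∫ ψ g_s (S, ·)` -/
theorem star {α : ι → ℂ} (ha : ∀ i, ‖α i‖ ≠ 1) (K S : ℝ) (hS : 0 ≤ S) :
    ∫ s in (0:ℝ)..S, ∫ θ in (0:ℝ)..(2 * Real.pi),
      chi α K (s, θ) * (K * (bf α (Z (s, θ))).re - ‖bf α (Z (s, θ))‖ ^ 2) =
    ∫ θ in (0:ℝ)..(2 * Real.pi), psi α K (S, θ) * (bf α (Z (S, θ))).re := by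
  set f : ℝ × ℝ → ℝ := fun p => psi α K p * (bf α (Z p)).re with hf
  set g : ℝ × ℝ → ℝ := fun p => psi α K p * (bf α (Z p)).im with hg
  set f' : ℝ × ℝ → ℝ × ℝ →L[ℝ] ℝ := fun p =>
    (psi α K p • lin (-(Z p * bd α (Z p))) + (bf α (Z p)).re •
        (chi α K p • (K • ContinuousLinearMap.fst ℝ ℝ ℝ - lin (bf α (Z p))))) with hf'
  set g' : ℝ × ℝ → ℝ × ℝ →L[ℝ] ℝ := fun p =>
    (psi α K p • lin (Complex.I * (Z p * bd α (Z p))) + (bf α (Z p)).im •
        (chi α K p • (K • ContinuousLinearMap.fst ℝ ℝ ℝ - lin (bf α (Z p))))) with hg'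
  have hdiv : ∀ p : ℝ × ℝ, f' p (1, 0) + g' p (0, 1) =
      chi α K p * (K * (bf α (Z p)).re - ‖bf α (Z p)‖ ^ 2) := by
    intro p
    rw [hf', hg', ← Complex.normSq_eq_norm_sq, Complex.normSq_apply]
    simp
    ring
  have hpi : (0:ℝ) ≤ 2 * Real.pi := by positivity
  have hmem : ∀ p ∈ (uIcc (0:ℝ) S) ×ˢ (uIcc (0:ℝ) (2 * Real.pi)), 0 ≤ p.1 := by
    intro p hp
    rw [uIcc_of_le hS] at hp
    exact hp.1.1
  have hcomp : IsCompact ((uIcc (0:ℝ) S) ×ˢ (uIcc (0:ℝ) (2 * Real.pi))) := isCompact_uIcc.prod isCompact_uIcc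
  have h := integral2_divergence_prod_of_hasFDerivAt f g f' g' 0 0 S (2 * Real.pi)
    (fun p hp => (hasFDerivAt_psi_re ha K (hmem p hp)).continuousAt.continuousWithinAt)
    (fun p hp => (hasFDerivAt_psi_im ha K (hmem p hp)).continuousAt.continuousWithinAt)
    (fun p hp => by
      rw [min_eq_left hS] at hp
      exact hasFDerivAt_psi_re ha K hp.1.1.le)
    (fun p hp => by
      rw [min_eq_left hS] at hp
      exact hasFDerivAt_psi_im ha K hp.1.1.le)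
    (by
      simp only [hdiv]
      apply ContinuousOn.integrableOn_compact hcomp
      intro p hp
      apply ContinuousAt.continuousWithinAt
      apply continuousAt_chi_mul ha K (hmem p hp)
      intro hn
      have h1 := continuousAt_bf ha (hmem p hp) hn
      have h2 : ContinuousAt (fun p => (bf α (Z p)).re) p :=
        Complex.continuous_re.continuousAt.comp h1
      exact (continuousAt_const.mul h2).sub (h1.norm.pow 2))
  simp only [hdiv] at h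
  rw [h]
  have e1 : ∫ x in (0:ℝ)..S, g (x, 2 * Real.pi) = ∫ x in (0:ℝ)..S, g (x, 0) := by
    apply intervalIntegral.integral_congr
    intro x _
    simp only [hg]
    rw [psi_periodic, Z_two_pi]
  have e2 : ∫ y in (0:ℝ)..(2 * Real.pi), f (0, y) = 0 := by
    have : ∫ y in (0:ℝ)..(2 * Real.pi), f (0, y) = ∫ _y in (0:ℝ)..(2 * Real.pi), (0:ℝ) := by
      apply intervalIntegral.integral_congr
      intro x _
      simp only [hf]
      rw [psi_zero ha, zero_mul]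
    rw [this]; simp
  rw [e1, e2]
  simp [hf]

end

end Pool.Agent.K3h99.Leh
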