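import Mathlib

/-!
Fubini on rectangles for functions continuous on `0 ≤ s`.
-/

set_option autoImplicit false

namespace Pool.Agent.K3h99.Leh

open MeasureTheory Metric Set Filter Topology

noncomputable section

/-- continuity at all points with `0 ≤ s` -/
def C0 (F : ℝ × ℝ → ℝ) : Prop := ∀ p : ℝ × ℝ, 0 ≤ p.1 → ContinuousAt F p

lemma C0.add {F G : ℝ × ℝ → ℝ} (hF : C0 F) (hG : C0 G) : C0 (fun p => F p + G p) :=
  fun p hp => (hF p hp).add (hG p hp)
lemma C0.sub {F G : ℝ × ℝ → ℝ} (hF : C0 F) (hG : C0 G) : C0 (fun p => F p - G p) :=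
  fun p hp => (hF p hp).sub (hG p hp)
lemma C0.mul {F G : ℝ × ℝ → ℝ} (hF : C0 F) (hG : C0 G) : C0 (fun p => F p * G p) :=
  fun p hp => (hF p hp).mul (hG p hp)
lemma C0.const (a : ℝ) : C0 (fun _ => a) := fun _ _ => continuousAt_const
lemma C0.const_mul {F : ℝ × ℝ → ℝ} (hF : C0 F) (a : ℝ) : C0 (fun p => a * F p) :=
  fun p hp => continuousAt_const.mul (hF p hp)
lemma C0.of_continuous {F : ℝ × ℝ → ℝ} (hF : Continuous F) : C0 F := fun _ _ => hF.continuousAt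

lemma C0.int_s {F : ℝ × ℝ → ℝ} (hF : C0 F) {a S : ℝ} (ha : 0 ≤ a) (hS : 0 ≤ S) (θ : ℝ) :
    IntervalIntegrable (fun s => F (s, θ)) volume a S := by
  apply ContinuousOn.intervalIntegrable
  intro s hs
  have hs0 : 0 ≤ s := by
    rcases le_total a S with h | h
    · rw [uIcc_of_le h] at hs; linarith [hs.1]
    · rw [uIcc_of_ge h] at hs; linarith [hs.1]
  have h1 : ContinuousAt (fun s : ℝ => (s, θ)) s := by fun_prop
  exact (ContinuousAt.comp (f := fun s : ℝ => (s, θ)) (hF (s, θ) hs0) h1).continuousWithinAt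

lemma C0.int_θ {F : ℝ × ℝ → ℝ} (hF : C0 F) {s : ℝ} (hs : 0 ≤ s) (a b : ℝ) :
    IntervalIntegrable (fun θ => F (s, θ)) volume a b := by
  apply ContinuousOn.intervalIntegrable
  intro θ _
  have h1 : ContinuousAt (fun θ : ℝ => (s, θ)) θ := by fun_prop
  exact (ContinuousAt.comp (f := fun θ : ℝ => (s, θ)) (hF (s, θ) hs) h1).continuousWithinAt

lemma C0.integrableOn {F : ℝ × ℝ → ℝ} (hF : C0 F) {S : ℝ} (hS : 0 ≤ S) (b : ℝ) :
    IntegrableOn F (uIoc 0 S ×ˢ uIoc 0 b) := by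
  have hcomp : IsCompact ((uIcc (0:ℝ) S) ×ˢ (uIcc (0:ℝ) b)) := isCompact_uIcc.prod isCompact_uIcc
  have h1 : IntegrableOn F ((uIcc (0:ℝ) S) ×ˢ (uIcc (0:ℝ) b)) := by
    apply ContinuousOn.integrableOn_compact hcomp
    intro p hp
    have hp0 : 0 ≤ p.1 := by
      have := hp.1
      rw [uIcc_of_le hS] at this
      exact this.1
    exact (hF p hp0).continuousWithinAt
  exact h1.mono_set (Set.prod_mono uIoc_subset_uIcc uIoc_subset_uIcc)

lemma C0.swap {F : ℝ × ℝ → ℝ} (hF : C0 F) {S : ℝ} (hS : 0 ≤ S) (b : ℝ) :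
    ∫ s in (0:ℝ)..S, ∫ θ in (0:ℝ)..b, F (s, θ) = ∫ θ in (0:ℝ)..b, ∫ s in (0:ℝ)..S, F (s, θ) := by
  apply intervalIntegral_intervalIntegral_swap (F := fun s θ => F (s, θ))
  exact hF.integrableOn hS b

lemma C0.int_s_int {F : ℝ × ℝ → ℝ} (hF : C0 F) {S : ℝ} (hS : 0 ≤ S) {b : ℝ} (hb : 0 ≤ b) :
    IntervalIntegrable (fun s => ∫ θ in (0:ℝ)..b, F (s, θ)) volume 0 S := by
  have h := hF.integrableOn hS b
  rw [IntegrableOn, Measure.volume_eq_prod, ← Measure.prod_restrict] at h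
  have h2 := h.integral_prod_left
  rw [intervalIntegrable_iff]
  have e : (fun s => ∫ θ in (0:ℝ)..b, F (s, θ)) = fun x => ∫ y in uIoc 0 b, F (x, y) := by
    ext s
    rw [intervalIntegral.integral_of_le hb, uIoc_of_le hb]
  rw [e]
  exact h2

lemma C0.int_θ_int {F : ℝ × ℝ → ℝ} (hF : C0 F) {S : ℝ} (hS : 0 ≤ S) (b : ℝ) :
    IntervalIntegrable (fun θ => ∫ s in (0:ℝ)..S, F (s, θ)) volume 0 b := by
  have h := hF.integrableOn hS b
  rw [IntegrableOn, Measure.volume_eq_prod, ← Measure.prod_restrict] at h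
  have h2 := h.integral_prod_right
  rw [intervalIntegrable_iff]
  have e : (fun θ => ∫ s in (0:ℝ)..S, F (s, θ)) = fun y => ∫ x in uIoc 0 S, F (x, y) := by
    ext s
    rw [intervalIntegral.integral_of_le hS, uIoc_of_le hS]
  rw [e]
  exact h2

end

end Pool.Agent.K3h99.Leh
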