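import Pool.Agent.K3h99.Leh.Area
import Pool.Agent.K3h99.Leh.Fub

/-!
Behaviour near `z = 0` and the area bound.
-/

set_option autoImplicit false

namespace Pool.Agent.K3h99.Leh

open Complex MeasureTheory Metric Set Filter Topology ComplexConjugate

noncomputable section

variable {ι : Type*} [Fintype ι]

/-- `∑ log⁺ |α i|` -/
def ep (α : ι → ℂ) : ℝ := ∑ i, Real.posLog ‖α i‖

lemma ep_nonneg (α : ι → ℂ) : 0 ≤ ep α := Finset.sum_nonneg fun _ _ => Real.posLog_nonneg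

lemma continuousAt_log_one_sub (γ : ℂ) : ContinuousAt (fun z : ℂ => Real.log ‖1 - γ * z‖) 0 := by
  apply ContinuousAt.log
  · fun_prop
  · simp

lemma gf_zero (α : ι → ℂ) : gf α 0 = ep α := by
  unfold gf ep g1; simp

lemma Vf_zero (α : ι → ℂ) : Vf α 0 = 0 := by unfold Vf; simp

lemma bf_zero (α : ι → ℂ) : bf α 0 = 0 := by unfold bf q; simp

omit [Fintype ι] in
lemma NZ_zero (α : ι → ℂ) : NZ α 0 := by intro i; simp

lemma continuousAt_Vf_zero (α : ι → ℂ) : ContinuousAt (Vf α) 0 := by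
  unfold Vf
  exact tendsto_finsetSum _ fun i _ => continuousAt_log_one_sub (α i)

lemma continuousAt_gf_zero (α : ι → ℂ) : ContinuousAt (gf α) 0 := by
  unfold gf
  refine tendsto_finsetSum _ fun i _ => ?_
  unfold g1
  exact ((continuousAt_log_one_sub (rf (α i))).add continuousAt_const).sub
    (continuousAt_log_one_sub (α i))

theorem near_zero {α : ι → ℂ} (ha : ∀ i, ‖α i‖ ≠ 1) : ∃ C : ℝ, 0 ≤ C ∧ ∃ r : ℝ, 0 < r ∧
    ∀ z : ℂ, ‖z‖ < r → NZ α z ∧ gf α z ≤ ep α + 1 / 4 ∧ |Vf α z| ≤ 1 / 4 ∧ ‖bf α z‖ ≤ C * ‖z‖ := by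
  have h1 : ∀ᶠ z in 𝓝 (0:ℂ), NZ α z := by
    unfold NZ
    rw [Filter.eventually_all]
    intro i
    have hc : ContinuousAt (fun z : ℂ => 1 - α i * z) 0 := by fun_prop
    exact hc.eventually_ne (by simp)
  have h2 : ∀ᶠ z in 𝓝 (0:ℂ), gf α z < ep α + 1 / 4 :=
    (continuousAt_gf_zero α).eventually (gt_mem_nhds (by rw [gf_zero]; linarith))
  have h3 : ∀ᶠ z in 𝓝 (0:ℂ), |Vf α z| < 1 / 4 :=
    (continuousAt_Vf_zero α).abs.eventually (gt_mem_nhds (by simp only [Vf_zero]; norm_num))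
  have h4 := (hasDerivAt_bf ha (by simp) (NZ_zero α)).isBigO_sub
  obtain ⟨C, hC⟩ := h4.bound
  obtain ⟨r, hr, h⟩ := Metric.eventually_nhds_iff.1 (((h1.and h2).and h3).and hC)
  refine ⟨max C 0, le_max_right _ _, r, hr, fun z hz => ?_⟩
  obtain ⟨⟨⟨e1, e2⟩, e3⟩, e4⟩ := h (y := z) (by simpa using hz)
  refine ⟨e1, e2.le, e3.le, ?_⟩
  rw [bf_zero, sub_zero, sub_zero] at e4
  exact e4.trans (mul_le_mul_of_nonneg_right (le_max_left _ _) (norm_nonneg z))

lemma hc_nonneg (t : ℝ) : 0 ≤ hc t := by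
  unfold hc
  rcases le_total t 0 with h | h
  · rw [max_eq_right h, max_eq_right (by linarith)]; norm_num
  · rw [max_eq_left h]
    rcases le_total (t - 1) 0 with h' | h'
    · rw [max_eq_right h']; nlinarith
    · rw [max_eq_left h']; nlinarith

lemma hc_le {t : ℝ} (h : 0 ≤ t) : hc t ≤ t := by
  unfold hc
  rw [max_eq_left h]
  rcases le_total (t - 1) 0 with h' | h'
  · rw [max_eq_right h']; nlinarith
  · rw [max_eq_left h']; nlinarith

theorem far {α : ι → ℂ} (ha : ∀ i, ‖α i‖ ≠ 1) {K : ℝ} (hK : 0 < K) :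
    ∀ᶠ S in (atTop : Filter ℝ), 0 ≤ S ∧ ∀ θ : ℝ, NZ α (Z (S, θ)) ∧
      gf α (Z (S, θ)) ≤ ep α + 1 / 4 ∧ |Vf α (Z (S, θ))| ≤ 1 / 4 ∧
      1 ≤ K * S - gf α (Z (S, θ)) ∧ |psi α K (S, θ) * (bf α (Z (S, θ))).re| ≤ K / 4 := by
  obtain ⟨C, hC0, r, hr, h⟩ := near_zero ha
  have t1 : ∀ᶠ S in (atTop : Filter ℝ), Real.exp (-S) < r :=
    Real.tendsto_exp_neg_atTop_nhds_zero.eventually (gt_mem_nhds hr)
  have t2 : ∀ᶠ S in (atTop : Filter ℝ), (K * C) * (S ^ 1 * Real.exp (-S)) < K / 4 := by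
    have := (Real.tendsto_pow_mul_exp_neg_atTop_nhds_zero 1).const_mul (K * C)
    rw [mul_zero] at this
    exact this.eventually (gt_mem_nhds (by positivity))
  have t3 : ∀ᶠ S in (atTop : Filter ℝ), (1 + (ep α + 1 / 4)) / K ≤ S := eventually_ge_atTop _
  filter_upwards [t1, t2, t3, eventually_ge_atTop (0:ℝ)] with S h1 h2 h3 h0
  refine ⟨h0, fun θ => ?_⟩
  have hn : ‖Z (S, θ)‖ = Real.exp (-S) := norm_Z (S, θ)
  obtain ⟨e1, e2, e3, e4⟩ := h (Z (S, θ)) (by rw [hn]; exact h1)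
  have hz : ‖Z (S, θ)‖ ≤ 1 := Z_norm_le h0
  have hg0 := gf_nonneg hz e1
  rw [div_le_iff₀ hK] at h3
  refine ⟨e1, e2, e3, by linarith, ?_⟩
  rw [abs_mul]
  have h5 : |psi α K (S, θ)| ≤ K * S := by
    rw [psi_of e1, abs_of_nonneg (hc_nonneg _)]
    refine (hc_le (by linarith)).trans ?_
    simp only
    linarith
  have h6 : |(bf α (Z (S, θ))).re| ≤ C * Real.exp (-S) :=
    (Complex.abs_re_le_norm _).trans (by rw [← hn]; exact e4)
  calc |psi α K (S, θ)| * |(bf α (Z (S, θ))).re| ≤ (K * S) * (C * Real.exp (-S)) :=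
        mul_le_mul h5 h6 (abs_nonneg _) (by positivity)
    _ = (K * C) * (S ^ 1 * Real.exp (-S)) := by ring
    _ ≤ K / 4 := h2.le

lemma C0_chi {α : ι → ℂ} (ha : ∀ i, ‖α i‖ ≠ 1) (K : ℝ) : C0 (chi α K) :=
  fun _ hp => continuousAt_chi ha K hp

lemma C0_chi_re {α : ι → ℂ} (ha : ∀ i, ‖α i‖ ≠ 1) (K : ℝ) :
    C0 (fun p => chi α K p * (bf α (Z p)).re) := by
  intro p hp
  apply continuousAt_chi_mul ha K hp
  intro hn
  exact Complex.continuous_re.continuousAt.comp (continuousAt_bf ha hp hn)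

lemma C0_chi_sq {α : ι → ℂ} (ha : ∀ i, ‖α i‖ ≠ 1) (K : ℝ) :
    C0 (fun p => chi α K p * ‖bf α (Z p)‖ ^ 2) := by
  intro p hp
  apply continuousAt_chi_mul ha K hp
  intro hn
  exact (continuousAt_bf ha hp hn).norm.pow 2

/-- derivative of `ψ` along a ray -/
lemma hasDerivAt_psi_ray {α : ι → ℂ} (ha : ∀ i, ‖α i‖ ≠ 1) (K θ : ℝ) {s : ℝ} (hs : 0 ≤ s) :
    HasDerivAt (fun s => psi α K (s, θ)) (chi α K (s, θ) * (K - (bf α (Z (s, θ))).re)) s := by
  have h1 : HasDerivAt (fun s : ℝ => (s, θ)) ((1:ℝ), (0:ℝ)) s :=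
    (hasDerivAt_id s).prodMk (hasDerivAt_const s θ)
  have h2 := (hasFDerivAt_psi ha K (p := (s, θ)) hs).comp_hasDerivAt s h1
  refine h2.congr_deriv ?_
  simp

theorem ray_psi {α : ι → ℂ} (ha : ∀ i, ‖α i‖ ≠ 1) (K θ : ℝ) {S : ℝ} (hS : 0 ≤ S) :
    K * (∫ s in (0:ℝ)..S, chi α K (s, θ)) - ∫ s in (0:ℝ)..S, chi α K (s, θ) * (bf α (Z (s, θ))).re
      = psi α K (S, θ) := by
  have h1 := intervalIntegral.integral_eq_sub_of_hasDerivAt (a := 0) (b := S)
    (f := fun s => psi α K (s, θ))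
    (f' := fun s => chi α K (s, θ) * (K - (bf α (Z (s, θ))).re))
    (fun s hs => by
      rw [uIcc_of_le hS] at hs
      exact hasDerivAt_psi_ray ha K θ hs.1)
    (by
      have h2 := (((C0_chi ha K).const_mul K).sub (C0_chi_re ha K)).int_s le_rfl hS θ
      refine h2.congr ?_
      intro s _
      simp only []
      ring)
  simp only [psi_zero ha, sub_zero] at h1
  rw [← h1, ← intervalIntegral.integral_const_mul, ← intervalIntegral.integral_sub]
  · apply intervalIntegral.integral_congr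
    intro s _
    simp only []
    ring
  · exact ((C0_chi ha K).const_mul K).int_s le_rfl hS θ
  · exact (C0_chi_re ha K).int_s le_rfl hS θ

/-- the area bound -/
theorem area {α : ι → ℂ} (ha : ∀ i, ‖α i‖ ≠ 1) {K : ℝ} (hK : 0 < K) {S : ℝ} (hS : 0 ≤ S)
    (hfar : ∀ θ : ℝ, NZ α (Z (S, θ)) ∧
      gf α (Z (S, θ)) ≤ ep α + 1 / 4 ∧ |Vf α (Z (S, θ))| ≤ 1 / 4 ∧
      1 ≤ K * S - gf α (Z (S, θ)) ∧ |psi α K (S, θ) * (bf α (Z (S, θ))).re| ≤ K / 4) :
    ∫ θ in (0:ℝ)..(2 * Real.pi), ∫ s in (0:ℝ)..S, (1 - chi α K (s, θ)) ≤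
      2 * Real.pi * ((ep α + 1) / K) := by
  have hpi : (0:ℝ) ≤ 2 * Real.pi := by positivity
  set b := 2 * Real.pi with hb
  have hst := star ha K S hS
  rw [← hb] at hst
  -- split the left side of `star`
  have hX : ∫ s in (0:ℝ)..S, ∫ θ in (0:ℝ)..b,
      chi α K (s, θ) * (K * (bf α (Z (s, θ))).re - ‖bf α (Z (s, θ))‖ ^ 2) =
      K * (∫ s in (0:ℝ)..S, ∫ θ in (0:ℝ)..b, chi α K (s, θ) * (bf α (Z (s, θ))).re) -
      ∫ s in (0:ℝ)..S, ∫ θ in (0:ℝ)..b, chi α K (s, θ) * ‖bf α (Z (s, θ))‖ ^ 2 := by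
    rw [← intervalIntegral.integral_const_mul, ← intervalIntegral.integral_sub]
    · apply intervalIntegral.integral_congr
      intro s hs
      rw [uIcc_of_le hS] at hs
      simp only []
      rw [← intervalIntegral.integral_const_mul, ← intervalIntegral.integral_sub]
      · apply intervalIntegral.integral_congr
        intro θ _
        simp only []
        ring
      · exact ((C0_chi_re ha K).int_θ hs.1 0 b).const_mul K
      · exact (C0_chi_sq ha K).int_θ hs.1 0 b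
    · exact ((C0_chi_re ha K).int_s_int hS hpi).const_mul K
    · exact (C0_chi_sq ha K).int_s_int hS hpi
  have hnn : 0 ≤ ∫ s in (0:ℝ)..S, ∫ θ in (0:ℝ)..b, chi α K (s, θ) * ‖bf α (Z (s, θ))‖ ^ 2 := by
    apply intervalIntegral.integral_nonneg hS
    intro s _
    apply intervalIntegral.integral_nonneg hpi
    intro θ _
    exact mul_nonneg (chi_nonneg _ _ _) (by positivity)
  have hbd : -(b * (K / 4)) ≤ ∫ θ in (0:ℝ)..b, psi α K (S, θ) * (bf α (Z (S, θ))).re := by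
    have h1 : ‖∫ θ in (0:ℝ)..b, psi α K (S, θ) * (bf α (Z (S, θ))).re‖ ≤ (K / 4) * |b - 0| := by
      apply intervalIntegral.norm_integral_le_of_norm_le_const
      intro θ _
      rw [Real.norm_eq_abs]
      exact (hfar θ).2.2.2.2
    rw [sub_zero, abs_of_nonneg hpi, Real.norm_eq_abs] at h1
    have := neg_abs_le (∫ θ in (0:ℝ)..b, psi α K (S, θ) * (bf α (Z (S, θ))).re)
    linarith
  have hA : -(b / 4) ≤ ∫ s in (0:ℝ)..S, ∫ θ in (0:ℝ)..b, chi α K (s, θ) * (bf α (Z (s, θ))).re := by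
    rw [hX] at hst
    have : -(b * (K / 4)) ≤ K * (∫ s in (0:ℝ)..S, ∫ θ in (0:ℝ)..b,
        chi α K (s, θ) * (bf α (Z (s, θ))).re) := by linarith
    by_contra hcon
    push Not at hcon
    nlinarith
  rw [(C0_chi_re ha K).swap hS b] at hA
  -- integrate `ray_psi`
  have hR : K * (∫ θ in (0:ℝ)..b, ∫ s in (0:ℝ)..S, (1 - chi α K (s, θ))) =
      (∫ θ in (0:ℝ)..b, (K * S - psi α K (S, θ))) -
      ∫ θ in (0:ℝ)..b, ∫ s in (0:ℝ)..S, chi α K (s, θ) * (bf α (Z (s, θ))).re := by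
    rw [← intervalIntegral.integral_const_mul, ← intervalIntegral.integral_sub]
    · apply intervalIntegral.integral_congr
      intro θ _
      simp only []
      rw [← ray_psi ha K θ hS, intervalIntegral.integral_sub]
      · simp
        ring
      · simp
      · exact (C0_chi ha K).int_s le_rfl hS θ
    · apply IntervalIntegrable.sub
      · simp
      · apply ContinuousOn.intervalIntegrable
        intro θ _
        have h1 : ContinuousAt (fun θ : ℝ => (S, θ)) θ := by fun_prop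
        exact (ContinuousAt.comp (f := fun θ : ℝ => (S, θ))
          (hasFDerivAt_psi ha K (p := (S, θ)) hS).continuousAt h1).continuousWithinAt
    · exact (C0_chi_re ha K).int_θ_int hS b
  have hP : ∫ θ in (0:ℝ)..b, (K * S - psi α K (S, θ)) ≤ b * (ep α + 3 / 4) := by
    have h1 : ∫ θ in (0:ℝ)..b, (K * S - psi α K (S, θ)) ≤ ∫ _θ in (0:ℝ)..b, (ep α + 3 / 4) := by
      apply intervalIntegral.integral_mono_on hpi
      · apply IntervalIntegrable.sub
        · simp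
        · apply ContinuousOn.intervalIntegrable
          intro θ _
          have h1 : ContinuousAt (fun θ : ℝ => (S, θ)) θ := by fun_prop
          exact (ContinuousAt.comp (f := fun θ : ℝ => (S, θ))
            (hasFDerivAt_psi ha K (p := (S, θ)) hS).continuousAt h1).continuousWithinAt
      · simp
      · intro θ _
        obtain ⟨e1, e2, e3, e4, e5⟩ := hfar θ
        rw [psi_of e1, hc_of_one_le e4]
        linarith
    rw [intervalIntegral.integral_const, sub_zero, smul_eq_mul] at h1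
    exact h1
  have hF : K * (∫ θ in (0:ℝ)..b, ∫ s in (0:ℝ)..S, (1 - chi α K (s, θ))) ≤ b * (ep α + 1) := by
    rw [hR]; linarith
  rw [← mul_div_assoc, le_div_iff₀ hK]
  linarith

end

end Pool.Agent.K3h99.Leh
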