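import Pool.Agent.K3h99.Leh.Ray

/-!
Assembly of the analytic bound.
-/

set_option autoImplicit false

namespace Pool.Agent.K3h99.Leh

open Complex MeasureTheory Metric Set Filter Topology ComplexConjugate InnerProductSpace Real

noncomputable section

variable {ι : Type*} [Fintype ι]

theorem far' {α : ι → ℂ} (ha : ∀ i, ‖α i‖ ≠ 1) {K : ℝ} (hK : 0 < K) (L : ℕ) :
    ∃ S : ℝ, 0 ≤ S ∧ ∀ θ : ℝ, (NZ α (Z (S, θ)) ∧
      gf α (Z (S, θ)) ≤ ep α + 1 / 4 ∧ |Vf α (Z (S, θ))| ≤ 1 / 4 ∧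
      1 ≤ K * S - gf α (Z (S, θ)) ∧ |psi α K (S, θ) * (bf α (Z (S, θ))).re| ≤ K / 4) ∧
      |(Pf α L (Z (S, θ))).re| ≤ 1 / 4 := by
  have h1 := far ha hK
  have hP0 : Pf α L 0 = 0 := by
    unfold Pf
    apply Finset.sum_eq_zero
    intro k hk
    rw [Finset.mem_Ico] at hk
    rw [zero_pow (by omega), mul_zero]
  have hc : ContinuousAt (fun z => |(Pf α L z).re|) 0 :=
    (Complex.continuous_re.comp (continuous_Pf α L)).abs.continuousAt
  have h2 : ∀ᶠ z in 𝓝 (0:ℂ), |(Pf α L z).re| < 1 / 4 :=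
    hc.eventually (gt_mem_nhds (by simp only [hP0]; norm_num))
  obtain ⟨r, hr, h3⟩ := Metric.eventually_nhds_iff.1 h2
  have t1 : ∀ᶠ S in (atTop : Filter ℝ), Real.exp (-S) < r :=
    Real.tendsto_exp_neg_atTop_nhds_zero.eventually (gt_mem_nhds hr)
  obtain ⟨S, ⟨hS0, hS⟩, hS2⟩ := (h1.and t1).exists
  refine ⟨S, hS0, fun θ => ⟨hS θ, ?_⟩⟩
  apply (h3 (y := Z (S, θ)) _).le
  rw [dist_zero_right, norm_Z]
  exact hS2

lemma C0_Uf {α : ι → ℂ} (ha : ∀ i, ‖α i‖ ≠ 1) : C0 (fun p => Uf α (Z p)) :=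
  fun _ hp => (hasFDerivAt_Uf ha hp).continuousAt

lemma C0_Yf {α : ι → ℂ} (ha : ∀ i, ‖α i‖ ≠ 1) (P : Polynomial ℂ) : C0 (fun p => Yf α P (Z p)) := by
  intro p hp
  unfold Yf
  have h1 : ContinuousAt (fun p => ‖P.eval (Z p)‖) p :=
    ((P.continuous.comp continuous_Z).norm).continuousAt
  have h2 : ContinuousAt (fun p => Real.exp (-Uf α (Z p))) p :=
    Real.continuous_exp.continuousAt.comp ((C0_Uf ha p hp).neg)
  exact (h1.mul h2).sqrt

lemma C0_Wd {α : ι → ℂ} (ha : ∀ i, ‖α i‖ ≠ 1) (K : ℝ) (L : ℕ) : C0 (Wd α K L) := by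
  intro p hp
  unfold Wd
  have h1 : ContinuousAt (fun p => (∑ i, q (rf (α i)) (Z p)).re) p := by
    apply Complex.continuous_re.continuousAt.comp
    apply tendsto_finsetSum
    intro i _
    have hd := hasDerivAt_q (one_sub_rf_ne (ha i) (Z_norm_le hp))
    exact (hasFDerivAt_comp_Z hd).continuousAt
  have h2 : ContinuousAt (fun p => (pf α L (Z p)).re) p :=
    (Complex.continuous_re.comp ((continuous_pf α L).comp continuous_Z)).continuousAt
  have h3 : ContinuousAt (fun p => chi α K p * (K - (bf α (Z p)).re)) p := by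
    apply continuousAt_chi_mul ha K hp
    intro hn
    exact continuousAt_const.sub (Complex.continuous_re.continuousAt.comp (continuousAt_bf ha hp hn))
  exact ((h1.sub h2).sub continuousAt_const).add h3

lemma C0_exp (a : ℝ) : C0 (fun p => Real.exp (-(a * p.1))) :=
  C0.of_continuous (by fun_prop)

lemma C0_Xi [DecidableEq ι] {α : ι → ℂ} (ha : ∀ i, ‖α i‖ ≠ 1) (L : ℕ) (μ l0 : ℝ) :
    C0 (Xi α L μ l0) := by
  unfold Xi
  have h1 : C0 (fun p => (1 - chi α (L / 8) p) * (L / 8 + (Fintype.card ι : ℝ) / 2 + μ / 2)) :=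
    ((C0.const 1).sub (C0_chi ha _)).mul (C0.const _)
  have h2 := (C0_pf α L).const_mul (1 / (2 * μ) + 3 * (l0 ^ 2)⁻¹)
  have h3 := ((C0_exp (3 * L / 16)).mul (C0_Yf ha (Np α L))).const_mul l0
  have h4 := (C0_exp (L / 2)).const_mul (3 * (l0 ^ 2)⁻¹ * ((Fintype.card ι : ℝ) ^ 2 / 4))
  have h5 := (C0_exp (L / 4)).const_mul (3 * (l0 ^ 2)⁻¹ * ((L:ℝ) / 8) ^ 2)
  exact (((h1.add h2).add h3).add h4).add h5

lemma Xi_nonneg [DecidableEq ι] (α : ι → ℂ) (L : ℕ) {μ l0 : ℝ} (hμ : 0 < μ) (hl0 : 0 < l0)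
    (p : ℝ × ℝ) : 0 ≤ Xi α L μ l0 p := by
  unfold Xi
  have h1 := chi_le_one α (L / 8) p
  have h2 := Yf_nonneg α (Np α L) (Z p)
  have h3 : 0 ≤ (1 - chi α (L / 8) p) * (L / 8 + (Fintype.card ι : ℝ) / 2 + μ / 2) :=
    mul_nonneg (by linarith) (by positivity)
  positivity

/-- pointwise bound for `log⁺ |F|` on the circle -/
theorem ray_bound [DecidableEq ι] {α : ι → ℂ} (ha : ∀ i, ‖α i‖ ≠ 1) {L : ℕ} (hL : 1 ≤ L)
    {μ l0 : ℝ} (hμ : 0 < μ) (hl0 : 0 < l0) {S : ℝ} (hS : 0 ≤ S) (θ : ℝ)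
    (hfar : (NZ α (Z (S, θ)) ∧
      gf α (Z (S, θ)) ≤ ep α + 1 / 4 ∧ |Vf α (Z (S, θ))| ≤ 1 / 4 ∧
      1 ≤ L / 8 * S - gf α (Z (S, θ)) ∧
      |psi α (L / 8) (S, θ) * (bf α (Z (S, θ))).re| ≤ (L / 8 : ℝ) / 4) ∧
      |(Pf α L (Z (S, θ))).re| ≤ 1 / 4) :
    Real.posLog ‖∏ i, (1 - α i * Z (0, θ))‖ ≤
      ‖Pf α L (Z (0, θ))‖ + ∫ s in (0:ℝ)..S, Xi α L μ l0 (s, θ) := by
  obtain ⟨⟨e1, _, e3, e4, _⟩, e6⟩ := hfar
  have hz : ‖Z (0, θ)‖ = 1 := by rw [norm_Z]; simp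
  have hn := NZ_circle ha hz
  have hX0 : 0 ≤ ∫ s in (0:ℝ)..S, Xi α L μ l0 (s, θ) :=
    intervalIntegral.integral_nonneg hS fun s _ => Xi_nonneg α L hμ hl0 _
  have hFTC := intervalIntegral.integral_eq_sub_of_hasDerivAt (a := 0) (b := S)
    (f := fun s => Wf α (L / 8) L (s, θ)) (f' := fun s => Wd α (L / 8) L (s, θ))
    (fun s hs => by
      rw [uIcc_of_le hS] at hs
      exact hasDerivAt_Wf ha _ L θ hs.1)
    ((C0_Wd ha _ L).int_s le_rfl hS θ)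
  have hle : ∫ s in (0:ℝ)..S, -Wd α (L / 8) L (s, θ) ≤ ∫ s in (0:ℝ)..S, Xi α L μ l0 (s, θ) := by
    apply intervalIntegral.integral_mono_on_of_le_Ioo hS
    · exact ((C0_Wd ha _ L).int_s le_rfl hS θ).neg
    · exact (C0_Xi ha L μ l0).int_s le_rfl hS θ
    · intro s hs
      exact neg_Wd_le ha hL hμ hl0 (p := (s, θ)) hs.1
  rw [intervalIntegral.integral_neg, hFTC] at hle
  have hW0 : Wf α (L / 8) L (0, θ) = Uf α (Z (0, θ)) + (Pf α L (Z (0, θ))).re := by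
    unfold Wf
    rw [psi_zero ha]
    simp
  have hWS : Wf α (L / 8) L (S, θ) ≤ 0 := by
    unfold Wf
    rw [psi_of e1, hc_of_one_le e4]
    have h1 := gf_eq α (Z (S, θ))
    have h2 := (le_abs_self _).trans e3
    have h3 := (le_abs_self _).trans e6
    simp only
    linarith
  have hU : Uf α (Z (0, θ)) = Vf α (Z (0, θ)) := by
    have h1 := gf_eq α (Z (0, θ))
    rw [gf_circle ha hz] at h1
    linarith
  have hP : -(Pf α L (Z (0, θ))).re ≤ ‖Pf α L (Z (0, θ))‖ := by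
    have := Complex.abs_re_le_norm (Pf α L (Z (0, θ)))
    linarith [neg_abs_le (Pf α L (Z (0, θ))).re]
  have hF : Real.posLog ‖∏ i, (1 - α i * Z (0, θ))‖ = max 0 (Vf α (Z (0, θ))) := by
    rw [norm_prod_eq hn, Real.posLog_apply, Real.log_exp]
  rw [hF]
  apply max_le
  · have := norm_nonneg (Pf α L (Z (0, θ))); linarith
  · rw [hW0] at hle
    linarith

/-- iterated integral -/
def JJ (S : ℝ) (F : ℝ × ℝ → ℝ) : ℝ := ∫ θ in (0:ℝ)..(2 * π), ∫ s in (0:ℝ)..S, F (s, θ)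

lemma JJ_add {S : ℝ} (hS : 0 ≤ S) {F G : ℝ × ℝ → ℝ} (hF : C0 F) (hG : C0 G) :
    JJ S (fun p => F p + G p) = JJ S F + JJ S G := by
  unfold JJ
  rw [← intervalIntegral.integral_add (hF.int_θ_int hS _) (hG.int_θ_int hS _)]
  apply intervalIntegral.integral_congr
  intro θ _
  simp only []
  rw [← intervalIntegral.integral_add (hF.int_s le_rfl hS θ) (hG.int_s le_rfl hS θ)]

lemma JJ_mul (S a : ℝ) (F : ℝ × ℝ → ℝ) : JJ S (fun p => a * F p) = a * JJ S F := by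
  unfold JJ
  rw [← intervalIntegral.integral_const_mul]
  apply intervalIntegral.integral_congr
  intro θ _
  simp only []
  rw [← intervalIntegral.integral_const_mul]

lemma JJ_exp {S : ℝ} {a : ℝ} (ha : 0 < a) :
    JJ S (fun p => Real.exp (-(a * p.1))) ≤ 2 * π * (1 / a) := by
  unfold JJ
  simp only []
  rw [intervalIntegral.integral_const, sub_zero, smul_eq_mul]
  exact mul_le_mul_of_nonneg_left (int_exp_le ha) (by positivity)

lemma JJ_Y [DecidableEq ι] {α : ι → ℂ} (ha : ∀ i, ‖α i‖ ≠ 1) {L : ℕ} (hL : 1 ≤ L) {S : ℝ}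
    (hS : 0 ≤ S) {a : ℝ} (ha0 : 0 < a) :
    JJ S (fun p => Real.exp (-(a * p.1)) * Yf α (Np α L) (Z p)) ≤
      2 * π * ((4 * √(Fintype.card ι) + √(L * (1 + Bq α L))) * (1 / a)) := by
  have hpi : (0:ℝ) ≤ 2 * π := by positivity
  have hC := (C0_exp a).mul (C0_Yf ha (Np α L))
  have hsw := hC.swap hS (2 * π)
  unfold JJ
  simp only [] at hsw ⊢
  rw [← hsw]
  set M := 2 * π * (4 * √(Fintype.card ι) + √(L * (1 + Bq α L))) with hM
  calc ∫ s in (0:ℝ)..S, ∫ θ in (0:ℝ)..(2 * π), Real.exp (-(a * s)) * Yf α (Np α L) (Z (s, θ))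
      ≤ ∫ s in (0:ℝ)..S, M * Real.exp (-(a * s)) := by
        apply intervalIntegral.integral_mono_on hS
        · exact hC.int_s_int hS hpi
        · apply Continuous.intervalIntegrable; fun_prop
        · intro s hs
          rw [intervalIntegral.integral_const_mul, mul_comm]
          apply mul_le_mul_of_nonneg_right _ (Real.exp_pos _).le
          exact (means_P ha (Np α L) hs.1).trans (circle_Y ha hL)
    _ = M * ∫ s in (0:ℝ)..S, Real.exp (-(a * s)) := by rw [intervalIntegral.integral_const_mul]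
    _ ≤ M * (1 / a) := mul_le_mul_of_nonneg_left (int_exp_le ha0) (by positivity)
    _ = _ := by rw [hM]; ring

lemma JJ_p (α : ι → ℂ) (L : ℕ) {S : ℝ} (hS : 0 ≤ S) :
    JJ S (fun p => ‖pf α L (Z p)‖ ^ 2) ≤ 2 * π * (L / 2 * Bq α L ^ 2) := by
  have hsw := (C0_pf α L).swap hS (2 * π)
  unfold JJ
  rw [← hsw, Bq_sq]
  exact pars_p α L hS

lemma numeric {n L B : ℝ} (hL : 1 ≤ L) (hn : L ≤ n) (hB : 0 ≤ B) :
    (1 + B) + ((16 / L) * (L / 8 + n / 2 + (L * (1 + B)) / 2) +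
      (1 / (2 * (L * (1 + B))) + 3 * (√(n + L * B) ^ 2)⁻¹) * (L / 2 * B ^ 2) +
      √(n + L * B) * ((4 * √n + √(L * (1 + B))) * (1 / (3 * L / 16))) +
      3 * (√(n + L * B) ^ 2)⁻¹ * (n ^ 2 / 4) * (1 / (L / 2)) +
      3 * (√(n + L * B) ^ 2)⁻¹ * (L / 8) ^ 2 * (1 / (L / 4))) ≤ 50 * (n / L + B) := by
  have hL0 : 0 < L := by linarith
  have hn0 : 0 < n := by linarith
  have hLB : 0 ≤ L * B := by positivity
  set m := n + L * B with hm
  have hm0 : 0 < m := by positivity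
  have hsq : √m ^ 2 = m := Real.sq_sqrt hm0.le
  rw [hsq]
  have hD : 1 ≤ n / L := by rw [le_div_iff₀ hL0]; linarith
  have hmL : m / L = n / L + B := by rw [hm]; field_simp
  have t1 : (16 / L) * (L / 8 + n / 2 + (L * (1 + B)) / 2) = 10 + 8 * (n / L) + 8 * B := by
    field_simp; ring
  have t2 : 1 / (2 * (L * (1 + B))) * (L / 2 * B ^ 2) ≤ B / 4 := by
    have e : 1 / (2 * (L * (1 + B))) * (L / 2 * B ^ 2) = B ^ 2 / (4 * (1 + B)) := by field_simp; ring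
    rw [e, div_le_div_iff₀ (by positivity) (by norm_num)]; nlinarith
  have t3 : 3 * m⁻¹ * (L / 2 * B ^ 2) ≤ 3 / 2 * B := by
    have e : 3 * m⁻¹ * (L / 2 * B ^ 2) = (3 / 2 * L * B ^ 2) / m := by field_simp
    rw [e, div_le_iff₀ hm0, hm]
    nlinarith
  have s1 : √m * √n ≤ m := by
    rw [← Real.sqrt_mul hm0.le]
    rw [Real.sqrt_le_left hm0.le, hm]
    nlinarith
  have s2 : √m * √(L * (1 + B)) ≤ m := by
    rw [← Real.sqrt_mul hm0.le]
    rw [Real.sqrt_le_left hm0.le]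
    have : L * (1 + B) ≤ m := by rw [hm]; linarith
    nlinarith
  have t4 : √m * ((4 * √n + √(L * (1 + B))) * (1 / (3 * L / 16))) ≤ 80 / 3 * (n / L + B) := by
    have e : √m * ((4 * √n + √(L * (1 + B))) * (1 / (3 * L / 16))) =
        (4 * (√m * √n) + √m * √(L * (1 + B))) * (16 / (3 * L)) := by field_simp
    rw [e, ← hmL]
    have h1 : 4 * (√m * √n) + √m * √(L * (1 + B)) ≤ 5 * m := by linarith
    have h2 := mul_le_mul_of_nonneg_right h1 (by positivity : 0 ≤ 16 / (3 * L))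
    refine h2.trans (le_of_eq ?_)
    field_simp; ring
  have t5 : 3 * m⁻¹ * (n ^ 2 / 4) * (1 / (L / 2)) ≤ 3 / 2 * (n / L) := by
    have e : 3 * m⁻¹ * (n ^ 2 / 4) * (1 / (L / 2)) = 3 / 2 * (n / L) * (n / m) := by field_simp; ring
    rw [e]
    have h1 : n / m ≤ 1 := by rw [div_le_one hm0, hm]; linarith
    have h2 : 0 ≤ 3 / 2 * (n / L) := by positivity
    nlinarith
  have t6 : 3 * m⁻¹ * (L / 8) ^ 2 * (1 / (L / 4)) ≤ 3 / 16 := by
    have e : 3 * m⁻¹ * (L / 8) ^ 2 * (1 / (L / 4)) = 3 / 16 * (L / m) := by field_simp; ring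
    rw [e]
    have h1 : L / m ≤ 1 := by rw [div_le_one hm0, hm]; linarith
    linarith
  rw [t1, add_mul]
  linarith

/-- **The analytic bound**, no zeros on the circle. -/
theorem T_bound {α : ι → ℂ} (ha : ∀ i, ‖α i‖ ≠ 1) {L : ℕ} (hL : 1 ≤ L)
    (hLn : L ≤ Fintype.card ι) (hep : ep α ≤ 1) :
    ∫ θ in (0:ℝ)..(2 * π), Real.posLog ‖∏ i, (1 - α i * circleMap 0 1 θ)‖ ≤
      2 * π * (50 * ((Fintype.card ι : ℝ) / L + Bq α L)) := by
  classical
  have hpi : (0:ℝ) ≤ 2 * π := by positivity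
  have hL0 : (0:ℝ) < L := by exact_mod_cast hL
  set n : ℝ := (Fintype.card ι : ℝ) with hn
  have hLn' : (L:ℝ) ≤ n := by rw [hn]; exact_mod_cast hLn
  set B := Bq α L with hB
  have hB0 : 0 ≤ B := Bq_nonneg α L
  set K : ℝ := (L:ℝ) / 8 with hK
  have hK0 : 0 < K := by positivity
  set μ : ℝ := L * (1 + B) with hμ
  have hμ0 : 0 < μ := by positivity
  set l0 : ℝ := √(n + L * B) with hl0
  have hn0 : 0 < n := by linarith
  have hl00 : 0 < l0 := Real.sqrt_pos.2 (by positivity)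
  obtain ⟨S, hS, hfar⟩ := far' ha hK0 L
  have hZc : Continuous (fun θ : ℝ => Z (0, θ)) := continuous_Z.comp (by fun_prop)
  have hP : Continuous (fun θ : ℝ => ‖Pf α L (Z (0, θ))‖) := ((continuous_Pf α L).comp hZc).norm
  have hXC := C0_Xi ha L μ l0
  -- integrate the pointwise bound
  have step1 : ∫ θ in (0:ℝ)..(2 * π), Real.posLog ‖∏ i, (1 - α i * circleMap 0 1 θ)‖ ≤
      (∫ θ in (0:ℝ)..(2 * π), ‖Pf α L (Z (0, θ))‖) + JJ S (Xi α L μ l0) := by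
    unfold JJ
    rw [← intervalIntegral.integral_add (hP.intervalIntegrable _ _) (hXC.int_θ_int hS _)]
    apply intervalIntegral.integral_mono_on hpi
    · apply Continuous.intervalIntegrable
      have h1 : Continuous (fun θ : ℝ => ∏ i, (1 - α i * circleMap 0 1 θ)) := by
        apply continuous_finsetProd
        intro i _
        have := continuous_circleMap 0 1
        fun_prop
      exact Real.continuous_posLog.comp h1.norm
    · exact (hP.intervalIntegrable _ _).add (hXC.int_θ_int hS _)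
    · intro θ _
      have h := ray_bound ha hL hμ0 hl00 hS θ (hfar θ)
      simpa only [Z_zero] using h
  -- split
  have hc1 : C0 (fun p => 1 - chi α K p) := (C0.const 1).sub (C0_chi ha K)
  have step2 : JJ S (Xi α L μ l0) = (K + n / 2 + μ / 2) * JJ S (fun p => 1 - chi α K p) +
      (1 / (2 * μ) + 3 * (l0 ^ 2)⁻¹) * JJ S (fun p => ‖pf α L (Z p)‖ ^ 2) +
      l0 * JJ S (fun p => Real.exp (-(3 * L / 16 * p.1)) * Yf α (Np α L) (Z p)) +
      3 * (l0 ^ 2)⁻¹ * (n ^ 2 / 4) * JJ S (fun p => Real.exp (-(L / 2 * p.1))) +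
      3 * (l0 ^ 2)⁻¹ * K ^ 2 * JJ S (fun p => Real.exp (-(L / 4 * p.1))) := by
    have e : Xi α L μ l0 = fun p => ((((K + n / 2 + μ / 2) * (1 - chi α K p)) +
      (1 / (2 * μ) + 3 * (l0 ^ 2)⁻¹) * ‖pf α L (Z p)‖ ^ 2) +
      l0 * (Real.exp (-(3 * L / 16 * p.1)) * Yf α (Np α L) (Z p)) +
      3 * (l0 ^ 2)⁻¹ * (n ^ 2 / 4) * Real.exp (-(L / 2 * p.1))) +
      3 * (l0 ^ 2)⁻¹ * K ^ 2 * Real.exp (-(L / 4 * p.1)) := by
      funext p
      unfold Xi
      rw [← hK, ← hn]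
      ring
    have c1 := hc1.const_mul (K + n / 2 + μ / 2)
    have c2 := (C0_pf α L).const_mul (1 / (2 * μ) + 3 * (l0 ^ 2)⁻¹)
    have c3 := ((C0_exp (3 * L / 16)).mul (C0_Yf ha (Np α L))).const_mul l0
    have c4 := (C0_exp (L / 2)).const_mul (3 * (l0 ^ 2)⁻¹ * (n ^ 2 / 4))
    have c5 := (C0_exp (L / 4)).const_mul (3 * (l0 ^ 2)⁻¹ * K ^ 2)
    rw [e, JJ_add hS (((c1.add c2).add c3).add c4) c5, JJ_add hS ((c1.add c2).add c3) c4,
      JJ_add hS (c1.add c2) c3, JJ_add hS c1 c2, JJ_mul, JJ_mul, JJ_mul, JJ_mul, JJ_mul]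
  have a1 : JJ S (fun p => 1 - chi α K p) ≤ 2 * π * (16 / L) := by
    have h := area ha hK0 hS (fun θ => (hfar θ).1)
    refine (show JJ S (fun p => 1 - chi α K p) ≤ _ from h).trans ?_
    apply mul_le_mul_of_nonneg_left _ hpi
    rw [hK, div_le_div_iff₀ (by positivity) hL0]
    nlinarith
  have a2 := JJ_p α L hS
  have a3 := JJ_Y ha hL hS (a := 3 * L / 16) (by positivity)
  have a4 : JJ S (fun p => Real.exp (-(L / 2 * p.1))) ≤ 2 * π * (1 / ((L:ℝ) / 2)) :=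
    JJ_exp (by positivity)
  have a5 : JJ S (fun p => Real.exp (-(L / 4 * p.1))) ≤ 2 * π * (1 / ((L:ℝ) / 4)) :=
    JJ_exp (by positivity)
  have a0 := circle_P α L
  rw [← hn, ← hB] at a3
  rw [← hB] at a2 a0
  have b1 := mul_le_mul_of_nonneg_left a1 (by positivity : 0 ≤ K + n / 2 + μ / 2)
  have b2 := mul_le_mul_of_nonneg_left a2 (by positivity : 0 ≤ 1 / (2 * μ) + 3 * (l0 ^ 2)⁻¹)
  have b3 := mul_le_mul_of_nonneg_left a3 hl00.le
  have b4 := mul_le_mul_of_nonneg_left a4 (by positivity : 0 ≤ 3 * (l0 ^ 2)⁻¹ * (n ^ 2 / 4))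
  have b5 := mul_le_mul_of_nonneg_left a5 (by positivity : 0 ≤ 3 * (l0 ^ 2)⁻¹ * K ^ 2)
  have hnum := numeric (n := n) (L := L) (B := B) (by exact_mod_cast hL) hLn' hB0
  have hnum2 := mul_le_mul_of_nonneg_left hnum hpi
  rw [← hl0, ← hμ, ← hK] at hnum2
  have hfin : 2 * π * ((1 + B) + ((16 / L) * (K + n / 2 + μ / 2) +
      (1 / (2 * μ) + 3 * (l0 ^ 2)⁻¹) * (L / 2 * B ^ 2) +
      l0 * ((4 * √n + √(L * (1 + B))) * (1 / (3 * L / 16))) +
      3 * (l0 ^ 2)⁻¹ * (n ^ 2 / 4) * (1 / (L / 2)) +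
      3 * (l0 ^ 2)⁻¹ * K ^ 2 * (1 / (L / 4)))) =
      2 * π * (1 + B) + ((K + n / 2 + μ / 2) * (2 * π * (16 / L)) +
      (1 / (2 * μ) + 3 * (l0 ^ 2)⁻¹) * (2 * π * (L / 2 * B ^ 2)) +
      l0 * (2 * π * ((4 * √n + √(L * (1 + B))) * (1 / (3 * L / 16)))) +
      3 * (l0 ^ 2)⁻¹ * (n ^ 2 / 4) * (2 * π * (1 / (L / 2))) +
      3 * (l0 ^ 2)⁻¹ * K ^ 2 * (2 * π * (1 / (L / 4)))) := by ring
  rw [← hμ] at hfin
  rw [hfin] at hnum2
  rw [step2] at step1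
  linarith

end

end Pool.Agent.K3h99.Leh
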