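import Mathlib

/-!
Calculus in logarithmic polar coordinates `z = exp (-s + i θ)`.
-/

set_option autoImplicit false

namespace Pool.Agent.K3h99.Leh

open Complex MeasureTheory Metric Set Filter Topology ComplexConjugate

noncomputable section

/-- the point `exp (-s + i θ)` -/
def Z (p : ℝ × ℝ) : ℂ := Complex.exp (-(p.1 : ℂ) + (p.2 : ℂ) * Complex.I)

/-- the linear form `(ds, dθ) ↦ re c ds + im c dθ` -/
def lin (c : ℂ) : ℝ × ℝ →L[ℝ] ℝ :=
  c.re • ContinuousLinearMap.fst ℝ ℝ ℝ + c.im • ContinuousLinearMap.snd ℝ ℝ ℝ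

@[simp] lemma lin_apply (c : ℂ) (v : ℝ × ℝ) : lin c v = c.re * v.1 + c.im * v.2 := by
  simp [lin]

lemma lin_sum {ι : Type*} (s : Finset ι) (c : ι → ℂ) : lin (∑ i ∈ s, c i) = ∑ i ∈ s, lin (c i) := by
  ext <;> simp [Complex.re_sum, Complex.im_sum]

lemma lin_sub (a b : ℂ) : lin (a - b) = lin a - lin b := by
  ext <;> simp

lemma norm_Z (p : ℝ × ℝ) : ‖Z p‖ = Real.exp (-p.1) := by
  unfold Z
  rw [Complex.norm_exp]
  simp

lemma Z_ne (p : ℝ × ℝ) : Z p ≠ 0 := Complex.exp_ne_zero _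

lemma Z_eq (s θ : ℝ) : Z (s, θ) = circleMap 0 (Real.exp (-s)) θ := by
  unfold Z circleMap
  rw [Complex.exp_add]
  push_cast
  simp

lemma Z_zero (θ : ℝ) : Z (0, θ) = circleMap 0 1 θ := by
  rw [Z_eq]; simp

lemma Z_two_pi (s : ℝ) : Z (s, 2 * Real.pi) = Z (s, 0) := by
  unfold Z
  simp only []
  rw [Complex.exp_add]
  push_cast
  rw [Complex.exp_two_pi_mul_I]
  simp

lemma continuous_Z : Continuous Z := by
  unfold Z; fun_prop

/-- the derivative of `Z` -/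
def Zd (p : ℝ × ℝ) : ℝ × ℝ →L[ℝ] ℂ :=
  (ContinuousLinearMap.fst ℝ ℝ ℝ).smulRight (-(Z p)) +
    (ContinuousLinearMap.snd ℝ ℝ ℝ).smulRight (Complex.I * Z p)

lemma hasFDerivAt_Z (p : ℝ × ℝ) : HasFDerivAt Z (Zd p) p := by
  have h1 : HasFDerivAt (fun p : ℝ × ℝ => (-(p.1 : ℂ) + (p.2 : ℂ) * Complex.I))
      (-(Complex.ofRealCLM.comp (ContinuousLinearMap.fst ℝ ℝ ℝ)) +
        (Complex.ofRealCLM.comp (ContinuousLinearMap.snd ℝ ℝ ℝ)).smulRight Complex.I) p := by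
    have e1 : HasFDerivAt (fun p : ℝ × ℝ => (p.1 : ℂ))
        (Complex.ofRealCLM.comp (ContinuousLinearMap.fst ℝ ℝ ℝ)) p :=
      Complex.ofRealCLM.hasFDerivAt.comp p hasFDerivAt_fst
    have e2 : HasFDerivAt (fun p : ℝ × ℝ => (p.2 : ℂ))
        (Complex.ofRealCLM.comp (ContinuousLinearMap.snd ℝ ℝ ℝ)) p :=
      Complex.ofRealCLM.hasFDerivAt.comp p hasFDerivAt_snd
    have e3 := e2.mul_const Complex.I
    refine (e1.neg.add e3).congr_fderiv ?_
    ext <;> simp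
  have h2 := h1.cexp
  refine h2.congr_fderiv ?_
  unfold Zd
  ext <;> simp [Z, mul_comm]

lemma hasFDerivAt_comp_Z {k : ℂ → ℂ} {k' : ℂ} {p : ℝ × ℝ} (h : HasDerivAt k k' (Z p)) :
    HasFDerivAt (fun p => k (Z p)) (k' • Zd p) p := by
  have h1 := (h.hasFDerivAt.restrictScalars ℝ).comp p (hasFDerivAt_Z p)
  refine h1.congr_fderiv ?_
  ext <;> simp [Zd, mul_comm]

lemma hasFDerivAt_re {k : ℂ → ℂ} {k' : ℂ} {p : ℝ × ℝ} (h : HasDerivAt k k' (Z p)) :
    HasFDerivAt (fun p => (k (Z p)).re) (lin (-(Z p * k'))) p := by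
  have h1 := Complex.reCLM.hasFDerivAt.comp p (hasFDerivAt_comp_Z h)
  refine h1.congr_fderiv ?_
  ext
  · simp [Zd]; ring
  · simp [Zd]; ring

lemma hasFDerivAt_im {k : ℂ → ℂ} {k' : ℂ} {p : ℝ × ℝ} (h : HasDerivAt k k' (Z p)) :
    HasFDerivAt (fun p => (k (Z p)).im) (lin (Complex.I * (Z p * k'))) p := by
  have h1 := Complex.imCLM.hasFDerivAt.comp p (hasFDerivAt_comp_Z h)
  refine h1.congr_fderiv ?_
  ext
  · simp [Zd]; ring
  · simp [Zd]; ring

lemma hasFDerivAt_log_norm {k : ℂ → ℂ} {k' : ℂ} {p : ℝ × ℝ} (h : HasDerivAt k k' (Z p))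
    (h0 : k (Z p) ≠ 0) :
    HasFDerivAt (fun p => Real.log ‖k (Z p)‖) (lin (-(Z p * (k' / k (Z p))))) p := by
  set w := k (Z p) with hw
  have hcw : conj w ≠ 0 := by simpa using h0
  have hsl : w * conj w ∈ Complex.slitPlane := by
    rw [Complex.mul_conj]
    left
    rw [Complex.ofReal_re]
    exact Complex.normSq_pos.2 h0
  have h1 : HasDerivAt (fun z => Complex.log (k z * conj w)) (k' * conj w / (w * conj w)) (Z p) := by
    have := (h.mul_const (conj w)).clog (by rw [← hw]; exact hsl)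
    simpa [← hw] using this
  have h2 := hasFDerivAt_re h1
  have e : k' * conj w / (w * conj w) = k' / w := by
    field_simp
  rw [e] at h2
  have h3 : HasFDerivAt (fun p => (Complex.log (k (Z p) * conj w)).re - Real.log ‖conj w‖)
      (lin (-(Z p * (k' / w)))) p := by
    simpa using h2.sub_const (Real.log ‖conj w‖)
  refine h3.congr_of_eventuallyEq ?_
  have hc : ContinuousAt (fun p => k (Z p)) p := (hasFDerivAt_comp_Z h).continuousAt
  filter_upwards [hc.eventually_ne h0] with p' hp'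
  rw [Complex.log_re, norm_mul, Real.log_mul (norm_ne_zero_iff.2 hp') (norm_ne_zero_iff.2 hcw)]
  ring

end

end Pool.Agent.K3h99.Leh
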