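import Pool.Agent.K3h99.Leh.Kol

/-!
The function `Q₃ = z (F'/F + P')` and its half power on the circle.
-/

set_option autoImplicit false

namespace Pool.Agent.K3h99.Leh

open Complex MeasureTheory Metric Set Filter Topology ComplexConjugate InnerProductSpace Real
open Pool.Agent.GapMahler

noncomputable section

variable {ι : Type*} [Fintype ι]

/-- power sums -/
def pk (α : ι → ℂ) (k : ℕ) : ℂ := ∑ i, α i ^ k

def pf (α : ι → ℂ) (L : ℕ) (z : ℂ) : ℂ := ∑ k ∈ Finset.Ico 1 L, pk α k * z ^ k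

def Pf (α : ι → ℂ) (L : ℕ) (z : ℂ) : ℂ := ∑ k ∈ Finset.Ico 1 L, (pk α k / k) * z ^ k

def Q3 (α : ι → ℂ) (L : ℕ) (z : ℂ) : ℂ := pf α L z - ∑ i, q (α i) z

def Np [DecidableEq ι] (α : ι → ℂ) (L : ℕ) : Polynomial ℂ :=
  ∑ i, Polynomial.C (α i ^ L) * ∏ j ∈ Finset.univ.erase i, (1 - Polynomial.C (α j) * Polynomial.X)

lemma q_geom {γ z : ℂ} (h : 1 - γ * z ≠ 0) {L : ℕ} (hL : 1 ≤ L) :
    q γ z - ∑ k ∈ Finset.Ico 1 L, (γ * z) ^ k = (γ * z) ^ L / (1 - γ * z) := by
  have h1 : γ * z ≠ 1 := by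
    intro h'; apply h; rw [h']; ring
  have h2 : γ * z - 1 ≠ 0 := sub_ne_zero.2 h1
  rw [geom_sum_Ico h1 hL]
  unfold q
  rw [pow_one, ← neg_sub (1 : ℂ) (γ * z), div_neg, sub_neg_eq_add, ← add_div]
  congr 1; ring

lemma prod_NZ {α : ι → ℂ} {z : ℂ} (hn : NZ α z) : ∏ i, (1 - α i * z) ≠ 0 :=
  Finset.prod_ne_zero_iff.2 fun i _ => hn i

lemma norm_prod_eq {α : ι → ℂ} {z : ℂ} (hn : NZ α z) :
    ‖∏ i, (1 - α i * z)‖ = Real.exp (Vf α z) := by
  unfold Vf
  rw [norm_prod, Real.exp_sum]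
  apply Finset.prod_congr rfl
  intro i _
  rw [Real.exp_log (norm_pos_iff.2 (hn i))]

lemma Q3_eq [DecidableEq ι] {α : ι → ℂ} {z : ℂ} (hn : NZ α z) {L : ℕ} (hL : 1 ≤ L) :
    Q3 α L z = -(z ^ L * (Np α L).eval z / ∏ i, (1 - α i * z)) := by
  have h1 : Q3 α L z = -∑ i, (α i * z) ^ L / (1 - α i * z) := by
    unfold Q3 pf pk
    have e1 : ∑ k ∈ Finset.Ico 1 L, (∑ i, α i ^ k) * z ^ k =
        ∑ i, ∑ k ∈ Finset.Ico 1 L, (α i * z) ^ k := by
      rw [Finset.sum_comm]
      apply Finset.sum_congr rfl; intro k _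
      rw [Finset.sum_mul]
      apply Finset.sum_congr rfl; intro i _
      rw [mul_pow]
    rw [e1, ← Finset.sum_sub_distrib, ← Finset.sum_neg_distrib]
    apply Finset.sum_congr rfl; intro i _
    rw [← q_geom (hn i) hL]; ring
  rw [h1]
  congr 1
  unfold Np
  rw [Polynomial.eval_finsetSum, Finset.mul_sum, Finset.sum_div]
  apply Finset.sum_congr rfl; intro i _
  rw [Polynomial.eval_mul, Polynomial.eval_C, Polynomial.eval_prod]
  simp only [Polynomial.eval_sub, Polynomial.eval_one, Polynomial.eval_mul, Polynomial.eval_C,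
    Polynomial.eval_X]
  rw [← Finset.mul_prod_erase Finset.univ (fun i => 1 - α i * z) (Finset.mem_univ i)]
  have h2 : ∏ j ∈ Finset.univ.erase i, (1 - α j * z) ≠ 0 :=
    Finset.prod_ne_zero_iff.2 fun j _ => hn j
  have h3 := hn i
  rw [div_eq_div_iff h3 (mul_ne_zero h3 h2)]
  ring

/-- the basic factorisation of `|Q₃| ^ (1/2)` -/
lemma sqrt_Q3 [DecidableEq ι] {α : ι → ℂ} {p : ℝ × ℝ} (hn : NZ α (Z p))
    {L : ℕ} (hL : 1 ≤ L) :
    √‖Q3 α L (Z p)‖ = Real.exp ((gf α (Z p) - L * p.1) / 2) * Yf α (Np α L) (Z p) := by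
  have h1 : ‖Q3 α L (Z p)‖ = Real.exp (gf α (Z p) - L * p.1) *
      (‖(Np α L).eval (Z p)‖ * Real.exp (-Uf α (Z p))) := by
    rw [Q3_eq hn hL, norm_neg, norm_div, norm_mul, norm_pow, norm_Z, norm_prod_eq hn, gf_eq,
      ← Real.exp_nat_mul, div_eq_mul_inv, ← Real.exp_neg]
    have e : Real.exp (Uf α (Z p) - Vf α (Z p) - L * p.1) * Real.exp (-Uf α (Z p)) =
        Real.exp (L * -p.1) * Real.exp (-Vf α (Z p)) := by
      rw [← Real.exp_add, ← Real.exp_add]; congr 1; ring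
    linear_combination (-‖(Np α L).eval (Z p)‖) * e
  have h2 : √(Real.exp (gf α (Z p) - L * p.1)) = Real.exp ((gf α (Z p) - L * p.1) / 2) := by
    rw [Real.sqrt_eq_iff_mul_self_eq (Real.exp_pos _).le (Real.exp_pos _).le, ← Real.exp_add]
    congr 1; ring
  unfold Yf
  rw [h1, Real.sqrt_mul (Real.exp_pos _).le, h2]

omit [Fintype ι] in
lemma NZ_circle {α : ι → ℂ} (ha : ∀ i, ‖α i‖ ≠ 1) {z : ℂ} (hz : ‖z‖ = 1) : NZ α z := by
  intro i h
  rw [sub_eq_zero] at h
  have := congrArg norm h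
  rw [norm_one, norm_mul, hz, mul_one] at this
  exact ha i this.symm

lemma Yf_circle [DecidableEq ι] {α : ι → ℂ} (ha : ∀ i, ‖α i‖ ≠ 1) {L : ℕ} (hL : 1 ≤ L) (θ : ℝ) :
    Yf α (Np α L) (Z (0, θ)) = √‖Q3 α L (Z (0, θ))‖ := by
  have hz : ‖Z (0, θ)‖ = 1 := by rw [norm_Z]; simp
  rw [sqrt_Q3 (NZ_circle ha hz) hL, gf_circle ha hz]
  simp

lemma sqrt_add_le' {x y : ℝ} (hx : 0 ≤ x) (hy : 0 ≤ y) : √(x + y) ≤ √x + √y := by
  rw [Real.sqrt_le_left (by positivity)]
  have h1 := Real.sq_sqrt hx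
  have h2 := Real.sq_sqrt hy
  nlinarith [Real.sqrt_nonneg x, Real.sqrt_nonneg y,
    mul_nonneg (Real.sqrt_nonneg x) (Real.sqrt_nonneg y)]

lemma one_add_two_q {γ z : ℂ} (h : 1 - γ * z ≠ 0) : 1 + 2 * q γ z = (1 + γ * z) / (1 - γ * z) := by
  unfold q
  rw [eq_div_iff h, add_mul, mul_assoc, div_mul_cancel₀ _ h]
  ring

/-- reflection of the Herglotz kernel on the circle -/
lemma refl_kernel {a z : ℂ} (ha : 1 < ‖a‖) (hz : ‖z‖ = 1) :
    (1 + a * z) / (1 - a * z) = -conj ((1 + rf a * z) / (1 - rf a * z)) := by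
  have h0 : a ≠ 0 := by
    rintro rfl; simp at ha; linarith
  have hzz : z * conj z = 1 := by
    rw [Complex.mul_conj, Complex.normSq_eq_norm_sq, hz]; simp
  have hcz : conj z ≠ 0 := by
    intro h; rw [h, mul_zero] at hzz; exact zero_ne_one hzz
  have h1 : 1 - a * z ≠ 0 := by
    intro h
    rw [sub_eq_zero] at h
    have := congrArg norm h
    rw [norm_one, norm_mul, hz, mul_one] at this
    linarith
  unfold rf
  rw [if_neg (not_le.2 ha)]
  simp only [map_div₀, map_add, map_sub, map_one, map_mul, map_inv₀, Complex.conj_conj]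
  have h2 : 1 - a⁻¹ * conj z ≠ 0 := by
    intro h
    apply h1
    have : conj z = a := by
      rw [sub_eq_zero, eq_comm, inv_mul_eq_one₀ h0] at h
      exact h.symm
    rw [← this, mul_comm, hzz, sub_self]
  rw [← neg_div, div_eq_div_iff h1 h2]
  have h3 : a * a⁻¹ = 1 := mul_inv_cancel₀ h0
  linear_combination (-2 * a * a⁻¹) * hzz + (-2 : ℂ) * h3

open Classical in
/-- Kolmogorov for `F'/F` -/
theorem kol_F {α : ι → ℂ} (ha : ∀ i, ‖α i‖ ≠ 1) :
    ∫ θ in (0:ℝ)..(2 * π), √‖∑ i, q (α i) (Z (0, θ))‖ ≤ 2 * π * (4 * √(Fintype.card ι)) := by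
  have hpi : (0:ℝ) ≤ 2 * π := by positivity
  set T1 : Finset ι := Finset.univ.filter (fun i => ‖α i‖ ≤ 1) with hT1
  set T2 : Finset ι := Finset.univ.filter (fun i => ¬ ‖α i‖ ≤ 1) with hT2
  set n : ℝ := (Fintype.card ι : ℝ) with hn
  have hZ0 : ∀ θ, ‖Z (0, θ)‖ = 1 := fun θ => by rw [norm_Z]; simp
  have key : ∀ z : ℂ, ‖z‖ = 1 →
      √‖∑ i, q (α i) z‖ ≤ √n + (√‖Hs α T1 z‖ + √‖Hs α T2 z‖) := by
    intro z hz
    have h1 : (Fintype.card ι : ℂ) + 2 * ∑ i, q (α i) z = Hs α T1 z - conj (Hs α T2 z) := by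
      have e1 : (Fintype.card ι : ℂ) + 2 * ∑ i, q (α i) z = ∑ i, (1 + α i * z) / (1 - α i * z) := by
        have : ∑ i, (1 + α i * z) / (1 - α i * z) = ∑ i, (1 + 2 * q (α i) z) := by
          apply Finset.sum_congr rfl; intro i _
          rw [one_add_two_q (NZ_circle ha hz i)]
        rw [this, Finset.sum_add_distrib, ← Finset.mul_sum]
        simp
      rw [e1, ← Finset.sum_filter_add_sum_filter_not Finset.univ (fun i => ‖α i‖ ≤ 1)]
      rw [sub_eq_add_neg]
      congr 1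
      · unfold Hs
        apply Finset.sum_congr rfl
        intro i hi
        rw [Finset.mem_filter] at hi
        unfold rf
        rw [if_pos hi.2]
      · unfold Hs
        rw [map_sum, ← Finset.sum_neg_distrib]
        apply Finset.sum_congr rfl
        intro i hi
        rw [Finset.mem_filter] at hi
        exact refl_kernel (not_le.1 hi.2) hz
    have h2 : ‖∑ i, q (α i) z‖ ≤ n + (‖Hs α T1 z‖ + ‖Hs α T2 z‖) := by
      have e2 : 2 * ∑ i, q (α i) z = (Hs α T1 z - conj (Hs α T2 z)) - (Fintype.card ι : ℂ) := by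
        rw [← h1]; ring
      have e3 := congrArg norm e2
      rw [norm_mul] at e3
      have e4 : ‖(Hs α T1 z - conj (Hs α T2 z)) - (Fintype.card ι : ℂ)‖ ≤
          (‖Hs α T1 z‖ + ‖Hs α T2 z‖) + n := by
        refine (norm_sub_le _ _).trans ?_
        rw [Complex.norm_natCast]
        have := norm_sub_le (Hs α T1 z) (conj (Hs α T2 z))
        rw [Complex.norm_conj] at this
        linarith
      have e5 : ‖(2:ℂ)‖ = 2 := by simp
      rw [e5] at e3
      have : 0 ≤ n := by positivity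
      have := norm_nonneg (Hs α T1 z)
      have := norm_nonneg (Hs α T2 z)
      linarith
    refine (Real.sqrt_le_sqrt h2).trans ?_
    refine (sqrt_add_le' (by positivity) (by positivity)).trans ?_
    exact add_le_add le_rfl (sqrt_add_le' (norm_nonneg _) (norm_nonneg _))
  have hZc : Continuous (fun θ : ℝ => Z (0, θ)) := continuous_Z.comp (by fun_prop)
  have hHZ : ∀ T : Finset ι, Continuous (fun θ : ℝ => √‖Hs α T (Z (0, θ))‖) := by
    intro T
    have hHc : ContinuousOn (Hs α T) (closedBall 0 1) := fun z hz =>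
      (differentiableAt_Hs ha T (by simpa using hz)).continuousAt.continuousWithinAt
    exact (hHc.comp_continuous hZc (fun θ => by simpa using (hZ0 θ).le)).norm.sqrt
  have hq : Continuous (fun θ : ℝ => √‖∑ i, q (α i) (Z (0, θ))‖) := by
    apply Continuous.sqrt
    apply Continuous.norm
    apply continuous_finsetSum
    intro i _
    unfold q
    apply Continuous.div
    · fun_prop
    · fun_prop
    · intro θ; exact NZ_circle ha (hZ0 θ) i
  have hc1 := kol ha T1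
  have hc2 := kol ha T2
  have hle : ∀ T : Finset ι, √(T.card : ℝ) ≤ √n := fun T =>
    Real.sqrt_le_sqrt (by rw [hn]; exact_mod_cast Finset.card_le_univ T)
  calc ∫ θ in (0:ℝ)..(2 * π), √‖∑ i, q (α i) (Z (0, θ))‖
      ≤ ∫ θ in (0:ℝ)..(2 * π), (√n + (√‖Hs α T1 (Z (0, θ))‖ + √‖Hs α T2 (Z (0, θ))‖)) := by
        apply intervalIntegral.integral_mono_on hpi (hq.intervalIntegrable _ _)
        · exact (continuous_const.add ((hHZ T1).add (hHZ T2))).intervalIntegrable _ _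
        · intro θ _; exact key _ (hZ0 θ)
    _ = 2 * π * √n + ((∫ θ in (0:ℝ)..(2 * π), √‖Hs α T1 (Z (0, θ))‖) +
          (∫ θ in (0:ℝ)..(2 * π), √‖Hs α T2 (Z (0, θ))‖)) := by
        have i1 := intervalIntegral.integral_add (μ := volume) (a := 0) (b := 2 * π)
          (f := fun _ : ℝ => √n)
          (g := fun θ => √‖Hs α T1 (Z (0, θ))‖ + √‖Hs α T2 (Z (0, θ))‖) (by simp)
          (((hHZ T1).add (hHZ T2)).intervalIntegrable _ _)
        have i2 := intervalIntegral.integral_add (μ := volume) (a := 0) (b := 2 * π)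
          ((hHZ T1).intervalIntegrable _ _) ((hHZ T2).intervalIntegrable _ _)
        rw [i1, i2]
        simp
    _ ≤ 2 * π * √n + (2 * π * (√2 * √n) + 2 * π * (√2 * √n)) := by
        have a1 := hc1.trans (mul_le_mul_of_nonneg_left
          (mul_le_mul_of_nonneg_left (hle T1) (Real.sqrt_nonneg 2)) hpi)
        have a2 := hc2.trans (mul_le_mul_of_nonneg_left
          (mul_le_mul_of_nonneg_left (hle T2) (Real.sqrt_nonneg 2)) hpi)
        linarith
    _ ≤ 2 * π * (4 * √n) := by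
        have h2 : √2 ≤ 3 / 2 := by
          rw [Real.sqrt_le_left (by norm_num)]; norm_num
        have h3 : √2 * √n ≤ 3 / 2 * √n := mul_le_mul_of_nonneg_right h2 (Real.sqrt_nonneg _)
        have h4 : 2 * π * (√2 * √n) ≤ 2 * π * (3 / 2 * √n) := mul_le_mul_of_nonneg_left h3 hpi
        linarith

end

end Pool.Agent.K3h99.Leh
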