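import Mathlib

/-!
A `C¹` cut-off function.
-/

set_option autoImplicit false

namespace Pool.Agent.K3h99.Leh

open MeasureTheory Metric Set Filter Topology

noncomputable section

/-- the cut-off: `0` for `t ≤ 0`, `t - 1/2` for `t ≥ 1`, and `t ^ 2 / 2` in between -/
def hc (t : ℝ) : ℝ := (max t 0) ^ 2 / 2 - (max (t - 1) 0) ^ 2 / 2

/-- its derivative -/
def hd (t : ℝ) : ℝ := max t 0 - max (t - 1) 0

lemma hasDerivAt_maxsq (t : ℝ) : HasDerivAt (fun t : ℝ => (max t 0) ^ 2 / 2) (max t 0) t := by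
  rw [hasDerivAt_iff_isLittleO]
  refine Asymptotics.IsBigO.trans_isLittleO ?_ (Asymptotics.isLittleO_pow_sub_sub t one_lt_two)
  refine Asymptotics.IsBigO.of_bound 1 (Filter.Eventually.of_forall fun y => ?_)
  rw [Real.norm_eq_abs, Real.norm_eq_abs, abs_of_nonneg (by positivity : (0:ℝ) ≤ ‖y - t‖ ^ 2),
    Real.norm_eq_abs, sq_abs, smul_eq_mul, one_mul]
  rcases le_total y 0 with h1 | h1 <;> rcases le_total t 0 with h2 | h2
  · rw [max_eq_right h1, max_eq_right h2]; simp; positivity
  · rw [max_eq_right h1, max_eq_left h2, abs_le]; constructor <;> nlinarith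
  · rw [max_eq_left h1, max_eq_right h2, abs_le]; constructor <;> nlinarith
  · rw [max_eq_left h1, max_eq_left h2, abs_le]; constructor <;> nlinarith

lemma hasDerivAt_hc (t : ℝ) : HasDerivAt hc (hd t) t := by
  have h1 := hasDerivAt_maxsq t
  have h2 : HasDerivAt (fun t : ℝ => (max (t - 1) 0) ^ 2 / 2) (max (t - 1) 0) t := by
    have h3 : HasDerivAt (fun t : ℝ => t - 1) 1 t := (hasDerivAt_id t).sub_const 1
    have h4 := (hasDerivAt_maxsq (t - 1)).comp t h3
    simpa [Function.comp_def] using h4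
  exact h1.sub h2

lemma continuous_hd : Continuous hd := by
  unfold hd; fun_prop

lemma continuous_hc : Continuous hc := by
  unfold hc; fun_prop

lemma hd_nonneg (t : ℝ) : 0 ≤ hd t := by
  unfold hd
  have : max (t - 1) 0 ≤ max t 0 := max_le_max (by linarith) le_rfl
  linarith

lemma hd_le_one (t : ℝ) : hd t ≤ 1 := by
  unfold hd
  rcases le_total t 0 with h | h
  · rw [max_eq_right h, max_eq_right (by linarith)]; norm_num
  · rw [max_eq_left h]
    have := le_max_left (t - 1) 0
    linarith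

lemma hd_of_nonpos {t : ℝ} (h : t ≤ 0) : hd t = 0 := by
  unfold hd
  rw [max_eq_right h, max_eq_right (by linarith)]; norm_num

lemma hc_of_nonpos {t : ℝ} (h : t ≤ 0) : hc t = 0 := by
  unfold hc
  rw [max_eq_right h, max_eq_right (by linarith)]; norm_num

lemma hc_of_one_le {t : ℝ} (h : 1 ≤ t) : hc t = t - 1 / 2 := by
  unfold hc
  rw [max_eq_left (by linarith), max_eq_left (by linarith)]; ring

end

end Pool.Agent.K3h99.Leh
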