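import Pool.Agent.K3h99.Leh.Newton
import Pool.Agent.Results.MP_7ab245_nt.LogPlusMean
import Pool.Agent.H261R2.CM.L2

/-!
The bounds for the Mahler measure.
-/

set_option autoImplicit false

namespace Pool.Agent.K3h99.Leh

open MeasureTheory Metric Set Filter Topology Real
open Polynomial

noncomputable section

/-- complexification -/
def cx (f : ℤ[X]) : ℂ[X] := f.map (Int.castRingHom ℂ)

/-- the quantity `n / L + B` -/
def sz (F : ℂ[X]) (L : ℕ) : ℝ := (F.natDegree : ℝ) / L + Bn F L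

/-- mean of `log⁺ |f|` -/
def TT (f : ℤ[X]) : ℝ := Real.circleAverage (fun z => Real.posLog ‖(cx f).eval z‖) 0 1

lemma TT_nonneg (f : ℤ[X]) : 0 ≤ TT f :=
  Real.circleAverage_nonneg_of_nonneg fun _ _ => Real.posLog_nonneg

lemma cx_ne {f : ℤ[X]} (hf : f ≠ 0) : cx f ≠ 0 := by
  unfold cx
  exact (Polynomial.map_ne_zero_iff (RingHom.injective_int (Int.castRingHom ℂ))).2 hf

lemma lc_of_lt_two {f : ℤ[X]} (hf : f ≠ 0) (hM : (cx f).mahlerMeasure < 2) :
    ‖(cx f).leadingCoeff‖ = 1 := by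
  have h1 := leadingCoeff_le_mahlerMeasure (cx f)
  have h2 : (cx f).leadingCoeff = (f.leadingCoeff : ℂ) := by
    unfold cx
    rw [leadingCoeff_map_of_injective (RingHom.injective_int (Int.castRingHom ℂ))]; simp
  rw [h2] at h1 ⊢
  rw [Complex.norm_intCast] at h1 ⊢
  have h3 : f.leadingCoeff ≠ 0 := leadingCoeff_ne_zero.2 hf
  have h4 : (|f.leadingCoeff| : ℝ) < 2 := lt_of_le_of_lt h1 hM
  have h5 : |f.leadingCoeff| < 2 := by exact_mod_cast h4
  have h6 : 0 < |f.leadingCoeff| := abs_pos.2 h3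
  have h7 : |f.leadingCoeff| = 1 := by omega
  exact_mod_cast h7

lemma sz_ge {F : ℂ[X]} {L : ℕ} (hL : 1 ≤ L) (hLn : L ≤ F.natDegree) : 1 ≤ sz F L := by
  unfold sz
  have hL0 : (0:ℝ) < L := by exact_mod_cast hL
  have h1 : (1:ℝ) ≤ (F.natDegree : ℝ) / L := by
    rw [le_div_iff₀ hL0, one_mul]; exact_mod_cast hLn
  have h2 : 0 ≤ Bn F L := Real.sqrt_nonneg _
  linarith

lemma TT_le {f : ℤ[X]} (hf : f ≠ 0) (hM : (cx f).mahlerMeasure < 2) {L : ℕ} (hL : 1 ≤ L)
    (hLn : L ≤ (cx f).natDegree) : TT f ≤ 50 * sz (cx f) L :=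
  T_poly (cx f) (lc_of_lt_two hf hM) hM hL hLn

/-- the irreducible case -/
theorem irr_bound : ∃ c : ℝ, 0 < c ∧ ∀ f : ℤ[X], Irreducible f → 1 < (cx f).mahlerMeasure →
    ∀ L : ℕ, 1 ≤ L → L ≤ (cx f).natDegree →
      Real.exp (c / sz (cx f) L ^ 3) ≤ (cx f).mahlerMeasure := by
  obtain ⟨c0, hc0, h0⟩ := Pool.Agent.Results.MP_7ab245_nt.LogPlusMean.result
  refine ⟨min (c0 / 51 ^ 3) (Real.log 2), lt_min (by positivity) (Real.log_pos (by norm_num)), ?_⟩
  intro f hf hM L hL hLn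
  have hs := sz_ge hL hLn
  have hs0 : 0 < sz (cx f) L := by linarith
  have hc := h0 f hf hM
  have e1 : Real.circleAverage (fun z : ℂ => Real.posLog ‖aeval z f‖) 0 1 = TT f := by
    unfold TT cx
    congr 1
    funext z
    rw [aeval_def, eval_map]
    rfl
  rw [e1] at hc
  rcases lt_or_ge (cx f).mahlerMeasure 2 with h2 | h2
  · refine le_trans (Real.exp_le_exp.2 ?_) hc
    have hT := TT_le hf.ne_zero h2 hL hLn
    have hT0 := TT_nonneg f
    have h3 : 1 + TT f ≤ 51 * sz (cx f) L := by linarith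
    calc min (c0 / 51 ^ 3) (Real.log 2) / sz (cx f) L ^ 3 ≤ (c0 / 51 ^ 3) / sz (cx f) L ^ 3 :=
          div_le_div_of_nonneg_right (min_le_left _ _) (by positivity)
      _ = c0 / (51 * sz (cx f) L) ^ 3 := by rw [mul_pow, div_div]
      _ ≤ c0 / (1 + TT f) ^ 3 := by
          apply div_le_div_of_nonneg_left hc0.le (by positivity)
          exact pow_le_pow_left₀ (by positivity) h3 3
  · refine le_trans ?_ h2
    rw [← Real.le_log_iff_exp_le (by norm_num)]
    refine le_trans (div_le_self ?_ (one_le_pow₀ hs)) (min_le_right _ _)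
    exact (lt_min (by positivity) (Real.log_pos (by norm_num))).le

lemma mx1_eq (f : ℤ[X]) : Pool.Agent.H261R2.CM.mx1 f 1 = TT f := by
  unfold Pool.Agent.H261R2.CM.mx1 TT Real.circleAverage
  have h1 : ∀ t : ℝ, Real.log (max ‖Pool.Agent.H261R2.CM.ev1 f t‖ ‖Pool.Agent.H261R2.CM.ev1 1 t‖) =
      Real.posLog ‖(cx f).eval (circleMap 0 1 (2 * π * t))‖ := by
    intro t
    rw [Pool.Agent.H261R2.CM.ev1_one, norm_one, Real.posLog_eq_log_max_one (norm_nonneg _), max_comm]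
    congr 3
    unfold Pool.Agent.H261R2.CM.ev1 Pool.Agent.H261R2.CM.toC cx Pool.Agent.H261R2.CM.ez circleMap
    congr 1
    simp only [Complex.ofReal_one, one_mul, zero_add]
    congr 1
    push_cast; ring
  simp only [h1]
  rw [intervalIntegral.integral_comp_mul_left
    (fun θ => Real.posLog ‖(cx f).eval (circleMap 0 1 θ)‖) (by positivity)]
  simp

/-- the general case -/
theorem red_bound (Δ : ℝ) : ∃ μ : ℝ, 1 < μ ∧ ∀ f : ℤ[X], f ≠ 0 →
    ∀ L : ℕ, 1 ≤ L → L ≤ (cx f).natDegree → sz (cx f) L ≤ Δ →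
      (cx f).mahlerMeasure = 1 ∨ μ ≤ (cx f).mahlerMeasure := by
  obtain ⟨c, hc, h⟩ := Pool.Agent.H261R2.CM.gap_logplus (50 * Δ)
  refine ⟨min c 2, lt_min hc (by norm_num), ?_⟩
  intro f hf L hL hLn hs
  rcases lt_or_ge (cx f).mahlerMeasure 2 with h2 | h2
  · have hT := TT_le hf h2 hL hLn
    have h3 := h f hf (by rw [mx1_eq]; linarith)
    rcases h3 with h4 | h4
    · exact Or.inl h4
    · exact Or.inr ((min_le_left _ _).trans h4)
  · exact Or.inr ((min_le_right _ _).trans h2)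

lemma sz_top (F g : ℂ[X]) (hg : g.Monic) (hgr : ∀ a ∈ g.roots, ‖a‖ ≤ 1) {L : ℕ} (hL : 1 ≤ L)
    (hLn : L ≤ F.natDegree) (hd : g.natDegree ≤ F.natDegree)
    (h : (F - X ^ (F.natDegree - g.natDegree) * g).natDegree ≤ F.natDegree - L) :
    sz F L ≤ 2 * ((F.natDegree : ℝ) / L + g.natDegree) := by
  have h1 := (Bn_top F g hg hgr hL hLn hd h).2
  have h2 : 0 ≤ (F.natDegree : ℝ) / L := by positivity
  unfold sz
  linarith

end

end Pool.Agent.K3h99.Leh
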