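import Pool.Agent.K3h99.Leh.Basic
import Pool.Agent.K3h99.Leh.Cut

/-!
The functions `V = log |F|`, `U` (zeros reflected out of the disc) and `g = U - V` for
`F z = ∏ (1 - α i z)`.
-/

set_option autoImplicit false

namespace Pool.Agent.K3h99.Leh

open Complex MeasureTheory Metric Set Filter Topology ComplexConjugate

noncomputable section

variable {ι : Type*} [Fintype ι]

def q (γ z : ℂ) : ℂ := γ * z / (1 - γ * z)

def rf (a : ℂ) : ℂ := if ‖a‖ ≤ 1 then a else (conj a)⁻¹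

/-- one term of the Green potential -/
def g1 (a z : ℂ) : ℝ := Real.log ‖1 - rf a * z‖ + Real.posLog ‖a‖ - Real.log ‖1 - a * z‖

def Vf (α : ι → ℂ) (z : ℂ) : ℝ := ∑ i, Real.log ‖1 - α i * z‖
def Uf (α : ι → ℂ) (z : ℂ) : ℝ := ∑ i, (Real.log ‖1 - rf (α i) * z‖ + Real.posLog ‖α i‖)
def gf (α : ι → ℂ) (z : ℂ) : ℝ := ∑ i, g1 (α i) z
def bf (α : ι → ℂ) (z : ℂ) : ℂ := ∑ i, (q (rf (α i)) z - q (α i) z)

def NZ (α : ι → ℂ) (z : ℂ) : Prop := ∀ i, 1 - α i * z ≠ 0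

lemma gf_eq (α : ι → ℂ) (z : ℂ) : gf α z = Uf α z - Vf α z := by
  unfold gf Uf Vf g1
  rw [← Finset.sum_sub_distrib]

lemma norm_rf_le (a : ℂ) : ‖rf a‖ ≤ 1 := by
  unfold rf
  split_ifs with h
  · exact h
  · push Not at h
    rw [norm_inv, Complex.norm_conj]
    exact inv_le_one_of_one_le₀ h.le

lemma norm_rf_lt {a : ℂ} (ha : ‖a‖ ≠ 1) : ‖rf a‖ < 1 := by
  unfold rf
  split_ifs with h
  · exact lt_of_le_of_ne h ha
  · push Not at h
    rw [norm_inv, Complex.norm_conj]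
    exact inv_lt_one_of_one_lt₀ h

lemma one_sub_rf_ne {a z : ℂ} (ha : ‖a‖ ≠ 1) (hz : ‖z‖ ≤ 1) : 1 - rf a * z ≠ 0 := by
  intro h
  rw [sub_eq_zero] at h
  have h1 := congrArg norm h
  rw [norm_one, norm_mul] at h1
  have h2 := norm_rf_lt ha
  nlinarith [norm_nonneg (rf a), norm_nonneg z]

lemma refl_id (a z : ℂ) : ‖z - conj a‖ ^ 2 - ‖1 - a * z‖ ^ 2 = (‖a‖ ^ 2 - 1) * (1 - ‖z‖ ^ 2) := by
  rw [← Complex.normSq_eq_norm_sq, ← Complex.normSq_eq_norm_sq, ← Complex.normSq_eq_norm_sq,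
    ← Complex.normSq_eq_norm_sq]
  simp only [Complex.normSq_apply, Complex.sub_re, Complex.sub_im, Complex.mul_re, Complex.mul_im,
    Complex.one_re, Complex.one_im, Complex.conj_re, Complex.conj_im]
  ring

/-- for `|a| > 1` -/
lemma norm_one_sub_rf {a : ℂ} (ha : 1 < ‖a‖) (z : ℂ) : ‖a‖ * ‖1 - rf a * z‖ = ‖z - conj a‖ := by
  have h0 : conj a ≠ 0 := by
    intro h
    have : ‖conj a‖ = 0 := by rw [h, norm_zero]
    rw [Complex.norm_conj] at this; linarith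
  unfold rf
  rw [if_neg (not_le.2 ha), ← Complex.norm_conj a, ← norm_mul, mul_sub, mul_one, ← mul_assoc,
    mul_inv_cancel₀ h0, one_mul, norm_sub_rev]

lemma g1_of_le {a : ℂ} (ha : ‖a‖ ≤ 1) (z : ℂ) : g1 a z = 0 := by
  unfold g1 rf
  rw [if_pos ha, (Real.posLog_eq_zero_iff _).2 (by rwa [abs_of_nonneg (norm_nonneg a)])]
  ring

lemma z_sub_ne {a z : ℂ} (ha : 1 < ‖a‖) (hz : ‖z‖ ≤ 1) : 0 < ‖z - conj a‖ := by
  have h1 : ‖conj a‖ ≤ ‖z - conj a‖ + ‖z‖ := by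
    have := norm_sub_le z (z - conj a)
    rw [sub_sub_cancel] at this
    linarith
  rw [Complex.norm_conj] at h1
  linarith

lemma g1_of_gt {a z : ℂ} (ha : 1 < ‖a‖) (hz : ‖z‖ ≤ 1) (hn : 1 - a * z ≠ 0) :
    g1 a z = Real.log (‖z - conj a‖ / ‖1 - a * z‖) := by
  unfold g1
  have h1 : 0 < ‖1 - rf a * z‖ := norm_pos_iff.2 (one_sub_rf_ne ha.ne' hz)
  rw [Real.posLog_eq_log (by rw [abs_of_nonneg (norm_nonneg a)]; exact ha.le),
    Real.log_div (z_sub_ne ha hz).ne' (norm_ne_zero_iff.2 hn), ← norm_one_sub_rf ha,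
    Real.log_mul (by linarith) h1.ne']
  ring

lemma norm_le_refl {a z : ℂ} (ha : 1 < ‖a‖) (hz : ‖z‖ ≤ 1) : ‖1 - a * z‖ ≤ ‖z - conj a‖ := by
  have h := refl_id a z
  have h2 : 0 ≤ (‖a‖ ^ 2 - 1) * (1 - ‖z‖ ^ 2) := by
    apply mul_nonneg
    · nlinarith
    · nlinarith [norm_nonneg z]
  exact le_of_sq_le_sq (by linarith) (norm_nonneg _)

lemma g1_nonneg {a z : ℂ} (hz : ‖z‖ ≤ 1) (hn : 1 - a * z ≠ 0) : 0 ≤ g1 a z := by
  rcases le_or_gt ‖a‖ 1 with ha | ha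
  · rw [g1_of_le ha]
  · rw [g1_of_gt ha hz hn]
    apply Real.log_nonneg
    rw [le_div_iff₀ (norm_pos_iff.2 hn), one_mul]
    exact norm_le_refl ha hz

lemma g1_circle {a z : ℂ} (ha : ‖a‖ ≠ 1) (hz : ‖z‖ = 1) : g1 a z = 0 := by
  rcases le_or_gt ‖a‖ 1 with ha | ha
  · rw [g1_of_le ha]
  · have hn : 1 - a * z ≠ 0 := by
      intro h
      rw [sub_eq_zero] at h
      have h1 := congrArg norm h
      rw [norm_one, norm_mul, hz] at h1
      linarith
    rw [g1_of_gt ha hz.le hn]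
    have h := refl_id a z
    rw [hz] at h
    have h2 : ‖z - conj a‖ = ‖1 - a * z‖ :=
      (sq_eq_sq₀ (norm_nonneg _) (norm_nonneg _)).1 (by linarith)
    rw [h2, div_self (norm_ne_zero_iff.2 hn), Real.log_one]

lemma gf_nonneg {α : ι → ℂ} {z : ℂ} (hz : ‖z‖ ≤ 1) (hn : NZ α z) : 0 ≤ gf α z :=
  Finset.sum_nonneg fun i _ => g1_nonneg hz (hn i)

lemma gf_circle {α : ι → ℂ} {z : ℂ} (ha : ∀ i, ‖α i‖ ≠ 1) (hz : ‖z‖ = 1) : gf α z = 0 :=
  Finset.sum_eq_zero fun i _ => g1_circle (ha i) hz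

/-- the hyperbolic gradient of one Green function -/
lemma norm_q_sub {a z : ℂ} (s : ℝ) (hs : 0 < s) (hz : ‖z‖ = Real.exp (-s)) (hn : 1 - a * z ≠ 0) :
    ‖q (rf a) z - q a z‖ * Real.sinh s = Real.sinh (g1 a z) := by
  rcases le_or_gt ‖a‖ 1 with ha | ha
  · rw [g1_of_le ha, Real.sinh_zero]
    unfold rf; rw [if_pos ha]; simp
  · have hz1 : ‖z‖ ≤ 1 := by rw [hz]; exact Real.exp_le_one_iff.2 (by linarith)
    have hz0 : 0 < ‖z‖ := by rw [hz]; exact Real.exp_pos _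
    have hX := z_sub_ne ha hz1
    have hY : 0 < ‖1 - a * z‖ := norm_pos_iff.2 hn
    have hW := one_sub_rf_ne ha.ne' hz1
    rw [g1_of_gt ha hz1 hn, Real.sinh_log (by positivity), Real.sinh_eq, Real.exp_neg]
    have hes : Real.exp s = ‖z‖⁻¹ := by rw [hz, Real.exp_neg, inv_inv]
    rw [hes, inv_inv]
    have e1 : q (rf a) z - q a z = (rf a - a) * z / ((1 - rf a * z) * (1 - a * z)) := by
      unfold q
      rw [div_sub_div _ _ hW hn]
      congr 1
      ring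
    have e2 : ‖a‖ * ‖rf a - a‖ = ‖a‖ ^ 2 - 1 := by
      have h0 : conj a ≠ 0 := by
        intro h
        have : ‖conj a‖ = 0 := by rw [h, norm_zero]
        rw [Complex.norm_conj] at this; linarith
      unfold rf
      rw [if_neg (not_le.2 ha)]
      have h1 : ‖a‖ * ‖(conj a)⁻¹ - a‖ = ‖conj a * ((conj a)⁻¹ - a)‖ := by
        rw [norm_mul, Complex.norm_conj]
      rw [h1, mul_sub, mul_inv_cancel₀ h0, mul_comm (conj a) a, Complex.mul_conj,
        Complex.normSq_eq_norm_sq]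
      have h2 : (1 : ℂ) - ((‖a‖ ^ 2 : ℝ) : ℂ) = ((1 - ‖a‖ ^ 2 : ℝ) : ℂ) := by push_cast; ring
      rw [h2, Complex.norm_real, Real.norm_eq_abs, abs_of_nonpos (by nlinarith)]
      ring
    have e3 := norm_one_sub_rf ha z
    have hid := refl_id a z
    rw [e1, norm_div, norm_mul, norm_mul]
    have ha0 : 0 < ‖a‖ := by linarith
    have hW' : 0 < ‖1 - rf a * z‖ := norm_pos_iff.2 hW
    have e4 : ‖1 - rf a * z‖ = ‖z - conj a‖ / ‖a‖ := by
      rw [eq_div_iff ha0.ne', mul_comm]; exact e3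
    have e5 : ‖rf a - a‖ = (‖a‖ ^ 2 - 1) / ‖a‖ := by
      rw [eq_div_iff ha0.ne', mul_comm]; exact e2
    rw [e4, e5]
    generalize ‖z - conj a‖ = X at *
    generalize ‖1 - a * z‖ = Y at *
    generalize ‖a‖ = A at *
    generalize ‖z‖ = r at *
    field_simp
    linarith

lemma sinh_add_le {x y : ℝ} (hx : 0 ≤ x) (hy : 0 ≤ y) : Real.sinh x + Real.sinh y ≤ Real.sinh (x + y) := by
  rw [Real.sinh_add]
  have h1 := Real.one_le_cosh x
  have h2 := Real.one_le_cosh y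
  have h3 := Real.sinh_nonneg_iff.2 hx
  have h4 := Real.sinh_nonneg_iff.2 hy
  nlinarith

lemma sum_sinh_le {κ : Type*} (s : Finset κ) (x : κ → ℝ) (hx : ∀ i ∈ s, 0 ≤ x i) :
    ∑ i ∈ s, Real.sinh (x i) ≤ Real.sinh (∑ i ∈ s, x i) := by
  classical
  induction s using Finset.induction_on with
  | empty => simp
  | insert a s ha ih =>
    rw [Finset.sum_insert ha, Finset.sum_insert ha]
    have h1 := ih fun i hi => hx i (Finset.mem_insert_of_mem hi)
    have h2 := sinh_add_le (hx a (Finset.mem_insert_self a s))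
      (Finset.sum_nonneg fun i hi => hx i (Finset.mem_insert_of_mem hi))
    linarith

lemma norm_bf_le {α : ι → ℂ} {z : ℂ} (s : ℝ) (hs : 0 < s) (hz : ‖z‖ = Real.exp (-s))
    (hn : NZ α z) : ‖bf α z‖ * Real.sinh s ≤ Real.sinh (gf α z) := by
  have hz1 : ‖z‖ ≤ 1 := by rw [hz]; exact Real.exp_le_one_iff.2 (by linarith)
  have hs0 : 0 ≤ Real.sinh s := Real.sinh_nonneg_iff.2 hs.le
  calc ‖bf α z‖ * Real.sinh s ≤ (∑ i, ‖q (rf (α i)) z - q (α i) z‖) * Real.sinh s :=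
        mul_le_mul_of_nonneg_right (norm_sum_le _ _) hs0
    _ = ∑ i, Real.sinh (g1 (α i) z) := by
        rw [Finset.sum_mul]
        exact Finset.sum_congr rfl fun i _ => norm_q_sub s hs hz (hn i)
    _ ≤ _ := sum_sinh_le _ _ fun i _ => g1_nonneg hz1 (hn i)

/-- on the set where `g < K s` the gradient of `g` is at most `K exp (K s)` -/
lemma norm_bf_le' {α : ι → ℂ} {z : ℂ} (s K : ℝ) (hs : 0 < s) (hK : 0 ≤ K) (hz : ‖z‖ = Real.exp (-s))
    (hn : NZ α z) (hg : gf α z ≤ K * s) : ‖bf α z‖ ≤ K * Real.exp (K * s) := by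
  have h1 := norm_bf_le s hs hz hn
  have h2 : Real.sinh (gf α z) ≤ Real.sinh (K * s) := Real.sinh_le_sinh.2 hg
  have h3 : s ≤ Real.sinh s := Real.self_le_sinh_iff.2 hs.le
  have hKs : 0 ≤ K * s := by positivity
  have h4 : Real.sinh (K * s) ≤ K * s * Real.exp (K * s) := by
    rw [Real.sinh_eq]
    have e1 : 1 - 2 * (K * s) ≤ Real.exp (-(K * s)) * Real.exp (-(K * s)) := by
      rw [← Real.exp_add]
      have := Real.add_one_le_exp (-(K * s) + -(K * s))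
      linarith
    have e2 : Real.exp (-(K * s)) * Real.exp (K * s) = 1 := by
      rw [← Real.exp_add]; simp
    have e3 : 0 < Real.exp (K * s) := Real.exp_pos _
    have e4 : 0 < Real.exp (-(K * s)) := Real.exp_pos _
    nlinarith
  have h5 : ‖bf α z‖ * s ≤ K * Real.exp (K * s) * s := by
    calc ‖bf α z‖ * s ≤ ‖bf α z‖ * Real.sinh s := mul_le_mul_of_nonneg_left h3 (norm_nonneg _)
      _ ≤ K * s * Real.exp (K * s) := h1.trans (h2.trans h4)
      _ = _ := by ring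
  exact le_of_mul_le_mul_right h5 hs

end

end Pool.Agent.K3h99.Leh
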