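import Pool.Agent.K3h99.Leh.Means2

/-!
Kolmogorov's inequality for the logarithmic derivative, exponent `1/2`.
-/

set_option autoImplicit false

namespace Pool.Agent.K3h99.Leh

open Complex MeasureTheory Metric Set Filter Topology ComplexConjugate InnerProductSpace Real
open Pool.Agent.GapMahler

noncomputable section

variable {ι : Type*} [Fintype ι]

lemma norm_exp_half {h : ℂ} (h0 : h ≠ 0) : ‖Complex.exp (Complex.log h / 2)‖ = √‖h‖ := by
  have hp : 0 < ‖h‖ := norm_pos_iff.2 h0
  rw [Complex.norm_exp, eq_comm, Real.sqrt_eq_iff_mul_self_eq hp.le (Real.exp_pos _).le,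
    ← Real.exp_add]
  have : (Complex.log h / 2).re + (Complex.log h / 2).re = Real.log ‖h‖ := by
    rw [← Complex.log_re]
    have : Complex.log h / 2 + Complex.log h / 2 = Complex.log h := by ring
    rw [← Complex.add_re, this]
  rw [this, Real.exp_log hp]

lemma sqrt_norm_le {h : ℂ} (h0 : 0 < h.re) : √‖h‖ ≤ √2 * (Complex.exp (Complex.log h / 2)).re := by
  have hne : h ≠ 0 := by rintro rfl; simp at h0
  have e1 := norm_exp_half hne
  rw [Complex.exp_re]
  rw [Complex.norm_exp] at e1
  rw [← e1]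
  have e2 : (Complex.log h / 2).im = Complex.arg h / 2 := by
    have : (Complex.log h / 2) = ((1/2 : ℝ) : ℂ) * Complex.log h := by push_cast; ring
    rw [this, Complex.im_ofReal_mul, Complex.log_im]
    ring
  rw [e2]
  have e3 : |Complex.arg h| < π / 2 := Complex.abs_arg_lt_pi_div_two_iff.2 (Or.inl h0)
  have e4 : Real.cos (π / 4) ≤ Real.cos (Complex.arg h / 2) := by
    rw [← Real.cos_abs (Complex.arg h / 2)]
    apply Real.cos_le_cos_of_nonneg_of_le_pi (abs_nonneg _)
    · linarith [Real.pi_pos]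
    · rw [abs_div, abs_of_pos (by norm_num : (0:ℝ) < 2)]; linarith
  rw [Real.cos_pi_div_four] at e4
  have e5 : 0 < Real.exp (Complex.log h / 2).re := Real.exp_pos _
  have e6 : √2 * √2 = 2 := Real.mul_self_sqrt (by norm_num)
  have e7 : 0 < √2 := by positivity
  have e8 : 1 ≤ √2 * Real.cos (Complex.arg h / 2) := by nlinarith
  nlinarith

/-- the Herglotz sum over `T` -/
def Hs (α : ι → ℂ) (T : Finset ι) (z : ℂ) : ℂ := ∑ i ∈ T, (1 + rf (α i) * z) / (1 - rf (α i) * z)

lemma herglotz_re {w : ℂ} (hw : ‖w‖ < 1) : 0 < ((1 + w) / (1 - w)).re := by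
  have h1 : 1 - w ≠ 0 := by
    intro h
    rw [sub_eq_zero] at h
    rw [← h, norm_one] at hw
    exact lt_irrefl _ hw
  have h2 : 0 < Complex.normSq (1 - w) := Complex.normSq_pos.2 h1
  have h3 : ((1 + w) / (1 - w)).re = (1 - Complex.normSq w) / Complex.normSq (1 - w) := by
    rw [Complex.div_re, ← add_div]
    congr 1
    simp only [Complex.add_re, Complex.one_re, Complex.sub_re, Complex.add_im, Complex.one_im,
      Complex.sub_im, Complex.normSq_apply]
    ring
  rw [h3]
  apply div_pos _ h2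
  rw [Complex.normSq_eq_norm_sq]
  nlinarith [norm_nonneg w]

lemma norm_rf_mul_lt {a z : ℂ} (ha : ‖a‖ ≠ 1) (hz : ‖z‖ ≤ 1) : ‖rf a * z‖ < 1 := by
  rw [norm_mul]
  have := norm_rf_lt ha
  nlinarith [norm_nonneg (rf a), norm_nonneg z]

omit [Fintype ι] in
lemma Hs_re_pos {α : ι → ℂ} (ha : ∀ i, ‖α i‖ ≠ 1) {T : Finset ι} (hT : T.Nonempty) {z : ℂ}
    (hz : ‖z‖ ≤ 1) : 0 < (Hs α T z).re := by
  unfold Hs
  rw [Complex.re_sum]
  exact Finset.sum_pos (fun i _ => herglotz_re (norm_rf_mul_lt (ha i) hz)) hT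

omit [Fintype ι] in
lemma differentiableAt_Hs {α : ι → ℂ} (ha : ∀ i, ‖α i‖ ≠ 1) (T : Finset ι) {z : ℂ}
    (hz : ‖z‖ ≤ 1) : DifferentiableAt ℂ (Hs α T) z := by
  unfold Hs
  apply DifferentiableAt.fun_sum
  intro i _
  have := one_sub_rf_ne (ha i) hz
  apply DifferentiableAt.fun_div
  · fun_prop
  · fun_prop
  · exact this

omit [Fintype ι] in
theorem kol {α : ι → ℂ} (ha : ∀ i, ‖α i‖ ≠ 1) (T : Finset ι) :
    ∫ θ in (0:ℝ)..(2 * π), √‖Hs α T (Z (0, θ))‖ ≤ 2 * π * (√2 * √(T.card)) := by
  have hpi : (0:ℝ) ≤ 2 * π := by positivity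
  rcases T.eq_empty_or_nonempty with hT | hT
  · subst hT
    simp [Hs]
  set k : ℂ → ℂ := fun z => Complex.exp (Complex.log (Hs α T z) / 2) with hk
  have hkd : ∀ z, ‖z‖ ≤ 1 → DifferentiableAt ℂ k z := by
    intro z hz
    have h1 := differentiableAt_Hs ha T hz
    have h2 : Hs α T z ∈ Complex.slitPlane := Or.inl (Hs_re_pos ha hT hz)
    exact ((h1.clog h2).div_const 2).cexp
  have hkc : ContinuousOn k (closedBall 0 1) := fun z hz =>
    (hkd z (by simpa using hz)).continuousAt.continuousWithinAt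
  have hdc : DiffContOnCl ℂ k (ball 0 |1|) := by
    rw [abs_one]
    apply DifferentiableOn.diffContOnCl
    rw [closure_ball 0 one_ne_zero]
    intro z hz
    exact (hkd z (by simpa using hz)).differentiableWithinAt
  have hav : Real.circleAverage k 0 1 = k 0 := hdc.circleAverage
  have hci : CircleIntegrable k 0 1 :=
    (hkc.mono sphere_subset_closedBall).circleIntegrable zero_le_one
  have hre : Real.circleAverage (Complex.reCLM ∘ k) 0 1 = (k 0).re := by
    rw [Complex.reCLM.circleAverage_comp_comm hci, hav]; rfl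
  have hZ0 : ∀ θ, ‖Z (0, θ)‖ = 1 := fun θ => by rw [norm_Z]; simp
  have hre2 : ∫ θ in (0:ℝ)..(2 * π), (k (Z (0, θ))).re = 2 * π * (k 0).re := by
    rw [← hre]
    unfold Real.circleAverage
    simp only [Z_zero, Function.comp_def, Complex.reCLM_apply, smul_eq_mul]
    field_simp
  have hZc : Continuous (fun θ : ℝ => Z (0, θ)) := continuous_Z.comp (by fun_prop)
  have hkZ : Continuous (fun θ : ℝ => k (Z (0, θ))) :=
    hkc.comp_continuous hZc (fun θ => by simpa using (hZ0 θ).le)
  have hHZ : Continuous (fun θ : ℝ => Hs α T (Z (0, θ))) := by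
    have hHc : ContinuousOn (Hs α T) (closedBall 0 1) := fun z hz =>
      (differentiableAt_Hs ha T (by simpa using hz)).continuousAt.continuousWithinAt
    exact hHc.comp_continuous hZc (fun θ => by simpa using (hZ0 θ).le)
  calc ∫ θ in (0:ℝ)..(2 * π), √‖Hs α T (Z (0, θ))‖
      ≤ ∫ θ in (0:ℝ)..(2 * π), √2 * (k (Z (0, θ))).re := by
        apply intervalIntegral.integral_mono_on hpi
        · exact (hHZ.norm.sqrt).intervalIntegrable _ _
        · exact (continuous_const.mul (Complex.continuous_re.comp hkZ)).intervalIntegrable _ _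
        · intro θ _
          exact sqrt_norm_le (Hs_re_pos ha hT (hZ0 θ).le)
    _ = 2 * π * (√2 * (k 0).re) := by
        rw [intervalIntegral.integral_const_mul, hre2]; ring
    _ ≤ 2 * π * (√2 * √(T.card)) := by
        apply mul_le_mul_of_nonneg_left _ hpi
        apply mul_le_mul_of_nonneg_left _ (Real.sqrt_nonneg _)
        refine (Complex.re_le_norm _).trans (le_of_eq ?_)
        have h0 : Hs α T 0 = (T.card : ℂ) := by unfold Hs; simp
        have hne : Hs α T 0 ≠ 0 := by
          rw [h0]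
          exact_mod_cast (Finset.card_pos.2 hT).ne'
        rw [hk]
        simp only []
        rw [norm_exp_half hne, h0, Complex.norm_natCast]

end

end Pool.Agent.K3h99.Leh
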