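import Pool.Agent.K3h99.Leh.Asm

/-!
The analytic bound with zeros on the circle, by scaling.
-/

set_option autoImplicit false

namespace Pool.Agent.K3h99.Leh

open Complex MeasureTheory Metric Set Filter Topology ComplexConjugate InnerProductSpace Real

noncomputable section

variable {ι : Type*} [Fintype ι]

lemma ep_scale (α : ι → ℂ) {r : ℝ} (h0 : 0 ≤ r) (h1 : r ≤ 1) :
    ep (fun i => (r:ℂ) * α i) ≤ ep α := by
  unfold ep
  apply Finset.sum_le_sum
  intro i _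
  apply Real.posLog_le_posLog (norm_nonneg _)
  rw [norm_mul, Complex.norm_real, Real.norm_of_nonneg h0]
  nlinarith [norm_nonneg (α i)]

lemma pk_scale (α : ι → ℂ) (r : ℝ) (k : ℕ) :
    pk (fun i => (r:ℂ) * α i) k = (r:ℂ) ^ k * pk α k := by
  unfold pk
  rw [Finset.mul_sum]
  apply Finset.sum_congr rfl
  intro i _
  rw [mul_pow]

lemma Bq_scale (α : ι → ℂ) {r : ℝ} (h0 : 0 ≤ r) (h1 : r ≤ 1) (L : ℕ) :
    Bq (fun i => (r:ℂ) * α i) L ≤ Bq α L := by
  unfold Bq
  apply Real.sqrt_le_sqrt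
  unfold B2
  apply Finset.sum_le_sum
  intro k _
  apply div_le_div_of_nonneg_right _ (by positivity)
  rw [pk_scale, norm_mul, norm_pow, Complex.norm_real, Real.norm_of_nonneg h0, mul_pow]
  have h2 : (r ^ k) ^ 2 ≤ 1 := pow_le_one₀ (by positivity) (pow_le_one₀ h0 h1)
  nlinarith [sq_nonneg ‖pk α k‖]

theorem T_bound' (α : ι → ℂ) {L : ℕ} (hL : 1 ≤ L)
    (hLn : L ≤ Fintype.card ι) (hep : ep α ≤ 1) :
    ∫ θ in (0:ℝ)..(2 * π), Real.posLog ‖∏ i, (1 - α i * circleMap 0 1 θ)‖ ≤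
      2 * π * (50 * ((Fintype.card ι : ℝ) / L + Bq α L)) := by
  have hcont : Continuous (fun r : ℝ =>
      ∫ θ in (0:ℝ)..(2 * π), Real.posLog ‖∏ i, (1 - ((r:ℂ) * α i) * circleMap 0 1 θ)‖) := by
    apply intervalIntegral.continuous_parametric_intervalIntegral_of_continuous'
    have h1 : Continuous (fun p : ℝ × ℝ => ∏ i, (1 - ((p.1:ℂ) * α i) * circleMap 0 1 p.2)) := by
      apply continuous_finsetProd
      intro i _
      have h2 : Continuous (fun p : ℝ × ℝ => circleMap 0 1 p.2) :=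
        (continuous_circleMap 0 1).comp continuous_snd
      fun_prop
    exact Real.continuous_posLog.comp h1.norm
  have hlim : Tendsto (fun r : ℝ =>
      ∫ θ in (0:ℝ)..(2 * π), Real.posLog ‖∏ i, (1 - ((r:ℂ) * α i) * circleMap 0 1 θ)‖) (𝓝[<] 1)
      (𝓝 (∫ θ in (0:ℝ)..(2 * π), Real.posLog ‖∏ i, (1 - α i * circleMap 0 1 θ)‖)) := by
    have h := (hcont.tendsto 1).mono_left (nhdsWithin_le_nhds (s := Set.Iio (1:ℝ)))
    simpa using h
  refine le_of_tendsto hlim ?_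
  have e1 : ∀ᶠ r : ℝ in 𝓝[<] 1, 0 < r := by
    have : ∀ᶠ r : ℝ in 𝓝 1, 0 < r := lt_mem_nhds one_pos
    exact this.filter_mono nhdsWithin_le_nhds
  have e2 : ∀ᶠ r : ℝ in 𝓝[<] 1, r < 1 := eventually_mem_nhdsWithin
  have e3 : ∀ᶠ r : ℝ in 𝓝[<] 1, ∀ i, r * ‖α i‖ ≠ 1 := by
    rw [Filter.eventually_all]
    intro i
    by_cases h : ‖α i‖ = 1
    · filter_upwards [e2] with r hr
      rw [h, mul_one]; exact hr.ne
    · have hc : ContinuousAt (fun r : ℝ => r * ‖α i‖) 1 := by fun_prop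
      exact (hc.eventually_ne (by rwa [one_mul])).filter_mono nhdsWithin_le_nhds
  filter_upwards [e1, e2, e3] with r h1 h2 h3
  have ha : ∀ i, ‖(r:ℂ) * α i‖ ≠ 1 := by
    intro i
    rw [norm_mul, Complex.norm_real, Real.norm_of_nonneg h1.le]
    exact h3 i
  have h := T_bound ha hL hLn ((ep_scale α h1.le h2.le).trans hep)
  refine h.trans ?_
  apply mul_le_mul_of_nonneg_left _ (by positivity)
  have := Bq_scale α h1.le h2.le L
  linarith

end

end Pool.Agent.K3h99.Leh
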