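import Pool.Agent.GapMahler
import Pool.Agent.K3h99.Leh.Area2

/-!
Monotonicity of the means of `|N / F*| ^ (1/2)` (Hardy), through the Poisson formula.
-/

set_option autoImplicit false

namespace Pool.Agent.K3h99.Leh

open Complex MeasureTheory Metric Set Filter Topology ComplexConjugate InnerProductSpace Real
open Pool.Agent.GapMahler

noncomputable section

lemma pk_symm (t : ℝ) {ζ ζ' : ℂ} (h : ‖ζ‖ = 1) (h' : ‖ζ'‖ = 1) :
    poissonKernel 0 (t * ζ) ζ' = poissonKernel 0 (t * ζ') ζ := by
  rw [poissonKernel_def, poissonKernel_def]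
  simp only [sub_zero]
  have e1 : ‖ζ' - t * ζ‖ ^ 2 = ‖ζ - t * ζ'‖ ^ 2 := by
    have h1 : ζ.re * ζ.re + ζ.im * ζ.im = 1 := by
      rw [← Complex.normSq_apply, Complex.normSq_eq_norm_sq, h]; norm_num
    have h2 : ζ'.re * ζ'.re + ζ'.im * ζ'.im = 1 := by
      rw [← Complex.normSq_apply, Complex.normSq_eq_norm_sq, h']; norm_num
    rw [← Complex.normSq_eq_norm_sq, ← Complex.normSq_eq_norm_sq, Complex.normSq_apply,
      Complex.normSq_apply]
    simp only [Complex.sub_re, Complex.sub_im, Complex.mul_re, Complex.mul_im, Complex.ofReal_re,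
      Complex.ofReal_im]
    linear_combination (t ^ 2 - 1) * h1 + (1 - t ^ 2) * h2
  rw [e1, norm_mul, norm_mul, h, h']

/-- the average of the Poisson averages over a circle is the average -/
lemma avg_PE {t : ℝ} (ht0 : 0 ≤ t) (ht1 : t < 1) (Φ : ℂ → ℝ) (hΦ : ContinuousOn Φ (sphere 0 1)) :
    circleAverage (fun ζ => PE (t * ζ) Φ) 0 1 = circleAverage Φ 0 1 := by
  have hpi : (0:ℝ) < 2 * π := by positivity
  set F : ℝ → ℝ → ℝ := fun θ θ' =>
    poissonKernel 0 (t * circleMap 0 1 θ) (circleMap 0 1 θ') * Φ (circleMap 0 1 θ') with hF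
  have hmem : ∀ θ, circleMap 0 1 θ ∈ sphere (0:ℂ) 1 := fun θ => circleMap_mem_sphere 0 zero_le_one θ
  have hn : ∀ θ, ‖circleMap 0 1 θ‖ = 1 := fun θ => by simp
  have hΦc : Continuous (fun θ => Φ (circleMap 0 1 θ)) :=
    hΦ.comp_continuous (continuous_circleMap 0 1) hmem
  have hden : ∀ θ θ' : ℝ, ‖circleMap 0 1 θ' - t * circleMap 0 1 θ‖ ^ 2 ≠ 0 := by
    intro θ θ'
    have h1 : 1 - t ≤ ‖circleMap 0 1 θ' - t * circleMap 0 1 θ‖ := by
      have := norm_sub_norm_le (circleMap 0 1 θ') (t * circleMap 0 1 θ)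
      rw [norm_mul, hn, hn, Complex.norm_real, Real.norm_of_nonneg ht0, mul_one] at this
      exact this
    have : 0 < ‖circleMap 0 1 θ' - t * circleMap 0 1 θ‖ := by linarith
    positivity
  have hFc : Continuous (Function.uncurry F) := by
    have h1 : Continuous (fun p : ℝ × ℝ => circleMap 0 1 p.1) := (continuous_circleMap 0 1).comp continuous_fst
    have h2 : Continuous (fun p : ℝ × ℝ => circleMap 0 1 p.2) := (continuous_circleMap 0 1).comp continuous_snd
    have h3 : Continuous (fun p : ℝ × ℝ => poissonKernel 0 (t * circleMap 0 1 p.1) (circleMap 0 1 p.2)) := by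
      simp only [poissonKernel_def, sub_zero]
      apply Continuous.div
      · fun_prop
      · fun_prop
      · intro p; exact hden p.1 p.2
    have h4 : Continuous (fun p : ℝ × ℝ => Φ (circleMap 0 1 p.2)) := hΦc.comp continuous_snd
    exact h3.mul h4
  have hint : IntegrableOn (Function.uncurry F) (uIoc 0 (2 * π) ×ˢ uIoc 0 (2 * π)) := by
    have hcomp : IsCompact ((uIcc (0:ℝ) (2 * π)) ×ˢ (uIcc (0:ℝ) (2 * π))) :=
      isCompact_uIcc.prod isCompact_uIcc
    exact (hFc.continuousOn.integrableOn_compact hcomp).mono_set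
      (Set.prod_mono uIoc_subset_uIcc uIoc_subset_uIcc)
  have hone : ∀ θ' : ℝ, (2 * π)⁻¹ * ∫ θ in (0:ℝ)..(2 * π),
      poissonKernel 0 (t * circleMap 0 1 θ) (circleMap 0 1 θ') = 1 := by
    intro θ'
    have hu : ‖(t:ℂ) * circleMap 0 1 θ'‖ < 1 := by
      rw [norm_mul, hn, Complex.norm_real, Real.norm_of_nonneg ht0, mul_one]; exact ht1
    have h1 := PE_const ((t:ℂ) * circleMap 0 1 θ') hu 1
    unfold PE circleAverage at h1
    rw [smul_eq_mul] at h1
    refine Eq.trans ?_ h1
    congr 1
    apply intervalIntegral.integral_congr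
    intro θ _
    simp only [mul_one]
    exact pk_symm t (hn θ) (hn θ')
  unfold PE circleAverage
  simp only [smul_eq_mul]
  calc (2 * π)⁻¹ * ∫ θ in (0:ℝ)..(2 * π), (2 * π)⁻¹ * ∫ θ' in (0:ℝ)..(2 * π), F θ θ'
      = (2 * π)⁻¹ * ((2 * π)⁻¹ * ∫ θ in (0:ℝ)..(2 * π), ∫ θ' in (0:ℝ)..(2 * π), F θ θ') := by
        rw [intervalIntegral.integral_const_mul]
    _ = (2 * π)⁻¹ * ((2 * π)⁻¹ * ∫ θ' in (0:ℝ)..(2 * π), ∫ θ in (0:ℝ)..(2 * π), F θ θ') := by
        rw [intervalIntegral_intervalIntegral_swap hint]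
    _ = (2 * π)⁻¹ * ∫ θ' in (0:ℝ)..(2 * π), (2 * π)⁻¹ * ∫ θ in (0:ℝ)..(2 * π), F θ θ' := by
        rw [intervalIntegral.integral_const_mul]
    _ = (2 * π)⁻¹ * ∫ θ' in (0:ℝ)..(2 * π), Φ (circleMap 0 1 θ') := by
        congr 1
        apply intervalIntegral.integral_congr
        intro θ' _
        simp only [hF]
        rw [intervalIntegral.integral_mul_const, ← mul_assoc, hone, one_mul]

/-- the means of `exp (u / 2)` increase, `u` harmonic in the open disc -/
lemma means_harm {u : ℂ → ℝ} (hu : HarmonicOnNhd u (ball 0 1)) {ρ r : ℝ} (hρ : 0 ≤ ρ) (hρr : ρ < r)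
    (hr : r < 1) : circleAverage (fun z => Real.exp (u z / 2)) 0 ρ ≤
      circleAverage (fun z => Real.exp (u z / 2)) 0 r := by
  have hr0 : 0 < r := lt_of_le_of_lt hρ hρr
  set φ : ℂ → ℝ := fun ζ => u (r * ζ) with hφ
  have hφc : ContinuousOn φ (sphere 0 1) := harm_cont hu r hr0 hr
  have hec : ContinuousOn (fun ζ => Real.exp (φ ζ / 2)) (sphere 0 1) :=
    Real.continuous_exp.comp_continuousOn (hφc.div_const 2)
  set t : ℝ := ρ / r with ht
  have ht0 : 0 ≤ t := by positivity
  have ht1 : t < 1 := by rw [ht, div_lt_one hr0]; exact hρr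
  have hpt : ∀ ζ : ℂ, ‖ζ‖ = 1 → Real.exp (u (ρ * ζ) / 2) ≤
      PE (t * ζ) (fun ζ => Real.exp (φ ζ / 2)) := by
    intro ζ hζ
    have hv : ‖(t:ℂ) * ζ‖ < 1 := by
      rw [norm_mul, hζ, Complex.norm_real, Real.norm_of_nonneg ht0, mul_one]; exact ht1
    have hz : ‖(ρ:ℂ) * ζ‖ < r := by
      rw [norm_mul, hζ, Complex.norm_real, Real.norm_of_nonneg hρ, mul_one]; exact hρr
    have h1 := scaled hu r hr0 hr (ρ * ζ) hz
    have e1 : (ρ:ℂ) * ζ / r = t * ζ := by rw [ht]; push_cast; ring
    rw [e1] at h1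
    set c := u (ρ * ζ) with hc
    have h2 : PE (t * ζ) (fun ζ' => Real.exp (c / 2) / 2 * φ ζ' + Real.exp (c / 2) * (1 - c / 2)) ≤
        PE (t * ζ) (fun ζ => Real.exp (φ ζ / 2)) := by
      apply PE_mono _ hv
      · exact (continuousOn_const.mul hφc).add continuousOn_const
      · exact hec
      · intro ζ' _
        have h3 := Real.add_one_le_exp ((φ ζ' - c) / 2)
        have h4 : Real.exp (φ ζ' / 2) = Real.exp (c / 2) * Real.exp ((φ ζ' - c) / 2) := by
          rw [← Real.exp_add]; congr 1; ring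
        rw [h4]
        have h5 := mul_le_mul_of_nonneg_left h3 (Real.exp_pos (c / 2)).le
        linarith
    have h6 := PE_add (t * ζ) hv (fun ζ' => Real.exp (c / 2) / 2 * φ ζ')
      (fun _ => Real.exp (c / 2) * (1 - c / 2)) (continuousOn_const.mul hφc) continuousOn_const
    rw [h6, PE_smul, PE_const _ hv, h1] at h2
    linarith
  have e2 : circleAverage (fun z => Real.exp (u z / 2)) 0 ρ =
      circleAverage (fun ζ => Real.exp (u (ρ * ζ) / 2)) 0 1 := by
    rw [circleAverage_eq_circleAverage_zero_one]; simp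
  have e3 : circleAverage (fun z => Real.exp (u z / 2)) 0 r =
      circleAverage (fun ζ => Real.exp (φ ζ / 2)) 0 1 := by
    rw [circleAverage_eq_circleAverage_zero_one]; simp [hφ]
  rw [e2, e3, ← avg_PE ht0 ht1 _ hec]
  apply circleAverage_mono
  · -- continuity of the left side
    apply ContinuousOn.circleIntegrable zero_le_one
    have hmaps : MapsTo (fun ζ : ℂ => (ρ:ℂ) * ζ) (sphere 0 1) (ball 0 1) := by
      intro ζ hζ
      have h1 : ‖ζ‖ = 1 := by simpa using hζ
      simp only [mem_ball_zero_iff, norm_mul, Complex.norm_real, Real.norm_of_nonneg hρ, h1, mul_one]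
      linarith
    exact Real.continuous_exp.comp_continuousOn
      ((hu.continuousOn.comp (by fun_prop) hmaps).div_const 2)
  · -- continuity of the Poisson average in the pole
    have hn : ∀ θ, ‖circleMap 0 1 θ‖ = 1 := fun θ => by simp
    have hΦc : Continuous (fun θ => Real.exp (φ (circleMap 0 1 θ) / 2)) :=
      hec.comp_continuous (continuous_circleMap 0 1) (fun θ => circleMap_mem_sphere 0 zero_le_one θ)
    have hcont : Continuous (fun θ : ℝ => PE (t * circleMap 0 1 θ) (fun ζ => Real.exp (φ ζ / 2))) := by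
      unfold PE circleAverage
      simp only [smul_eq_mul]
      apply Continuous.mul continuous_const
      apply intervalIntegral.continuous_parametric_intervalIntegral_of_continuous'
      have h1 : Continuous (fun p : ℝ × ℝ => circleMap 0 1 p.1) :=
        (continuous_circleMap 0 1).comp continuous_fst
      have h2 : Continuous (fun p : ℝ × ℝ => circleMap 0 1 p.2) :=
        (continuous_circleMap 0 1).comp continuous_snd
      have h3 : Continuous (fun p : ℝ × ℝ =>
          poissonKernel 0 (t * circleMap 0 1 p.1) (circleMap 0 1 p.2)) := by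
        simp only [poissonKernel_def, sub_zero]
        apply Continuous.div
        · fun_prop
        · fun_prop
        · intro p
          have h1 : 1 - t ≤ ‖circleMap 0 1 p.2 - t * circleMap 0 1 p.1‖ := by
            have := norm_sub_norm_le (circleMap 0 1 p.2) (t * circleMap 0 1 p.1)
            rw [norm_mul, hn, hn, Complex.norm_real, Real.norm_of_nonneg ht0, mul_one] at this
            exact this
          have : 0 < ‖circleMap 0 1 p.2 - t * circleMap 0 1 p.1‖ := by linarith
          positivity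
      exact h3.mul (hΦc.comp continuous_snd)
    exact hcont.intervalIntegrable _ _
  · intro ζ hζ
    rw [abs_one] at hζ
    exact hpt ζ (by simpa using hζ)

end

end Pool.Agent.K3h99.Leh
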