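import Pool.Agent.K3h99.Leh.Means

/-!
Monotonicity of the means of `|P exp (-U)| ^ (1/2)`, `P` a polynomial.
-/

set_option autoImplicit false

namespace Pool.Agent.K3h99.Leh

open Complex MeasureTheory Metric Set Filter Topology ComplexConjugate InnerProductSpace Real
open Pool.Agent.GapMahler

noncomputable section

lemma exists_G (P : Polynomial ℂ) (hP : P ≠ 0) : ∃ G : Polynomial ℂ,
    (∀ z, ‖z‖ ≤ 1 → ‖P.eval z‖ ≤ ‖G.eval z‖) ∧ (∀ z, ‖z‖ = 1 → ‖G.eval z‖ = ‖P.eval z‖) ∧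
    (∀ z, ‖z‖ < 1 → G.eval z ≠ 0) := by
  obtain ⟨G, hG⟩ : ∃ G : Polynomial ℂ, G = Polynomial.C P.leadingCoeff * (P.roots.map gfac).prod :=
    ⟨_, rfl⟩
  have hlc : P.leadingCoeff ≠ 0 := Polynomial.leadingCoeff_ne_zero.2 hP
  have hPe : ∀ z, P.eval z = P.leadingCoeff * (P.roots.map (fun a => z - a)).prod := by
    intro z
    conv_lhs => rw [(IsAlgClosed.splits P).eq_prod_roots]
    rw [Polynomial.eval_mul, Polynomial.eval_C, Polynomial.eval_multiset_prod, Multiset.map_map]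
    simp
  have hGe : ∀ z, G.eval z = P.leadingCoeff * (P.roots.map (fun a => (gfac a).eval z)).prod := by
    intro z
    rw [hG, Polynomial.eval_mul, Polynomial.eval_C, Polynomial.eval_multiset_prod, Multiset.map_map]
    rfl
  refine ⟨G, ?_, ?_, ?_⟩
  · intro z hz
    rw [hPe, hGe, norm_mul, norm_mul]
    apply mul_le_mul_of_nonneg_left _ (norm_nonneg _)
    induction P.roots using Multiset.induction_on with
    | empty => simp
    | cons a s ih =>
      rw [Multiset.map_cons, Multiset.map_cons, Multiset.prod_cons, Multiset.prod_cons,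
        norm_mul, norm_mul]
      exact mul_le_mul (gfac_ge a z hz) ih (norm_nonneg _) (norm_nonneg _)
  · intro z hz
    rw [hPe, hGe, norm_mul, norm_mul]
    congr 1
    induction P.roots using Multiset.induction_on with
    | empty => simp
    | cons a s ih =>
      rw [Multiset.map_cons, Multiset.map_cons, Multiset.prod_cons, Multiset.prod_cons,
        norm_mul, norm_mul, ih, gfac_eq a z hz]
  · intro z hz
    rw [hGe]
    apply mul_ne_zero hlc
    induction P.roots using Multiset.induction_on with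
    | empty => simp
    | cons a s ih =>
      rw [Multiset.map_cons, Multiset.prod_cons]
      exact mul_ne_zero (gfac_ne a z hz) ih

variable {ι : Type*} [Fintype ι]

/-- the product of the reflected factors -/
def Fs (α : ι → ℂ) (z : ℂ) : ℂ := ∏ i, (1 - rf (α i) * z)

lemma Fs_ne {α : ι → ℂ} (ha : ∀ i, ‖α i‖ ≠ 1) {z : ℂ} (hz : ‖z‖ ≤ 1) : Fs α z ≠ 0 :=
  Finset.prod_ne_zero_iff.2 fun i _ => one_sub_rf_ne (ha i) hz

lemma Uf_eq {α : ι → ℂ} (ha : ∀ i, ‖α i‖ ≠ 1) {z : ℂ} (hz : ‖z‖ ≤ 1) :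
    Uf α z = Real.log ‖Fs α z‖ + ep α := by
  unfold Uf Fs ep
  rw [norm_prod, Real.log_prod (fun i _ => norm_ne_zero_iff.2 (one_sub_rf_ne (ha i) hz)),
    Finset.sum_add_distrib]

lemma differentiable_Fs (α : ι → ℂ) : Differentiable ℂ (Fs α) := by
  unfold Fs
  apply Differentiable.fun_finset_prod
  intro i _
  fun_prop

lemma exp_neg_Uf {α : ι → ℂ} (ha : ∀ i, ‖α i‖ ≠ 1) {z : ℂ} (hz : ‖z‖ ≤ 1) :
    Real.exp (-Uf α z) = Real.exp (-ep α) / ‖Fs α z‖ := by
  have h := Fs_ne ha hz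
  rw [Uf_eq ha hz, neg_add, Real.exp_add, Real.exp_neg (Real.log _),
    Real.exp_log (norm_pos_iff.2 h)]
  ring

/-- the half power -/
def Yf (α : ι → ℂ) (P : Polynomial ℂ) (z : ℂ) : ℝ := √(‖P.eval z‖ * Real.exp (-Uf α z))

lemma Yf_nonneg (α : ι → ℂ) (P : Polynomial ℂ) (z : ℂ) : 0 ≤ Yf α P z := Real.sqrt_nonneg _

lemma continuousOn_Yf {α : ι → ℂ} (ha : ∀ i, ‖α i‖ ≠ 1) (P : Polynomial ℂ) :
    ContinuousOn (Yf α P) (closedBall 0 1) := by
  have h1 : ContinuousOn (fun z => √(‖P.eval z‖ * (Real.exp (-ep α) / ‖Fs α z‖))) (closedBall 0 1) := by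
    apply ContinuousOn.sqrt
    apply ContinuousOn.mul
    · exact P.continuous.norm.continuousOn
    · apply ContinuousOn.div continuousOn_const
      · exact (differentiable_Fs α).continuous.norm.continuousOn
      · intro z hz
        exact norm_ne_zero_iff.2 (Fs_ne ha (by simpa using hz))
  refine h1.congr fun z hz => ?_
  unfold Yf
  rw [exp_neg_Uf ha (by simpa using hz)]

theorem means_G {α : ι → ℂ} (ha : ∀ i, ‖α i‖ ≠ 1) {G : Polynomial ℂ}
    (hG : ∀ z, ‖z‖ < 1 → G.eval z ≠ 0) {ρ : ℝ} (h0 : 0 ≤ ρ) (h1 : ρ < 1) :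
    circleAverage (Yf α G) 0 ρ ≤ circleAverage (Yf α G) 0 1 := by
  set u : ℂ → ℝ := fun z => Real.log ‖G.eval z‖ - (Real.log ‖Fs α z‖ + ep α) with hu
  have hharm : HarmonicOnNhd u (ball 0 1) := by
    intro z hz
    rw [mem_ball_zero_iff] at hz
    have a1 : AnalyticAt ℂ (fun z => G.eval z) z := (Polynomial.differentiable G).analyticAt z
    have a2 : AnalyticAt ℂ (Fs α) z := (differentiable_Fs α).analyticAt z
    have h2 := AnalyticAt.harmonicAt_log_norm a1 (hG z hz)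
    have h3 := AnalyticAt.harmonicAt_log_norm a2 (Fs_ne ha hz.le)
    exact h2.sub (h3.add (harmonicAt_const (ep α)))
  have hW : ∀ z, ‖z‖ < 1 → Yf α G z = Real.exp (u z / 2) := by
    intro z hz
    unfold Yf
    have e1 : Real.exp (u z) = ‖G.eval z‖ * Real.exp (-Uf α z) := by
      rw [hu, Uf_eq ha hz.le]
      simp only []
      rw [Real.exp_sub, Real.exp_log (norm_pos_iff.2 (hG z hz)), Real.exp_neg]
      ring
    rw [← e1, Real.sqrt_eq_iff_mul_self_eq (Real.exp_pos _).le (Real.exp_pos _).le, ← Real.exp_add]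
    congr 1; ring
  have hcirc : ∀ r : ℝ, 0 ≤ r → r < 1 →
      circleAverage (Yf α G) 0 r = circleAverage (fun z => Real.exp (u z / 2)) 0 r := by
    intro r hr0 hr1
    apply circleAverage_congr_sphere
    intro z hz
    apply hW
    have : ‖z‖ = |r| := by simpa using hz
    rw [this, abs_of_nonneg hr0]; exact hr1
  have hmono : ∀ r : ℝ, ρ < r → r < 1 → circleAverage (Yf α G) 0 ρ ≤ circleAverage (Yf α G) 0 r := by
    intro r hr hr1
    rw [hcirc ρ h0 h1, hcirc r (by linarith) hr1]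
    exact means_harm hharm h0 hr hr1
  have hc : ContinuousOn (circleAverage (Yf α G) 0) (Icc 0 1) := by
    apply ContinuousOn.circleAverage
    · apply (continuousOn_Yf ha G).mono
      intro z hz
      simp only [sub_zero, Set.mem_setOf_eq] at hz
      simpa using hz.2
    · intro r hr; exact hr.1
  have hlim : Tendsto (circleAverage (Yf α G) 0) (𝓝[<] 1) (𝓝 (circleAverage (Yf α G) 0 1)) := by
    have h2 := hc 1 ⟨zero_le_one, le_rfl⟩
    apply h2.mono_left
    rw [nhdsWithin_le_iff, mem_nhdsLT_iff_exists_Ioo_subset]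
    exact ⟨0, by simp, fun x hx => ⟨hx.1.le, hx.2.le⟩⟩
  refine ge_of_tendsto hlim ?_
  have : Ioo ρ 1 ∈ 𝓝[<] (1:ℝ) := Ioo_mem_nhdsLT h1
  filter_upwards [this] with r hr
  exact hmono r hr.1 hr.2

theorem means_P {α : ι → ℂ} (ha : ∀ i, ‖α i‖ ≠ 1) (P : Polynomial ℂ) {s : ℝ} (hs : 0 ≤ s) :
    ∫ θ in (0:ℝ)..(2 * π), Yf α P (Z (s, θ)) ≤ ∫ θ in (0:ℝ)..(2 * π), Yf α P (Z (0, θ)) := by
  rcases eq_or_ne P 0 with hP | hP
  · have : ∀ z, Yf α P z = 0 := by intro z; unfold Yf; simp [hP]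
    simp [this]
  obtain ⟨G, g1, g2, g3⟩ := exists_G P hP
  have hpi : (0:ℝ) ≤ 2 * π := by positivity
  have hci : ∀ (Q : Polynomial ℂ) (s : ℝ), 0 ≤ s →
      IntervalIntegrable (fun θ => Yf α Q (Z (s, θ))) volume 0 (2 * π) := by
    intro Q s hs
    apply Continuous.intervalIntegrable
    apply (continuousOn_Yf ha Q).comp_continuous
    · exact continuous_Z.comp (by fun_prop)
    · intro θ; simpa using Z_norm_le (p := (s, θ)) hs
  have hle : ∀ z, ‖z‖ ≤ 1 → Yf α P z ≤ Yf α G z := by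
    intro z hz
    exact Real.sqrt_le_sqrt (mul_le_mul_of_nonneg_right (g1 z hz) (Real.exp_pos _).le)
  have heq : ∀ z, ‖z‖ = 1 → Yf α P z = Yf α G z := by
    intro z hz
    unfold Yf; rw [g2 z hz]
  have hZ0 : ∀ θ, ‖Z (0, θ)‖ = 1 := fun θ => by rw [norm_Z]; simp
  have h3 : ∫ θ in (0:ℝ)..(2 * π), Yf α P (Z (0, θ)) = ∫ θ in (0:ℝ)..(2 * π), Yf α G (Z (0, θ)) := by
    apply intervalIntegral.integral_congr
    intro θ _
    exact heq _ (hZ0 θ)
  rw [h3]
  have h4 : ∫ θ in (0:ℝ)..(2 * π), Yf α P (Z (s, θ)) ≤ ∫ θ in (0:ℝ)..(2 * π), Yf α G (Z (s, θ)) := by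
    apply intervalIntegral.integral_mono_on hpi (hci P s hs) (hci G s hs)
    intro θ _
    exact hle _ (Z_norm_le (p := (s, θ)) hs)
  refine h4.trans ?_
  rcases hs.eq_or_lt with h | h
  · rw [← h]
  · have h5 := means_G ha g3 (Real.exp_pos (-s)).le (Real.exp_lt_one_iff.2 (by linarith))
    unfold circleAverage at h5
    simp only [smul_eq_mul] at h5
    have h6 := le_of_mul_le_mul_left h5 (by positivity)
    simpa only [Z_eq, neg_zero, Real.exp_zero] using h6

end

end Pool.Agent.K3h99.Leh
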