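import Pool.Agent.K3h99.Leh.Poly

/-!
Polynomials with the same top coefficients have the same power sums.
-/

set_option autoImplicit false

namespace Pool.Agent.K3h99.Leh

open Complex MeasureTheory Metric Set Filter Topology ComplexConjugate InnerProductSpace Real
open Polynomial

noncomputable section

/-- Newton's identity for multisets -/
lemma newton (s : Multiset ℂ) (k : ℕ) (hk : 0 < k) :
    (s.map (fun a => a ^ k)).sum = (-1) ^ (k + 1) * k * s.esymm k -
      ∑ x ∈ Finset.HasAntidiagonal.antidiagonal k with x.1 ∈ Set.Ioo 0 k,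
        (-1) ^ x.1 * s.esymm x.1 * (s.map (fun a => a ^ x.2)).sum := by
  obtain ⟨N, α, hN, hα⟩ := exists_enum s
  have hP : ∀ j, (s.map (fun a => a ^ j)).sum =
      (MvPolynomial.aeval α) (MvPolynomial.psum (Fin N) ℂ j) := by
    intro j
    unfold MvPolynomial.psum
    conv_lhs => rw [hα, Multiset.map_map]
    rw [map_sum, Finset.sum_eq_multiset_sum]
    simp
  have hE : ∀ j, s.esymm j = (MvPolynomial.aeval α) (MvPolynomial.esymm (Fin N) ℂ j) := by
    intro j
    rw [MvPolynomial.aeval_esymm_eq_multiset_esymm, ← hα]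
  have h := congrArg (MvPolynomial.aeval α) (MvPolynomial.psum_eq_mul_esymm_sub_sum (Fin N) ℂ k hk)
  rw [hP, h, map_sub, map_mul, ← hE, map_sum]
  congr 1
  · simp
  · apply Finset.sum_congr rfl
    intro x _
    rw [map_mul, map_mul, ← hE, ← hP]
    simp

lemma psum_congr {s t : Multiset ℂ} {L : ℕ} (h : ∀ j, 1 ≤ j → j < L → s.esymm j = t.esymm j) :
    ∀ k, 1 ≤ k → k < L → (s.map (fun a => a ^ k)).sum = (t.map (fun a => a ^ k)).sum := by
  intro k
  induction k using Nat.strong_induction_on with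
  | _ k ih =>
    intro h1 h2
    rw [newton s k h1, newton t k h1, h k h1 h2]
    congr 1
    apply Finset.sum_congr rfl
    intro x hx
    rw [Finset.mem_filter] at hx
    have hxk := Finset.HasAntidiagonal.mem_antidiagonal.1 hx.1
    have h3 := hx.2.1
    have h4 := hx.2.2
    rw [h x.1 h3 (by omega), ih x.2 (by omega) (by omega) (by omega)]

lemma esymm_zero_of_card_lt (s : Multiset ℂ) {j : ℕ} (h : Multiset.card s < j) : s.esymm j = 0 := by
  unfold Multiset.esymm
  rw [Multiset.powersetCard_eq_empty j h]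
  simp

/-- same top coefficients, same elementary symmetric functions -/
lemma esymm_top (F g : ℂ[X]) (hg : g.Monic) {L : ℕ} (hL : 1 ≤ L) (hLn : L ≤ F.natDegree)
    (hd : g.natDegree ≤ F.natDegree)
    (h : (F - X ^ (F.natDegree - g.natDegree) * g).natDegree ≤ F.natDegree - L) :
    F.leadingCoeff = 1 ∧ ∀ j, 1 ≤ j → j < L → F.roots.esymm j = g.roots.esymm j := by
  have hF0 : F ≠ 0 := by
    rintro rfl
    rw [natDegree_zero] at hLn; omega
  have hco : ∀ j, j < L → F.coeff (F.natDegree - j) =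
      if j ≤ g.natDegree then g.coeff (g.natDegree - j) else 0 := by
    intro j hj
    have h1 : (F - X ^ (F.natDegree - g.natDegree) * g).coeff (F.natDegree - j) = 0 := by
      apply coeff_eq_zero_of_natDegree_lt
      omega
    rw [coeff_sub, sub_eq_zero] at h1
    rw [h1, coeff_X_pow_mul']
    by_cases hjd : j ≤ g.natDegree
    · rw [if_pos hjd, if_pos (by omega)]
      congr 1; omega
    · rw [if_neg hjd, if_neg (by omega)]
  have hlc : F.leadingCoeff = 1 := by
    have h0 := hco 0 (by omega)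
    rw [Nat.sub_zero, if_pos (Nat.zero_le _), Nat.sub_zero] at h0
    rw [leadingCoeff, h0]
    exact hg
  refine ⟨hlc, ?_⟩
  intro j h1 h2
  have e1 := Polynomial.coeff_eq_esymm_roots_of_splits (IsAlgClosed.splits F)
    (k := F.natDegree - j) (Nat.sub_le _ _)
  have e2 : F.natDegree - (F.natDegree - j) = j := by omega
  rw [e2, hlc, one_mul, hco j h2] at e1
  by_cases hjd : j ≤ g.natDegree
  · rw [if_pos hjd] at e1
    have e3 := Polynomial.coeff_eq_esymm_roots_of_splits (IsAlgClosed.splits g)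
      (k := g.natDegree - j) (Nat.sub_le _ _)
    have e4 : g.natDegree - (g.natDegree - j) = j := by omega
    rw [e4, hg.leadingCoeff, one_mul, e1] at e3
    exact mul_left_cancel₀ (pow_ne_zero j (by norm_num)) e3
  · rw [if_neg hjd] at e1
    have hcard : Multiset.card g.roots = g.natDegree :=
      splits_iff_card_roots.1 (IsAlgClosed.splits g)
    rw [esymm_zero_of_card_lt g.roots (by omega)]
    have := e1.symm
    rcases mul_eq_zero.1 this with h6 | h6
    · exact absurd h6 (pow_ne_zero _ (by norm_num))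
    · exact h6

lemma sum_inv_sq_aux (m : ℕ) :
    ∑ k ∈ Finset.Ico 1 (m + 2), (1:ℝ) / (k:ℝ) ^ 2 ≤ 2 - 1 / ((m:ℝ) + 1) := by
  induction m with
  | zero => simp; norm_num
  | succ m ih =>
    rw [Finset.sum_Ico_succ_top (by omega)]
    have h1 : (1:ℝ) / ((m + 1 + 1 : ℕ) : ℝ) ^ 2 ≤ 1 / ((m:ℝ) + 1) - 1 / (((m + 1 : ℕ) : ℝ) + 1) := by
      push_cast
      have hm : (0:ℝ) ≤ m := Nat.cast_nonneg m
      rw [div_sub_div _ _ (by positivity) (by positivity), div_le_div_iff₀ (by positivity) (by positivity)]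
      nlinarith
    have h2 : ((m + 2 : ℕ)) = m + 1 + 1 := rfl
    linarith

lemma sum_inv_sq (L : ℕ) : ∑ k ∈ Finset.Ico 1 L, (1:ℝ) / (k:ℝ) ^ 2 ≤ 2 := by
  rcases Nat.lt_or_ge L 2 with h | h
  · have : Finset.Ico 1 L = ∅ := by
      rw [Finset.Ico_eq_empty_iff]; omega
    rw [this]; simp
  · obtain ⟨m, rfl⟩ := Nat.exists_eq_add_of_le' h
    have h1 := sum_inv_sq_aux m
    have h2 : 0 ≤ 1 / ((m:ℝ) + 1) := by positivity
    linarith

lemma Bn_le_of_bound (F : ℂ[X]) (L : ℕ) {A : ℝ} (hA : 0 ≤ A)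
    (h : ∀ k, 1 ≤ k → k < L → ‖psum F k‖ ≤ A) : Bn F L ≤ 2 * A := by
  unfold Bn
  rw [Real.sqrt_le_left (by positivity)]
  calc ∑ k ∈ Finset.Ico 1 L, ‖psum F k‖ ^ 2 / (k:ℝ) ^ 2
      ≤ ∑ k ∈ Finset.Ico 1 L, A ^ 2 * (1 / (k:ℝ) ^ 2) := by
        apply Finset.sum_le_sum
        intro k hk
        rw [Finset.mem_Ico] at hk
        have h1 := h k hk.1 hk.2
        rw [mul_one_div]
        apply div_le_div_of_nonneg_right _ (by positivity)
        exact pow_le_pow_left₀ (norm_nonneg _) h1 2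
    _ = A ^ 2 * ∑ k ∈ Finset.Ico 1 L, (1:ℝ) / (k:ℝ) ^ 2 := by rw [Finset.mul_sum]
    _ ≤ A ^ 2 * 2 := mul_le_mul_of_nonneg_left (sum_inv_sq L) (by positivity)
    _ ≤ (2 * A) ^ 2 := by nlinarith [sq_nonneg A]

lemma norm_psum_le (g : ℂ[X]) (hg : ∀ a ∈ g.roots, ‖a‖ ≤ 1) (k : ℕ) : ‖psum g k‖ ≤ g.natDegree := by
  have h1 : ∀ s : Multiset ℂ, (∀ a ∈ s, ‖a‖ ≤ 1) →
      ‖(s.map (fun a => a ^ k)).sum‖ ≤ (Multiset.card s : ℝ) := by
    intro s
    induction s using Multiset.induction_on with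
    | empty => simp
    | cons a s ih =>
      intro hs
      rw [Multiset.map_cons, Multiset.sum_cons, Multiset.card_cons]
      have h2 := ih fun b hb => hs b (Multiset.mem_cons_of_mem hb)
      have h3 : ‖a ^ k‖ ≤ 1 := by
        rw [norm_pow]; exact pow_le_one₀ (norm_nonneg _) (hs a (Multiset.mem_cons_self a s))
      have h4 := norm_add_le (a ^ k) (s.map (fun a => a ^ k)).sum
      push_cast
      linarith
  refine (h1 g.roots hg).trans ?_
  exact_mod_cast card_roots' g

/-- polynomials with the same top coefficients as `X ^ (n - d) g`, all roots of `g` in the disc -/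
theorem Bn_top (F g : ℂ[X]) (hg : g.Monic) (hgr : ∀ a ∈ g.roots, ‖a‖ ≤ 1) {L : ℕ} (hL : 1 ≤ L)
    (hLn : L ≤ F.natDegree) (hd : g.natDegree ≤ F.natDegree)
    (h : (F - X ^ (F.natDegree - g.natDegree) * g).natDegree ≤ F.natDegree - L) :
    F.leadingCoeff = 1 ∧ Bn F L ≤ 2 * g.natDegree := by
  obtain ⟨h1, h2⟩ := esymm_top F g hg hL hLn hd h
  refine ⟨h1, Bn_le_of_bound F L (by positivity) ?_⟩
  intro k hk1 hk2
  have h3 : psum F k = psum g k := psum_congr h2 k hk1 hk2
  rw [h3]
  exact norm_psum_le g hgr k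

end

end Pool.Agent.K3h99.Leh
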