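import Pool.Agent.K3h99.Leh.Circ

/-!
Parseval bounds for the truncated series.
-/

set_option autoImplicit false

namespace Pool.Agent.K3h99.Leh

open Complex MeasureTheory Metric Set Filter Topology ComplexConjugate InnerProductSpace Real
open Pool.Agent.GapMahler

noncomputable section

variable {ι : Type*} [Fintype ι]

lemma Z_split (s θ : ℝ) : Z (s, θ) = (Real.exp (-s) : ℂ) * circleMap 0 1 θ := by
  rw [Z_eq]; simp [circleMap]

lemma pars (c : ℕ → ℂ) (L : ℕ) (s : ℝ) :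
    ∫ θ in (0:ℝ)..(2 * π), ‖∑ k ∈ Finset.Ico 1 L, c k * Z (s, θ) ^ k‖ ^ 2 ≤
      2 * π * ∑ k ∈ Finset.Ico 1 L, ‖c k‖ ^ 2 * Real.exp (-(2 * k * s)) := by
  have h := PE_zero_sq (Finset.Ico 1 L) (fun k => c k * (Real.exp (-s) : ℂ) ^ k) id
    (fun i _ j _ h => h)
  rw [PE_zero] at h
  unfold Real.circleAverage at h
  rw [smul_eq_mul, inv_mul_le_iff₀ (by positivity)] at h
  have e1 : ∫ θ in (0:ℝ)..(2 * π), ‖∑ k ∈ Finset.Ico 1 L, c k * Z (s, θ) ^ k‖ ^ 2 =
      ∫ θ in (0:ℝ)..(2 * π), ‖∑ k ∈ Finset.Ico 1 L,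
        c k * (Real.exp (-s) : ℂ) ^ k * circleMap 0 1 θ ^ (id k)‖ ^ 2 := by
    apply intervalIntegral.integral_congr
    intro θ _
    simp only []
    congr 2
    apply Finset.sum_congr rfl
    intro k _
    rw [Z_split, mul_pow, id, mul_assoc]
  rw [e1]
  refine h.trans (le_of_eq ?_)
  congr 1
  apply Finset.sum_congr rfl
  intro k _
  rw [norm_mul, norm_pow, Complex.norm_real, Real.norm_of_nonneg (Real.exp_pos _).le, mul_pow,
    ← Real.exp_nat_mul, ← Real.exp_nat_mul]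
  congr 2
  push_cast; ring

lemma int_exp_le {a S : ℝ} (ha : 0 < a) : ∫ s in (0:ℝ)..S, Real.exp (-(a * s)) ≤ 1 / a := by
  have h : ∀ x ∈ uIcc 0 S, HasDerivAt (fun s => -Real.exp (-(a * s)) / a) (Real.exp (-(a * x))) x := by
    intro x _
    have h1 : HasDerivAt (fun s : ℝ => -(a * s)) (-a) x := by
      have h0 := ((hasDerivAt_id x).const_mul a).fun_neg
      simpa using h0
    have h2 := (h1.exp.neg).div_const a
    refine h2.congr_deriv ?_
    field_simp
  rw [intervalIntegral.integral_eq_sub_of_hasDerivAt h (by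
    apply Continuous.intervalIntegrable; fun_prop)]
  simp only [mul_zero, neg_zero, Real.exp_zero]
  have := Real.exp_pos (-(a * S))
  rw [← sub_nonneg]
  have e : 1 / a - (-Real.exp (-(a * S)) / a - -1 / a) = Real.exp (-(a * S)) / a := by ring
  rw [e]; positivity

/-- the weighted square sum of the power sums -/
def B2 (α : ι → ℂ) (L : ℕ) : ℝ := ∑ k ∈ Finset.Ico 1 L, ‖pk α k‖ ^ 2 / (k:ℝ) ^ 2

lemma B2_nonneg (α : ι → ℂ) (L : ℕ) : 0 ≤ B2 α L :=
  Finset.sum_nonneg fun _ _ => by positivity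

lemma continuous_pf (α : ι → ℂ) (L : ℕ) : Continuous (pf α L) := by
  unfold pf; fun_prop

lemma continuous_Pf (α : ι → ℂ) (L : ℕ) : Continuous (Pf α L) := by
  unfold Pf; fun_prop

lemma C0_pf (α : ι → ℂ) (L : ℕ) : C0 (fun p => ‖pf α L (Z p)‖ ^ 2) :=
  C0.of_continuous (((continuous_pf α L).comp continuous_Z).norm.pow 2)

theorem pars_p (α : ι → ℂ) (L : ℕ) {S : ℝ} (hS : 0 ≤ S) :
    ∫ s in (0:ℝ)..S, ∫ θ in (0:ℝ)..(2 * π), ‖pf α L (Z (s, θ))‖ ^ 2 ≤
      2 * π * (L / 2 * B2 α L) := by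
  have hpi : (0:ℝ) ≤ 2 * π := by positivity
  calc ∫ s in (0:ℝ)..S, ∫ θ in (0:ℝ)..(2 * π), ‖pf α L (Z (s, θ))‖ ^ 2
      ≤ ∫ s in (0:ℝ)..S, 2 * π * ∑ k ∈ Finset.Ico 1 L, ‖pk α k‖ ^ 2 * Real.exp (-(2 * k * s)) := by
        apply intervalIntegral.integral_mono_on hS
        · exact (C0_pf α L).int_s_int hS hpi
        · apply Continuous.intervalIntegrable; fun_prop
        · intro s _
          exact pars (pk α) L s
    _ = 2 * π * ∑ k ∈ Finset.Ico 1 L, ‖pk α k‖ ^ 2 * ∫ s in (0:ℝ)..S, Real.exp (-(2 * k * s)) := by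
        rw [intervalIntegral.integral_const_mul, intervalIntegral.integral_finsetSum]
        · congr 1
          apply Finset.sum_congr rfl
          intro k _
          rw [intervalIntegral.integral_const_mul]
        · intro k _
          apply Continuous.intervalIntegrable; fun_prop
    _ ≤ 2 * π * (L / 2 * B2 α L) := by
        apply mul_le_mul_of_nonneg_left _ hpi
        unfold B2
        rw [Finset.mul_sum]
        apply Finset.sum_le_sum
        intro k hk
        rw [Finset.mem_Ico] at hk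
        have hk0 : (0:ℝ) < k := by exact_mod_cast hk.1
        have hkL : (k:ℝ) ≤ L := by exact_mod_cast hk.2.le
        have h1 : ∫ s in (0:ℝ)..S, Real.exp (-(2 * k * s)) ≤ 1 / (2 * k) := int_exp_le (by positivity)
        calc ‖pk α k‖ ^ 2 * ∫ s in (0:ℝ)..S, Real.exp (-(2 * k * s)) ≤ ‖pk α k‖ ^ 2 * (1 / (2 * k)) :=
              mul_le_mul_of_nonneg_left h1 (by positivity)
          _ = k / 2 * (‖pk α k‖ ^ 2 / (k:ℝ) ^ 2) := by field_simp
          _ ≤ L / 2 * (‖pk α k‖ ^ 2 / (k:ℝ) ^ 2) := by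
              apply mul_le_mul_of_nonneg_right _ (by positivity)
              linarith

lemma circle_p (α : ι → ℂ) (L : ℕ) :
    ∫ θ in (0:ℝ)..(2 * π), ‖pf α L (Z (0, θ))‖ ^ 2 ≤ 2 * π * ((L:ℝ) ^ 2 * B2 α L) := by
  refine (pars (pk α) L 0).trans ?_
  apply mul_le_mul_of_nonneg_left _ (by positivity)
  unfold B2
  rw [Finset.mul_sum]
  apply Finset.sum_le_sum
  intro k hk
  rw [Finset.mem_Ico] at hk
  have hk0 : (0:ℝ) < k := by exact_mod_cast hk.1
  have hkL : (k:ℝ) ≤ L := by exact_mod_cast hk.2.le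
  rw [mul_zero, neg_zero, Real.exp_zero, mul_one]
  have h1 : (k:ℝ) ^ 2 ≤ (L:ℝ) ^ 2 := by nlinarith
  calc ‖pk α k‖ ^ 2 = (k:ℝ) ^ 2 * (‖pk α k‖ ^ 2 / (k:ℝ) ^ 2) := by field_simp
    _ ≤ _ := mul_le_mul_of_nonneg_right h1 (by positivity)

lemma circle_P2 (α : ι → ℂ) (L : ℕ) :
    ∫ θ in (0:ℝ)..(2 * π), ‖Pf α L (Z (0, θ))‖ ^ 2 ≤ 2 * π * B2 α L := by
  refine (pars (fun k => pk α k / k) L 0).trans ?_
  apply mul_le_mul_of_nonneg_left _ (by positivity)
  unfold B2
  apply Finset.sum_le_sum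
  intro k _
  rw [mul_zero, neg_zero, Real.exp_zero, mul_one, norm_div, Complex.norm_natCast, div_pow]

/-- `B` -/
def Bq (α : ι → ℂ) (L : ℕ) : ℝ := √(B2 α L)

lemma Bq_nonneg (α : ι → ℂ) (L : ℕ) : 0 ≤ Bq α L := Real.sqrt_nonneg _
lemma Bq_sq (α : ι → ℂ) (L : ℕ) : Bq α L ^ 2 = B2 α L := Real.sq_sqrt (B2_nonneg α L)

theorem circle_P (α : ι → ℂ) (L : ℕ) :
    ∫ θ in (0:ℝ)..(2 * π), ‖Pf α L (Z (0, θ))‖ ≤ 2 * π * (1 + Bq α L) := by
  have hpi : (0:ℝ) ≤ 2 * π := by positivity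
  set B := Bq α L with hB
  have hB0 : 0 ≤ B := Bq_nonneg α L
  have hc : Continuous (fun θ : ℝ => Pf α L (Z (0, θ))) :=
    (continuous_Pf α L).comp (continuous_Z.comp (by fun_prop))
  calc ∫ θ in (0:ℝ)..(2 * π), ‖Pf α L (Z (0, θ))‖
      ≤ ∫ θ in (0:ℝ)..(2 * π), (1 / (2 * (1 + B)) * ‖Pf α L (Z (0, θ))‖ ^ 2 + (1 + B) / 2) := by
        apply intervalIntegral.integral_mono_on hpi (hc.norm.intervalIntegrable _ _)
        · exact ((continuous_const.mul (hc.norm.pow 2)).add continuous_const).intervalIntegrable _ _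
        · intro θ _
          set t := ‖Pf α L (Z (0, θ))‖
          have h1 : 1 / (2 * (1 + B)) * t ^ 2 + (1 + B) / 2 - t = (t - (1 + B)) ^ 2 / (2 * (1 + B)) := by
            field_simp; ring
          have h2 : 0 ≤ (t - (1 + B)) ^ 2 / (2 * (1 + B)) := by positivity
          linarith
    _ = 1 / (2 * (1 + B)) * (∫ θ in (0:ℝ)..(2 * π), ‖Pf α L (Z (0, θ))‖ ^ 2) + 2 * π * ((1 + B) / 2) := by
        have i1 := intervalIntegral.integral_add (μ := volume) (a := 0) (b := 2 * π)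
          (f := fun θ : ℝ => 1 / (2 * (1 + B)) * ‖Pf α L (Z (0, θ))‖ ^ 2)
          (g := fun _ => (1 + B) / 2) ((continuous_const.mul (hc.norm.pow 2)).intervalIntegrable _ _)
          (by simp)
        rw [i1, intervalIntegral.integral_const_mul, intervalIntegral.integral_const, smul_eq_mul,
          sub_zero]
    _ ≤ 1 / (2 * (1 + B)) * (2 * π * B ^ 2) + 2 * π * ((1 + B) / 2) := by
        have := circle_P2 α L
        rw [← Bq_sq] at this
        have := mul_le_mul_of_nonneg_left this (by positivity : 0 ≤ 1 / (2 * (1 + B)))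
        linarith
    _ ≤ 2 * π * (1 + B) := by
        have h1 : B ^ 2 / (2 * (1 + B)) ≤ (1 + B) / 2 := by
          rw [div_le_div_iff₀ (by positivity) (by norm_num)]; nlinarith
        have h2 := mul_le_mul_of_nonneg_left h1 hpi
        have e : 1 / (2 * (1 + B)) * (2 * π * B ^ 2) = 2 * π * (B ^ 2 / (2 * (1 + B))) := by ring
        rw [e]; linarith

theorem circle_sqrt_p (α : ι → ℂ) {L : ℕ} (hL : 1 ≤ L) :
    ∫ θ in (0:ℝ)..(2 * π), √‖pf α L (Z (0, θ))‖ ≤ 2 * π * √(L * (1 + Bq α L)) := by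
  have hpi : (0:ℝ) ≤ 2 * π := by positivity
  set B := Bq α L with hB
  have hB0 : 0 ≤ B := Bq_nonneg α L
  have hL0 : (0:ℝ) < L := by exact_mod_cast hL
  set m := √(L * (1 + B)) with hm
  have hm0 : 0 < m := Real.sqrt_pos.2 (by positivity)
  have hm2 : m ^ 2 = L * (1 + B) := Real.sq_sqrt (by positivity)
  have hc : Continuous (fun θ : ℝ => pf α L (Z (0, θ))) :=
    (continuous_pf α L).comp (continuous_Z.comp (by fun_prop))
  calc ∫ θ in (0:ℝ)..(2 * π), √‖pf α L (Z (0, θ))‖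
      ≤ ∫ θ in (0:ℝ)..(2 * π), (1 / (4 * m ^ 3) * ‖pf α L (Z (0, θ))‖ ^ 2 + 3 / 4 * m) := by
        apply intervalIntegral.integral_mono_on hpi (hc.norm.sqrt.intervalIntegrable _ _)
        · exact ((continuous_const.mul (hc.norm.pow 2)).add continuous_const).intervalIntegrable _ _
        · intro θ _
          set t := ‖pf α L (Z (0, θ))‖
          set y := √t with hy
          have hy0 : 0 ≤ y := Real.sqrt_nonneg _
          have ht : t = y ^ 2 := (Real.sq_sqrt (norm_nonneg _)).symm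
          rw [ht]
          have h1 : 1 / (4 * m ^ 3) * (y ^ 2) ^ 2 + 3 / 4 * m - y =
              ((y - m) ^ 2 * (y ^ 2 + 2 * m * y + 3 * m ^ 2)) / (4 * m ^ 3) := by
            field_simp; ring
          have h2 : 0 ≤ ((y - m) ^ 2 * (y ^ 2 + 2 * m * y + 3 * m ^ 2)) / (4 * m ^ 3) := by positivity
          linarith
    _ = 1 / (4 * m ^ 3) * (∫ θ in (0:ℝ)..(2 * π), ‖pf α L (Z (0, θ))‖ ^ 2) + 2 * π * (3 / 4 * m) := by
        have i1 := intervalIntegral.integral_add (μ := volume) (a := 0) (b := 2 * π)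
          (f := fun θ : ℝ => 1 / (4 * m ^ 3) * ‖pf α L (Z (0, θ))‖ ^ 2)
          (g := fun _ => 3 / 4 * m) ((continuous_const.mul (hc.norm.pow 2)).intervalIntegrable _ _)
          (by simp)
        rw [i1, intervalIntegral.integral_const_mul, intervalIntegral.integral_const, smul_eq_mul,
          sub_zero]
    _ ≤ 1 / (4 * m ^ 3) * (2 * π * (L ^ 2 * B ^ 2)) + 2 * π * (3 / 4 * m) := by
        have := circle_p α L
        rw [← Bq_sq] at this
        have := mul_le_mul_of_nonneg_left this (by positivity : 0 ≤ 1 / (4 * m ^ 3))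
        linarith
    _ ≤ 2 * π * m := by
        have h1 : L ^ 2 * B ^ 2 / (4 * m ^ 3) ≤ m / 4 := by
          rw [div_le_div_iff₀ (by positivity) (by norm_num)]
          have e : m * (4 * m ^ 3) = 4 * (L * (1 + B)) ^ 2 := by rw [← hm2]; ring
          rw [e]
          nlinarith [mul_pos hL0 hL0]
        have h2 := mul_le_mul_of_nonneg_left h1 hpi
        have e : 1 / (4 * m ^ 3) * (2 * π * (L ^ 2 * B ^ 2)) =
            2 * π * (L ^ 2 * B ^ 2 / (4 * m ^ 3)) := by ring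
        rw [e]; linarith

/-- the full circle bound for `|Q₃| ^ (1/2)` -/
theorem circle_Y [DecidableEq ι] {α : ι → ℂ} (ha : ∀ i, ‖α i‖ ≠ 1) {L : ℕ} (hL : 1 ≤ L) :
    ∫ θ in (0:ℝ)..(2 * π), Yf α (Np α L) (Z (0, θ)) ≤
      2 * π * (4 * √(Fintype.card ι) + √(L * (1 + Bq α L))) := by
  have hpi : (0:ℝ) ≤ 2 * π := by positivity
  have hZ0 : ∀ θ, ‖Z (0, θ)‖ = 1 := fun θ => by rw [norm_Z]; simp
  have hZc : Continuous (fun θ : ℝ => Z (0, θ)) := continuous_Z.comp (by fun_prop)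
  have hc1 : Continuous (fun θ : ℝ => √‖pf α L (Z (0, θ))‖) :=
    ((continuous_pf α L).comp hZc).norm.sqrt
  have hc2 : Continuous (fun θ : ℝ => √‖∑ i, q (α i) (Z (0, θ))‖) := by
    apply Continuous.sqrt
    apply Continuous.norm
    apply continuous_finsetSum
    intro i _
    unfold q
    apply Continuous.div
    · fun_prop
    · fun_prop
    · intro θ; exact NZ_circle ha (hZ0 θ) i
  have hc3 : Continuous (fun θ : ℝ => Yf α (Np α L) (Z (0, θ))) :=
    (continuousOn_Yf ha (Np α L)).comp_continuous hZc (fun θ => by simpa using (hZ0 θ).le)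
  calc ∫ θ in (0:ℝ)..(2 * π), Yf α (Np α L) (Z (0, θ))
      ≤ ∫ θ in (0:ℝ)..(2 * π), (√‖∑ i, q (α i) (Z (0, θ))‖ + √‖pf α L (Z (0, θ))‖) := by
        apply intervalIntegral.integral_mono_on hpi (hc3.intervalIntegrable _ _)
          ((hc2.add hc1).intervalIntegrable _ _)
        intro θ _
        rw [Yf_circle ha hL]
        have h1 : ‖Q3 α L (Z (0, θ))‖ ≤ ‖∑ i, q (α i) (Z (0, θ))‖ + ‖pf α L (Z (0, θ))‖ := by
          unfold Q3
          refine (norm_sub_le _ _).trans (le_of_eq ?_)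
          ring
        exact (Real.sqrt_le_sqrt h1).trans (sqrt_add_le' (norm_nonneg _) (norm_nonneg _))
    _ = (∫ θ in (0:ℝ)..(2 * π), √‖∑ i, q (α i) (Z (0, θ))‖) +
          (∫ θ in (0:ℝ)..(2 * π), √‖pf α L (Z (0, θ))‖) :=
        intervalIntegral.integral_add (hc2.intervalIntegrable _ _) (hc1.intervalIntegrable _ _)
    _ ≤ _ := by
        have h1 := kol_F ha
        have h2 := circle_sqrt_p α hL
        linarith

end

end Pool.Agent.K3h99.Leh
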