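import Pool.Agent.K3h99.Leh.Lim

/-!
From the analytic bound to polynomials.
-/

set_option autoImplicit false

namespace Pool.Agent.K3h99.Leh

open Complex MeasureTheory Metric Set Filter Topology ComplexConjugate InnerProductSpace Real
open Polynomial

noncomputable section

/-- power sums of the complex roots, with multiplicity -/
def psum (F : ℂ[X]) (k : ℕ) : ℂ := (F.roots.map (fun a => a ^ k)).sum

/-- the weighted square norm of the power sums `p_1, …, p_{L-1}` -/
def Bn (F : ℂ[X]) (L : ℕ) : ℝ := √(∑ k ∈ Finset.Ico 1 L, ‖psum F k‖ ^ 2 / (k:ℝ) ^ 2)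

lemma exists_enum (s : Multiset ℂ) : ∃ (N : ℕ) (α : Fin N → ℂ), N = Multiset.card s ∧
    s = Finset.univ.val.map α := by
  induction s using Quotient.inductionOn with
  | h l =>
    refine ⟨l.length, l.get, by simp, ?_⟩
    have h1 : (Finset.univ : Finset (Fin l.length)).val =
        ((List.finRange l.length : List _) : Multiset _) := rfl
    rw [h1, Multiset.quot_mk_to_coe, Multiset.map_coe, ← List.ofFn_eq_map, List.ofFn_get]

theorem T_poly (F : ℂ[X]) (hlc : ‖F.leadingCoeff‖ = 1) (hM : F.mahlerMeasure < 2) {L : ℕ}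
    (hL : 1 ≤ L) (hLn : L ≤ F.natDegree) :
    Real.circleAverage (fun z => Real.posLog ‖F.eval z‖) 0 1 ≤
      50 * ((F.natDegree : ℝ) / L + Bn F L) := by
  have hF0 : F ≠ 0 := by
    rintro rfl; simp at hlc
  obtain ⟨N, α, hN, hα⟩ := exists_enum F.roots
  have hcard : Multiset.card F.roots = F.natDegree := (splits_iff_card_roots.1 (IsAlgClosed.splits F))
  have hprod : ∀ z : ℂ, F.eval z = F.leadingCoeff * ∏ i, (z - α i) := by
    intro z
    conv_lhs => rw [(IsAlgClosed.splits F).eq_prod_roots]
    rw [Polynomial.eval_mul, Polynomial.eval_C, Polynomial.eval_multiset_prod, Multiset.map_map]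
    congr 1
    rw [hα, Multiset.map_map]
    rw [Finset.prod_eq_multiset_prod]
    simp
  have hep : ep α ≤ 1 := by
    have h1 := Polynomial.mahlerMeasure_eq_leadingCoeff_mul_prod_roots F
    rw [hlc, one_mul] at h1
    have h2 : ep α = Real.log F.mahlerMeasure := by
      rw [h1, hα, Multiset.map_map]
      have h3 : (Multiset.map ((fun a => max 1 ‖a‖) ∘ α) Finset.univ.val).prod = ∏ i, max 1 ‖α i‖ := by
        rw [Finset.prod_eq_multiset_prod]; rfl
      rw [h3, Real.log_prod]
      · unfold ep
        apply Finset.sum_congr rfl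
        intro i _
        rw [Real.posLog_eq_log_max_one (norm_nonneg _)]
      · intro i _
        have := le_max_left 1 ‖α i‖
        linarith
    rw [h2]
    have hM0 : 0 < F.mahlerMeasure := Polynomial.mahlerMeasure_pos_of_ne_zero hF0
    have := Real.log_le_log hM0 hM.le
    have h4 : Real.log 2 < 1 := by
      have := Real.log_two_lt_d9; linarith
    linarith
  have hc : Fintype.card (Fin N) = F.natDegree := by
    rw [Fintype.card_fin, hN, hcard]
  have hT := T_bound' α hL (by rw [hc]; exact hLn) hep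
  rw [hc] at hT
  have hB : Bq α L = Bn F L := by
    unfold Bq B2 Bn psum pk
    congr 1
    apply Finset.sum_congr rfl
    intro k _
    congr 3
    conv_rhs => rw [hα, Multiset.map_map]
    rw [Finset.sum_eq_multiset_sum]; rfl
  rw [hB] at hT
  have hpi : (0:ℝ) < 2 * π := by positivity
  have e1 : Real.circleAverage (fun z => Real.posLog ‖F.eval z‖) 0 1 =
      Real.circleAverage (fun z => Real.posLog ‖∏ i, (1 - α i * z)‖) 0 1 := by
    rw [← Real.circleAverage_zero_one_congr_inv (f := fun z => Real.posLog ‖∏ i, (1 - α i * z)‖)]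
    apply Real.circleAverage_congr_sphere
    intro z hz
    have hz1 : ‖z‖ = 1 := by simpa using hz
    have hz0 : z ≠ 0 := by
      rintro rfl; simp at hz1
    simp only []
    congr 1
    rw [hprod, norm_mul, hlc, one_mul, norm_prod, norm_prod]
    apply Finset.prod_congr rfl
    intro i _
    have h1 : z - α i = z * (1 - α i * z⁻¹) := by field_simp
    rw [h1, norm_mul, hz1, one_mul]
  rw [e1]
  unfold Real.circleAverage
  rw [smul_eq_mul, inv_mul_le_iff₀ hpi]
  exact hT

/-- gap polynomials have vanishing power sums -/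
theorem psum_gap (F : ℂ[X]) {L : ℕ} (hL : L ≤ F.natDegree)
    (hgap : ∀ j, 1 ≤ j → j < L → F.coeff (F.natDegree - j) = 0) (k : ℕ) (hk1 : 1 ≤ k) (hkL : k < L) :
    psum F k = 0 := by
  have hF0 : F ≠ 0 := by
    rintro rfl
    rw [natDegree_zero] at hL; omega
  have hlc : F.leadingCoeff ≠ 0 := leadingCoeff_ne_zero.2 hF0
  obtain ⟨N, α, hNc, hα⟩ := exists_enum F.roots
  have hes : ∀ j, 1 ≤ j → j < L → F.roots.esymm j = 0 := by
    intro j h1 h2
    have h3 := Polynomial.coeff_eq_esymm_roots_of_splits (IsAlgClosed.splits F)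
      (k := F.natDegree - j) (Nat.sub_le _ _)
    rw [hgap j h1 h2] at h3
    have h4 : F.natDegree - (F.natDegree - j) = j := by omega
    rw [h4] at h3
    have h5 := h3.symm
    rcases mul_eq_zero.1 h5 with h6 | h6
    · rcases mul_eq_zero.1 h6 with h7 | h7
      · exact absurd h7 hlc
      · exact absurd h7 (pow_ne_zero _ (by norm_num))
    · exact h6
  have hN := congrArg (MvPolynomial.aeval α)
    (MvPolynomial.psum_eq_mul_esymm_sub_sum (Fin N) ℂ k (by omega))
  rw [map_sub, map_mul, MvPolynomial.aeval_esymm_eq_multiset_esymm, ← hα, hes k hk1 hkL, mul_zero,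
    zero_sub, map_sum] at hN
  have hz : ∑ x ∈ Finset.HasAntidiagonal.antidiagonal k with x.1 ∈ Set.Ioo 0 k, (MvPolynomial.aeval α)
      ((-1) ^ x.1 * MvPolynomial.esymm (Fin N) ℂ x.1 *
        MvPolynomial.psum (Fin N) ℂ x.2) = 0 := by
    apply Finset.sum_eq_zero
    intro x hx
    rw [Finset.mem_filter] at hx
    rw [map_mul, map_mul, MvPolynomial.aeval_esymm_eq_multiset_esymm, ← hα,
      hes x.1 hx.2.1 (by have := hx.2.2; omega), mul_zero, zero_mul]
  rw [hz, neg_zero] at hN
  rw [← hN]
  unfold psum MvPolynomial.psum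
  conv_lhs => rw [hα, Multiset.map_map]
  rw [map_sum, Finset.sum_eq_multiset_sum]
  simp

end

end Pool.Agent.K3h99.Leh
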