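import Pool.Agent.K3h99.Leh.Pars

/-!
The growth estimate along a ray.
-/

set_option autoImplicit false

namespace Pool.Agent.K3h99.Leh

open Complex MeasureTheory Metric Set Filter Topology ComplexConjugate InnerProductSpace Real

noncomputable section

variable {ι : Type*} [Fintype ι]

lemma ray_of_lin {F : ℝ × ℝ → ℝ} {c : ℂ} {s θ : ℝ} (h : HasFDerivAt F (lin c) (s, θ)) :
    HasDerivAt (fun s => F (s, θ)) c.re s := by
  have h1 : HasDerivAt (fun s : ℝ => (s, θ)) ((1:ℝ), (0:ℝ)) s :=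
    (hasDerivAt_id s).prodMk (hasDerivAt_const s θ)
  have h2 := h.comp_hasDerivAt s h1
  refine h2.congr_deriv ?_
  simp

/-- derivative of `P` -/
def Pd (α : ι → ℂ) (L : ℕ) (z : ℂ) : ℂ :=
  ∑ k ∈ Finset.Ico 1 L, (pk α k / k) * (k * z ^ (k - 1))

lemma hasDerivAt_Pf (α : ι → ℂ) (L : ℕ) (z : ℂ) : HasDerivAt (Pf α L) (Pd α L z) z := by
  unfold Pf Pd
  apply HasDerivAt.fun_sum
  intro k _
  exact (hasDerivAt_pow k z).const_mul _

lemma z_mul_Pd (α : ι → ℂ) (L : ℕ) (z : ℂ) : z * Pd α L z = pf α L z := by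
  unfold Pd pf
  rw [Finset.mul_sum]
  apply Finset.sum_congr rfl
  intro k hk
  rw [Finset.mem_Ico] at hk
  have hk0 : (k:ℂ) ≠ 0 := by
    have : k ≠ 0 := by omega
    exact_mod_cast this
  have e : z ^ k = z * z ^ (k - 1) := by
    rw [← pow_succ']; congr 1; omega
  rw [e]
  field_simp

def Wf (α : ι → ℂ) (K : ℝ) (L : ℕ) (p : ℝ × ℝ) : ℝ :=
  Uf α (Z p) + (Pf α L (Z p)).re - K * p.1 + psi α K p

def Wd (α : ι → ℂ) (K : ℝ) (L : ℕ) (p : ℝ × ℝ) : ℝ :=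
  (∑ i, q (rf (α i)) (Z p)).re - (pf α L (Z p)).re - K + chi α K p * (K - (bf α (Z p)).re)

lemma hasDerivAt_Wf {α : ι → ℂ} (ha : ∀ i, ‖α i‖ ≠ 1) (K : ℝ) (L : ℕ) (θ : ℝ) {s : ℝ}
    (hs : 0 ≤ s) : HasDerivAt (fun s => Wf α K L (s, θ)) (Wd α K L (s, θ)) s := by
  unfold Wf Wd
  have h1 := ray_of_lin (hasFDerivAt_Uf ha (p := (s, θ)) hs)
  have h2 := ray_of_lin (hasFDerivAt_re (p := (s, θ)) (hasDerivAt_Pf α L (Z (s, θ))))
  rw [z_mul_Pd, Complex.neg_re] at h2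
  have h3 : HasDerivAt (fun s : ℝ => K * s) K s := by
    simpa using (hasDerivAt_id s).const_mul K
  have h4 := hasDerivAt_psi_ray ha K θ hs
  exact ((h1.add h2).sub h3).add h4

lemma q_re_ge {w : ℂ} (hw : ‖w‖ < 1) : -(1 / 2) ≤ (w / (1 - w)).re := by
  have h1 : 1 - w ≠ 0 := by
    intro h
    rw [sub_eq_zero] at h
    rw [← h, norm_one] at hw
    exact lt_irrefl _ hw
  have h2 := herglotz_re hw
  have h3 : (1 + w) / (1 - w) = 1 + 2 * (w / (1 - w)) := by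
    field_simp; ring
  rw [h3] at h2
  simp only [Complex.add_re, Complex.one_re, Complex.mul_re, Complex.re_ofNat, Complex.im_ofNat,
    zero_mul, sub_zero] at h2
  linarith

lemma sum_q_ge {α : ι → ℂ} (ha : ∀ i, ‖α i‖ ≠ 1) {z : ℂ} (hz : ‖z‖ ≤ 1) :
    -((Fintype.card ι : ℝ) / 2) ≤ (∑ i, q (rf (α i)) z).re := by
  rw [Complex.re_sum]
  have h : ∑ _i : ι, (-(1 / 2) : ℝ) ≤ ∑ i, (q (rf (α i)) z).re := by
    apply Finset.sum_le_sum
    intro i _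
    exact q_re_ge (norm_rf_mul_lt (ha i) hz)
  rw [Finset.sum_const, Finset.card_univ, nsmul_eq_mul] at h
  linarith

lemma min_le {m a b l : ℝ} (ha : m ≤ a) (hb : m ≤ b) (hl : 0 < l) :
    m ≤ l * √a + (l ^ 2)⁻¹ * b ^ 2 := by
  rcases le_or_gt m 0 with hm | hm
  · have : 0 ≤ l * √a + (l ^ 2)⁻¹ * b ^ 2 := by positivity
    linarith
  · set y := √m with hy
    have hy0 : 0 < y := Real.sqrt_pos.2 hm
    have hm2 : m = y ^ 2 := (Real.sq_sqrt hm.le).symm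
    have h1 : y ≤ √a := Real.sqrt_le_sqrt ha
    have h2 : m ^ 2 ≤ b ^ 2 := by nlinarith
    have h3 : y ^ 2 ≤ l * y + (l ^ 2)⁻¹ * (y ^ 2) ^ 2 := by
      have e : l * y + (l ^ 2)⁻¹ * (y ^ 2) ^ 2 - y ^ 2 = y * (l ^ 3 + y ^ 3 - l ^ 2 * y) / l ^ 2 := by
        field_simp
      have h4 : 0 ≤ l ^ 3 + y ^ 3 - l ^ 2 * y := by
        rcases le_total y l with h | h
        · nlinarith [mul_nonneg (sq_nonneg l) (sub_nonneg.2 h), pow_pos hy0 3]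
        · nlinarith [mul_nonneg hy0.le (sub_nonneg.2 (mul_self_le_mul_self hl.le h)), pow_pos hl 3]
      have h5 : 0 ≤ y * (l ^ 3 + y ^ 3 - l ^ 2 * y) / l ^ 2 := by positivity
      linarith
    rw [← hm2] at h3
    have h4 : l * y ≤ l * √a := mul_le_mul_of_nonneg_left h1 hl.le
    have h5 : (l ^ 2)⁻¹ * m ^ 2 ≤ (l ^ 2)⁻¹ * b ^ 2 := mul_le_mul_of_nonneg_left h2 (by positivity)
    linarith

/-- the bounding function -/
def Xi [DecidableEq ι] (α : ι → ℂ) (L : ℕ) (μ l0 : ℝ) (p : ℝ × ℝ) : ℝ :=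
  (1 - chi α (L / 8) p) * (L / 8 + (Fintype.card ι : ℝ) / 2 + μ / 2) +
  (1 / (2 * μ) + 3 * (l0 ^ 2)⁻¹) * ‖pf α L (Z p)‖ ^ 2 +
  l0 * (Real.exp (-(3 * L / 16 * p.1)) * Yf α (Np α L) (Z p)) +
  3 * (l0 ^ 2)⁻¹ * ((Fintype.card ι : ℝ) ^ 2 / 4) * Real.exp (-(L / 2 * p.1)) +
  3 * (l0 ^ 2)⁻¹ * ((L:ℝ) / 8) ^ 2 * Real.exp (-(L / 4 * p.1))

theorem neg_Wd_le [DecidableEq ι] {α : ι → ℂ} (ha : ∀ i, ‖α i‖ ≠ 1) {L : ℕ} (hL : 1 ≤ L)
    {μ l0 : ℝ} (hμ : 0 < μ) (hl0 : 0 < l0) {p : ℝ × ℝ} (hp : 0 < p.1) :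
    -Wd α (L / 8) L p ≤ Xi α L μ l0 p := by
  have hL0 : (0:ℝ) < L := by exact_mod_cast hL
  set K : ℝ := (L:ℝ) / 8 with hK
  have hK0 : 0 < K := by positivity
  set z := Z p with hz
  have hz1 : ‖z‖ ≤ 1 := Z_norm_le hp.le
  have hzn : ‖z‖ = Real.exp (-p.1) := norm_Z p
  set n : ℝ := (Fintype.card ι : ℝ) with hn
  have hn0 : 0 ≤ n := by positivity
  set χ := chi α K p with hχ
  have hχ0 : 0 ≤ χ := chi_nonneg _ _ _
  have hχ1 : χ ≤ 1 := chi_le_one _ _ _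
  set P := ‖pf α L z‖ with hP
  have hP0 : 0 ≤ P := norm_nonneg _
  have hPre : |(pf α L z).re| ≤ P := Complex.abs_re_le_norm _
  set A := (∑ i, q (rf (α i)) z).re with hA
  set A' := (∑ i, q (α i) z).re with hA'
  have hb : (bf α z).re = A - A' := by
    unfold bf
    rw [Finset.sum_sub_distrib, Complex.sub_re]
  have hAn : -(n / 2) ≤ A := sum_q_ge ha hz1
  have hsplit : -Wd α K L p = (1 - χ) * (K - A + (pf α L z).re) + χ * ((pf α L z).re - A') := by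
    unfold Wd
    rw [← hz, hb, ← hA]
    ring
  have hfirst : (1 - χ) * (K - A + (pf α L z).re) ≤
      (1 - χ) * (K + n / 2 + μ / 2) + 1 / (2 * μ) * P ^ 2 := by
    have h1 : P ≤ μ / 2 + 1 / (2 * μ) * P ^ 2 := by
      have e : μ / 2 + 1 / (2 * μ) * P ^ 2 - P = (P - μ) ^ 2 / (2 * μ) := by field_simp; ring
      have : 0 ≤ (P - μ) ^ 2 / (2 * μ) := by positivity
      linarith
    have h2 : K - A + (pf α L z).re ≤ (K + n / 2 + μ / 2) + 1 / (2 * μ) * P ^ 2 := by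
      have := (le_abs_self _).trans hPre
      linarith
    have h3 := mul_le_mul_of_nonneg_left h2 (by linarith : 0 ≤ 1 - χ)
    have h4 : (1 - χ) * (1 / (2 * μ) * P ^ 2) ≤ 1 / (2 * μ) * P ^ 2 := by
      have : 0 ≤ 1 / (2 * μ) * P ^ 2 := by positivity
      nlinarith
    rw [mul_add] at h3
    linarith
  have hsecond : χ * ((pf α L z).re - A') ≤
      l0 * (Real.exp (-(3 * L / 16 * p.1)) * Yf α (Np α L) z) +
      3 * (l0 ^ 2)⁻¹ * (n ^ 2 / 4) * Real.exp (-(L / 2 * p.1)) + 3 * (l0 ^ 2)⁻¹ * P ^ 2 +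
      3 * (l0 ^ 2)⁻¹ * K ^ 2 * Real.exp (-(L / 4 * p.1)) := by
    have hY0 := Yf_nonneg α (Np α L) z
    have hR0 : 0 ≤ l0 * (Real.exp (-(3 * L / 16 * p.1)) * Yf α (Np α L) z) +
      3 * (l0 ^ 2)⁻¹ * (n ^ 2 / 4) * Real.exp (-(L / 2 * p.1)) + 3 * (l0 ^ 2)⁻¹ * P ^ 2 +
      3 * (l0 ^ 2)⁻¹ * K ^ 2 * Real.exp (-(L / 4 * p.1)) := by positivity
    rcases hχ0.eq_or_lt with h0 | h0
    · rw [← h0, zero_mul]; exact hR0
    have hNZ : NZ α z := by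
      by_contra hcon
      rw [hχ, chi_not hcon] at h0
      exact lt_irrefl _ h0
    have hg : gf α z ≤ K * p.1 := by
      by_contra hcon
      push Not at hcon
      rw [hχ, chi_of hNZ, hd_of_nonpos (by linarith)] at h0
      exact lt_irrefl _ h0
    have hbn : ‖bf α z‖ ≤ K * Real.exp (K * p.1) := norm_bf_le' p.1 K hp hK0.le hzn hNZ hg
    have hm1 : (pf α L z).re - A' ≤ ‖Q3 α L z‖ := by
      unfold Q3
      rw [hA', ← Complex.sub_re]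
      exact Complex.re_le_norm _
    have hm2 : (pf α L z).re - A' ≤ n / 2 + P + K * Real.exp (K * p.1) := by
      have h1 := (le_abs_self _).trans hPre
      have h2 : (bf α z).re ≤ ‖bf α z‖ := Complex.re_le_norm _
      rw [hb] at h2
      linarith
    set l : ℝ := l0 * Real.exp (L / 4 * p.1) with hl
    have hlpos : 0 < l := by positivity
    have h3 := min_le hm1 hm2 hlpos
    have h4 : √‖Q3 α L z‖ ≤ Real.exp ((K - L) * p.1 / 2) * Yf α (Np α L) z := by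
      rw [hz, sqrt_Q3 hNZ hL, ← hz]
      apply mul_le_mul_of_nonneg_right _ hY0
      apply Real.exp_le_exp.2
      have : gf α z - L * p.1 ≤ (K - L) * p.1 := by linarith
      linarith
    have h5 : l * √‖Q3 α L z‖ ≤ l0 * (Real.exp (-(3 * L / 16 * p.1)) * Yf α (Np α L) z) := by
      calc l * √‖Q3 α L z‖ ≤ l * (Real.exp ((K - L) * p.1 / 2) * Yf α (Np α L) z) :=
            mul_le_mul_of_nonneg_left h4 hlpos.le
        _ = l0 * ((Real.exp (L / 4 * p.1) * Real.exp ((K - L) * p.1 / 2)) * Yf α (Np α L) z) := by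
            rw [hl]; ring
        _ = _ := by
            rw [← Real.exp_add]
            congr 4
            rw [hK]; ring
    have h6 : (l ^ 2)⁻¹ = (l0 ^ 2)⁻¹ * Real.exp (-(L / 2 * p.1)) := by
      rw [hl, mul_pow, mul_inv, ← Real.exp_nat_mul, ← Real.exp_neg]
      congr 2
      push_cast; ring
    have h7 : (n / 2 + P + K * Real.exp (K * p.1)) ^ 2 ≤
        3 * (n ^ 2 / 4 + P ^ 2 + K ^ 2 * Real.exp (L / 4 * p.1)) := by
      have e : Real.exp (L / 4 * p.1) = Real.exp (K * p.1) ^ 2 := by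
        rw [← Real.exp_nat_mul]; congr 1; rw [hK]; push_cast; ring
      rw [e]
      nlinarith [sq_nonneg (n / 2 - P), sq_nonneg (n / 2 - K * Real.exp (K * p.1)),
        sq_nonneg (P - K * Real.exp (K * p.1))]
    have h8 : (l ^ 2)⁻¹ * (n / 2 + P + K * Real.exp (K * p.1)) ^ 2 ≤
        3 * (l0 ^ 2)⁻¹ * (n ^ 2 / 4) * Real.exp (-(L / 2 * p.1)) + 3 * (l0 ^ 2)⁻¹ * P ^ 2 +
        3 * (l0 ^ 2)⁻¹ * K ^ 2 * Real.exp (-(L / 4 * p.1)) := by
      rw [h6]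
      have h9 := mul_le_mul_of_nonneg_left h7
        (by positivity : 0 ≤ (l0 ^ 2)⁻¹ * Real.exp (-(L / 2 * p.1)))
      have e1 : Real.exp (-(L / 2 * p.1)) * Real.exp (L / 4 * p.1) = Real.exp (-(L / 4 * p.1)) := by
        rw [← Real.exp_add]; congr 1; ring
      have e2 : Real.exp (-(L / 2 * p.1)) ≤ 1 := by
        apply Real.exp_le_one_iff.2
        have : 0 ≤ L / 2 * p.1 := by positivity
        linarith
      have e3 : 3 * (l0 ^ 2)⁻¹ * P ^ 2 * Real.exp (-(L / 2 * p.1)) ≤ 3 * (l0 ^ 2)⁻¹ * P ^ 2 := by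
        have : 0 ≤ 3 * (l0 ^ 2)⁻¹ * P ^ 2 := by positivity
        nlinarith
      refine h9.trans ?_
      have e4 : (l0 ^ 2)⁻¹ * Real.exp (-(L / 2 * p.1)) *
          (3 * (n ^ 2 / 4 + P ^ 2 + K ^ 2 * Real.exp (L / 4 * p.1))) =
          3 * (l0 ^ 2)⁻¹ * (n ^ 2 / 4) * Real.exp (-(L / 2 * p.1)) +
          3 * (l0 ^ 2)⁻¹ * P ^ 2 * Real.exp (-(L / 2 * p.1)) +
          3 * (l0 ^ 2)⁻¹ * K ^ 2 * (Real.exp (-(L / 2 * p.1)) * Real.exp (L / 4 * p.1)) := by ring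
      rw [e4, e1]
      linarith
    have h10 : (pf α L z).re - A' ≤
      l0 * (Real.exp (-(3 * L / 16 * p.1)) * Yf α (Np α L) z) +
      3 * (l0 ^ 2)⁻¹ * (n ^ 2 / 4) * Real.exp (-(L / 2 * p.1)) + 3 * (l0 ^ 2)⁻¹ * P ^ 2 +
      3 * (l0 ^ 2)⁻¹ * K ^ 2 * Real.exp (-(L / 4 * p.1)) := by linarith
    calc χ * ((pf α L z).re - A') ≤ χ * _ := mul_le_mul_of_nonneg_left h10 hχ0
      _ ≤ 1 * _ := mul_le_mul_of_nonneg_right hχ1 hR0
      _ = _ := one_mul _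
  rw [hsplit]
  unfold Xi
  rw [← hK, ← hz, ← hχ, ← hP, ← hn]
  have e : (1 / (2 * μ) + 3 * (l0 ^ 2)⁻¹) * P ^ 2 = 1 / (2 * μ) * P ^ 2 + 3 * (l0 ^ 2)⁻¹ * P ^ 2 := by
    ring
  rw [e]
  linarith

end

end Pool.Agent.K3h99.Leh
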